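import Pool.Agent.Lib_helper56.TR8.XC.K

/-!
# Tables of pairs of sides, 0
-/

set_option autoImplicit false
set_option maxRecDepth 100000

namespace Pool.Agent.TR8.CI

def kA_31 : Cf := ⟨146, 0, 0, -859, 205, 0, 0, 992, -417⟩

theorem cA_31_0_0 : goP 40 kA_31 5500000 [⟨358, 126, 50, 0⟩] [⟨0, 0, 260, 0⟩]
    681617040 = true := by decide +kernel

theorem cA_31_0_1 : goP 40 kA_31 5500000 [⟨408, 126, 0, 43⟩] [⟨0, 0, 260, 0⟩]
    2662560 = true := by decide +kernel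

theorem cA_31_0_2 : goP 40 kA_31 5500000 [⟨408, 169, -26, 26⟩] [⟨0, 0, 260, 0⟩]
    45787145873040 = true := by decide +kernel

theorem cA_31_0_3 : goP 40 kA_31 5500000 [⟨382, 195, -24, 0⟩] [⟨0, 0, 260, 0⟩]
    166048 = true := by decide +kernel

theorem cA_31_0_4 : goP 40 kA_31 5500000 [⟨358, 195, 0, -69⟩] [⟨0, 0, 260, 0⟩]
    11301856912 = true := by decide +kernel

theorem cA_31_1_0 : goP 40 kA_31 5500000 [⟨358, 126, 50, 0⟩] [⟨260, 0, 148, 126⟩]
    681616000 = true := by decide +kernel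

theorem cA_31_1_1 : goP 40 kA_31 5500000 [⟨408, 126, 0, 43⟩] [⟨260, 0, 148, 126⟩]
    681616000 = true := by decide +kernel

theorem cA_31_1_2 : goP 40 kA_31 5500000 [⟨408, 169, -26, 26⟩] [⟨260, 0, 148, 126⟩]
    681616000 = true := by decide +kernel

theorem cA_31_1_3 : goP 40 kA_31 5500000 [⟨382, 195, -24, 0⟩] [⟨260, 0, 148, 126⟩]
    42600992 = true := by decide +kernel

theorem cA_31_1_4 : goP 40 kA_31 5500000 [⟨358, 195, 0, -69⟩] [⟨260, 0, 148, 126⟩]
    180833527440 = true := by decide +kernel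

theorem cA_31_2_0 : goP 40 kA_31 5500000 [⟨358, 126, 50, 0⟩] [⟨408, 126, 0, 43⟩]
    2 = true := by decide +kernel

theorem cA_31_2_1 : goP 40 kA_31 5500000 [⟨408, 126, 0, 43⟩] [⟨408, 126, 0, 43⟩]
    2 = true := by decide +kernel

theorem cA_31_2_2 : goP 40 kA_31 5500000 [⟨408, 169, -26, 26⟩] [⟨408, 126, 0, 43⟩]
    41 = true := by decide +kernel

theorem cA_31_2_3 : goP 40 kA_31 5500000 [⟨382, 195, -24, 0⟩] [⟨408, 126, 0, 43⟩]
    2 = true := by decide +kernel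

theorem cA_31_2_4 : goP 40 kA_31 5500000 [⟨358, 195, 0, -69⟩] [⟨408, 126, 0, 43⟩]
    41 = true := by decide +kernel

theorem cA_31_3_0 : goP 40 kA_31 5500000 [⟨358, 126, 50, 0⟩] [⟨408, 169, -26, 26⟩]
    40 = true := by decide +kernel

theorem cA_31_3_1 : goP 40 kA_31 5500000 [⟨408, 126, 0, 43⟩] [⟨408, 169, -26, 26⟩]
    40 = true := by decide +kernel

theorem cA_31_3_2 : goP 40 kA_31 5500000 [⟨408, 169, -26, 26⟩] [⟨408, 169, -26, 26⟩]
    10660 = true := by decide +kernel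

theorem cA_31_3_3 : goP 40 kA_31 5500000 [⟨382, 195, -24, 0⟩] [⟨408, 169, -26, 26⟩]
    40 = true := by decide +kernel

theorem cA_31_3_4 : goP 40 kA_31 5500000 [⟨358, 195, 0, -69⟩] [⟨408, 169, -26, 26⟩]
    10401 = true := by decide +kernel

theorem cA_31_4_0 : goP 40 kA_31 5500000 [⟨358, 126, 50, 0⟩] [⟨382, 195, -98, 23⟩]
    698656400 = true := by decide +kernel

theorem cA_31_4_1 : goP 40 kA_31 5500000 [⟨408, 126, 0, 43⟩] [⟨382, 195, -98, 23⟩]
    43666016 = true := by decide +kernel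

theorem cA_31_4_2 : goP 40 kA_31 5500000 [⟨408, 169, -26, 26⟩] [⟨382, 195, -98, 23⟩]
    2792167351952 = true := by decide +kernel

end Pool.Agent.TR8.CI
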