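import Pool.Agent.Lib_helper56.TR8.XC.C00

/-!
# Tables of pairs of sides, 1
-/

set_option autoImplicit false
set_option maxRecDepth 100000

namespace Pool.Agent.TR8.CI

theorem c32_A_0_0 : goP 40 k32_A 5500000 [⟨0, 0, 260, 0⟩] [⟨244, 144, 76, 0⟩]
    681681541 = true := by decide +kernel

theorem c32_A_0_1 : goP 40 k32_A 5500000 [⟨260, 0, 148, 126⟩] [⟨244, 144, 76, 0⟩]
    681681541 = true := by decide +kernel

theorem c32_A_0_2 : goP 40 k32_A 5500000 [⟨408, 126, 0, 43⟩] [⟨244, 144, 76, 0⟩]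
    2 = true := by decide +kernel

theorem c32_A_0_3 : goP 40 k32_A 5500000 [⟨408, 169, -26, 26⟩] [⟨244, 144, 76, 0⟩]
    40 = true := by decide +kernel

theorem cA_31_4_3 : goP 40 kA_31 5500000 [⟨382, 195, -24, 0⟩] [⟨382, 195, -98, 23⟩]
    2662560 = true := by decide +kernel

theorem cA_31_4_4 : goP 40 kA_31 5500000 [⟨358, 195, 0, -69⟩] [⟨382, 195, -98, 23⟩]
    174593254020 = true := by decide +kernel

theorem cA_31_5_0 : goP 40 kA_31 5500000 [⟨358, 126, 50, 0⟩] [⟨284, 218, -164, 0⟩]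
    698656400 = true := by decide +kernel

theorem cA_31_5_1 : goP 40 kA_31 5500000 [⟨408, 126, 0, 43⟩] [⟨284, 218, -164, 0⟩]
    681616000 = true := by decide +kernel

theorem cA_31_5_2 : goP 40 kA_31 5500000 [⟨408, 169, -26, 26⟩] [⟨284, 218, -164, 0⟩]
    2927799923313642000 = true := by decide +kernel

theorem cA_31_5_3 : goP 40 kA_31 5500000 [⟨382, 195, -24, 0⟩] [⟨284, 218, -164, 0⟩]
    681616000 = true := by decide +kernel

theorem cA_31_5_4 : goP 40 kA_31 5500000 [⟨358, 195, 0, -69⟩] [⟨284, 218, -164, 0⟩]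
    2927799923313642000 = true := by decide +kernel

theorem cA_31_6_0 : goP 40 kA_31 5500000 [⟨358, 126, 50, 0⟩] [⟨120, 218, -120, -86⟩]
    698656400 = true := by decide +kernel

theorem cA_31_6_1 : goP 40 kA_31 5500000 [⟨408, 126, 0, 43⟩] [⟨120, 218, -120, -86⟩]
    44081792 = true := by decide +kernel

theorem cA_31_6_2 : goP 40 kA_31 5500000 [⟨408, 169, -26, 26⟩] [⟨120, 218, -120, -86⟩]
    2861692262976 = true := by decide +kernel

theorem cA_31_6_3 : goP 40 kA_31 5500000 [⟨382, 195, -24, 0⟩] [⟨120, 218, -120, -86⟩]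
    2663040 = true := by decide +kernel

theorem cA_31_6_4 : goP 40 kA_31 5500000 [⟨358, 195, 0, -69⟩] [⟨120, 218, -120, -86⟩]
    732844406508048 = true := by decide +kernel

theorem cA_31_7_0 : goP 40 kA_31 5500000 [⟨358, 126, 50, 0⟩] [⟨0, 132, 0, -132⟩]
    10660 = true := by decide +kernel

theorem cA_31_7_1 : goP 40 kA_31 5500000 [⟨408, 126, 0, 43⟩] [⟨0, 132, 0, -132⟩]
    40 = true := by decide +kernel

theorem cA_31_7_2 : goP 40 kA_31 5500000 [⟨408, 169, -26, 26⟩] [⟨0, 132, 0, -132⟩]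
    10660 = true := by decide +kernel

theorem cA_31_7_3 : goP 40 kA_31 5500000 [⟨382, 195, -24, 0⟩] [⟨0, 132, 0, -132⟩]
    40 = true := by decide +kernel

theorem cA_31_7_4 : goP 40 kA_31 5500000 [⟨358, 195, 0, -69⟩] [⟨0, 132, 0, -132⟩]
    10660 = true := by decide +kernel

end Pool.Agent.TR8.CI
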