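import Pool.Agent.Lib_helper56.TR8.XC.K

/-!
# Tables of pairs of sides, 2
-/

set_option autoImplicit false
set_option maxRecDepth 100000

namespace Pool.Agent.TR8.CI

theorem c32_A_0_4 : goP 40 k32_A 5500000 [⟨382, 195, -98, 23⟩] [⟨244, 144, 76, 0⟩]
    698656401 = true := by decide +kernel

theorem c32_A_0_5 : goP 40 k32_A 5500000 [⟨284, 218, -164, 0⟩] [⟨244, 144, 76, 0⟩]
    44674716936325 = true := by decide +kernel

theorem c32_A_0_6 : goP 40 k32_A 5500000 [⟨120, 218, -120, -86⟩] [⟨244, 144, 76, 0⟩]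
    740678420797957 = true := by decide +kernel

theorem c32_A_0_7 : goP 40 k32_A 5500000 [⟨0, 132, 0, -132⟩] [⟨244, 144, 76, 0⟩]
    664 = true := by decide +kernel

theorem c32_A_1_0 : goP 40 k32_A 5500000 [⟨0, 0, 260, 0⟩] [⟨320, 144, 0, 38⟩]
    10661 = true := by decide +kernel

theorem c32_A_1_1 : goP 40 k32_A 5500000 [⟨260, 0, 148, 126⟩] [⟨320, 144, 0, 38⟩]
    10661 = true := by decide +kernel

theorem c32_A_1_2 : goP 40 k32_A 5500000 [⟨408, 126, 0, 43⟩] [⟨320, 144, 0, 38⟩]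
    2 = true := by decide +kernel

theorem c32_A_1_3 : goP 40 k32_A 5500000 [⟨408, 169, -26, 26⟩] [⟨320, 144, 0, 38⟩]
    2 = true := by decide +kernel

theorem c32_A_1_4 : goP 40 k32_A 5500000 [⟨382, 195, -98, 23⟩] [⟨320, 144, 0, 38⟩]
    10661 = true := by decide +kernel

theorem c32_A_1_5 : goP 40 k32_A 5500000 [⟨284, 218, -164, 0⟩] [⟨320, 144, 0, 38⟩]
    698721941 = true := by decide +kernel

theorem c32_A_1_6 : goP 40 k32_A 5500000 [⟨120, 218, -120, -86⟩] [⟨320, 144, 0, 38⟩]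
    2729621 = true := by decide +kernel

theorem c32_A_1_7 : goP 40 k32_A 5500000 [⟨0, 132, 0, -132⟩] [⟨320, 144, 0, 38⟩]
    41 = true := by decide +kernel

theorem c32_A_2_0 : goP 40 k32_A 5500000 [⟨0, 0, 260, 0⟩] [⟨320, 182, -36, 36⟩]
    681681541 = true := by decide +kernel

theorem c32_A_2_1 : goP 40 k32_A 5500000 [⟨260, 0, 148, 126⟩] [⟨320, 182, -36, 36⟩]
    681681541 = true := by decide +kernel

theorem c32_A_2_2 : goP 40 k32_A 5500000 [⟨408, 126, 0, 43⟩] [⟨320, 182, -36, 36⟩]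
    2 = true := by decide +kernel

theorem c32_A_2_3 : goP 40 k32_A 5500000 [⟨408, 169, -26, 26⟩] [⟨320, 182, -36, 36⟩]
    40 = true := by decide +kernel

theorem c32_A_2_4 : goP 40 k32_A 5500000 [⟨382, 195, -98, 23⟩] [⟨320, 182, -36, 36⟩]
    698656401 = true := by decide +kernel

theorem c32_A_2_5 : goP 40 k32_A 5500000 [⟨284, 218, -164, 0⟩] [⟨320, 182, -36, 36⟩]
    12288434800975129254469 = true := by decide +kernel

theorem c32_A_2_6 : goP 40 k32_A 5500000 [⟨120, 218, -120, -86⟩] [⟨320, 182, -36, 36⟩]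
    11444929967007813 = true := by decide +kernel

theorem c32_A_2_7 : goP 40 k32_A 5500000 [⟨0, 132, 0, -132⟩] [⟨320, 182, -36, 36⟩]
    10401 = true := by decide +kernel

theorem c32_A_3_0 : goP 40 k32_A 5500000 [⟨0, 0, 260, 0⟩] [⟨284, 218, -40, 0⟩]
    10661 = true := by decide +kernel

theorem c32_A_3_1 : goP 40 k32_A 5500000 [⟨260, 0, 148, 126⟩] [⟨284, 218, -40, 0⟩]
    10661 = true := by decide +kernel

theorem c32_A_3_2 : goP 40 k32_A 5500000 [⟨408, 126, 0, 43⟩] [⟨284, 218, -40, 0⟩]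
    2 = true := by decide +kernel

theorem c32_A_3_3 : goP 40 k32_A 5500000 [⟨408, 169, -26, 26⟩] [⟨284, 218, -40, 0⟩]
    2 = true := by decide +kernel

end Pool.Agent.TR8.CI
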