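import Pool.Agent.Lib_helper56.TR8.XC.K

/-!
# Tables of pairs of sides, 3
-/

set_option autoImplicit false
set_option maxRecDepth 100000

namespace Pool.Agent.TR8.CI

theorem c32_A_3_4 : goP 40 k32_A 5500000 [⟨382, 195, -98, 23⟩] [⟨284, 218, -40, 0⟩]
    10661 = true := by decide +kernel

theorem c32_A_3_5 : goP 40 k32_A 5500000 [⟨284, 218, -164, 0⟩] [⟨284, 218, -40, 0⟩]
    681681541 = true := by decide +kernel

theorem c32_A_3_6 : goP 40 k32_A 5500000 [⟨120, 218, -120, -86⟩] [⟨284, 218, -40, 0⟩]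
    706357781 = true := by decide +kernel

theorem c32_A_3_7 : goP 40 k32_A 5500000 [⟨0, 132, 0, -132⟩] [⟨284, 218, -40, 0⟩]
    41 = true := by decide +kernel

theorem c32_A_4_0 : goP 40 k32_A 5500000 [⟨0, 0, 260, 0⟩] [⟨244, 218, 0, -74⟩]
    10661 = true := by decide +kernel

theorem c32_A_4_1 : goP 40 k32_A 5500000 [⟨260, 0, 148, 126⟩] [⟨244, 218, 0, -74⟩]
    10661 = true := by decide +kernel

theorem c32_A_4_2 : goP 40 k32_A 5500000 [⟨408, 126, 0, 43⟩] [⟨244, 218, 0, -74⟩]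
    2 = true := by decide +kernel

theorem c32_A_4_3 : goP 40 k32_A 5500000 [⟨408, 169, -26, 26⟩] [⟨244, 218, 0, -74⟩]
    2 = true := by decide +kernel

theorem c32_A_4_4 : goP 40 k32_A 5500000 [⟨382, 195, -98, 23⟩] [⟨244, 218, 0, -74⟩]
    10661 = true := by decide +kernel

theorem c32_A_4_5 : goP 40 k32_A 5500000 [⟨284, 218, -164, 0⟩] [⟨244, 218, 0, -74⟩]
    681681541 = true := by decide +kernel

theorem c32_A_4_6 : goP 40 k32_A 5500000 [⟨120, 218, -120, -86⟩] [⟨244, 218, 0, -74⟩]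
    44147333 = true := by decide +kernel

theorem c32_A_4_7 : goP 40 k32_A 5500000 [⟨0, 132, 0, -132⟩] [⟨244, 218, 0, -74⟩]
    41 = true := by decide +kernel

theorem c33_A_0_0 : goP 40 k33_A 5500000 [⟨0, 0, 260, 0⟩] [⟨174, 146, 88, 0⟩]
    681682577 = true := by decide +kernel

theorem c33_A_0_1 : goP 40 k33_A 5500000 [⟨260, 0, 148, 126⟩] [⟨174, 146, 88, 0⟩]
    681681541 = true := by decide +kernel

theorem c33_A_0_2 : goP 40 k33_A 5500000 [⟨408, 126, 0, 43⟩] [⟨174, 146, 88, 0⟩]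
    2 = true := by decide +kernel

theorem c33_A_0_3 : goP 40 k33_A 5500000 [⟨408, 169, -26, 26⟩] [⟨174, 146, 88, 0⟩]
    40 = true := by decide +kernel

theorem c33_A_0_4 : goP 40 k33_A 5500000 [⟨382, 195, -98, 23⟩] [⟨174, 146, 88, 0⟩]
    698656401 = true := by decide +kernel

theorem c33_A_0_5 : goP 40 k33_A 5500000 [⟨284, 218, -164, 0⟩] [⟨174, 146, 88, 0⟩]
    44674716960401 = true := by decide +kernel

theorem c33_A_0_6 : goP 40 k33_A 5500000 [⟨120, 218, -120, -86⟩] [⟨174, 146, 88, 0⟩]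
    178855749765 = true := by decide +kernel

theorem c33_A_0_7 : goP 40 k33_A 5500000 [⟨0, 132, 0, -132⟩] [⟨174, 146, 88, 0⟩]
    664 = true := by decide +kernel

theorem c33_A_1_0 : goP 40 k33_A 5500000 [⟨0, 0, 260, 0⟩] [⟨262, 146, 0, 30⟩]
    10661 = true := by decide +kernel

theorem c33_A_1_1 : goP 40 k33_A 5500000 [⟨260, 0, 148, 126⟩] [⟨262, 146, 0, 30⟩]
    10661 = true := by decide +kernel

theorem c33_A_1_2 : goP 40 k33_A 5500000 [⟨408, 126, 0, 43⟩] [⟨262, 146, 0, 30⟩]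
    2 = true := by decide +kernel

theorem c33_A_1_3 : goP 40 k33_A 5500000 [⟨408, 169, -26, 26⟩] [⟨262, 146, 0, 30⟩]
    2 = true := by decide +kernel

theorem c33_A_1_4 : goP 40 k33_A 5500000 [⟨382, 195, -98, 23⟩] [⟨262, 146, 0, 30⟩]
    665 = true := by decide +kernel

theorem c33_A_1_5 : goP 40 k33_A 5500000 [⟨284, 218, -164, 0⟩] [⟨262, 146, 0, 30⟩]
    10661 = true := by decide +kernel

theorem c33_A_1_6 : goP 40 k33_A 5500000 [⟨120, 218, -120, -86⟩] [⟨262, 146, 0, 30⟩]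
    10661 = true := by decide +kernel

theorem c33_A_1_7 : goP 40 k33_A 5500000 [⟨0, 132, 0, -132⟩] [⟨262, 146, 0, 30⟩]
    2 = true := by decide +kernel

theorem c33_A_2_0 : goP 40 k33_A 5500000 [⟨0, 0, 260, 0⟩] [⟨262, 176, -36, 36⟩]
    681681541 = true := by decide +kernel

end Pool.Agent.TR8.CI
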