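import Pool.Agent.Lib_helper56.TR8.XC.K

/-!
# Tables of pairs of sides, 4
-/

set_option autoImplicit false
set_option maxRecDepth 100000

namespace Pool.Agent.TR8.CI

theorem c33_A_2_1 : goP 40 k33_A 5500000 [⟨260, 0, 148, 126⟩] [⟨262, 176, -36, 36⟩]
    166309 = true := by decide +kernel

theorem c33_A_2_2 : goP 40 k33_A 5500000 [⟨408, 126, 0, 43⟩] [⟨262, 176, -36, 36⟩]
    2 = true := by decide +kernel

theorem c33_A_2_3 : goP 40 k33_A 5500000 [⟨408, 169, -26, 26⟩] [⟨262, 176, -36, 36⟩]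
    40 = true := by decide +kernel

theorem c33_A_2_4 : goP 40 k33_A 5500000 [⟨382, 195, -98, 23⟩] [⟨262, 176, -36, 36⟩]
    698656401 = true := by decide +kernel

theorem c33_A_2_5 : goP 40 k33_A 5500000 [⟨284, 218, -164, 0⟩] [⟨262, 176, -36, 36⟩]
    3000706396230687301 = true := by decide +kernel

theorem c33_A_2_6 : goP 40 k33_A 5500000 [⟨120, 218, -120, -86⟩] [⟨262, 176, -36, 36⟩]
    2792174557765 = true := by decide +kernel

theorem c33_A_2_7 : goP 40 k33_A 5500000 [⟨0, 132, 0, -132⟩] [⟨262, 176, -36, 36⟩]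
    10401 = true := by decide +kernel

theorem c33_A_3_0 : goP 40 k33_A 5500000 [⟨0, 0, 260, 0⟩] [⟨226, 212, -52, 0⟩]
    10661 = true := by decide +kernel

theorem c33_A_3_1 : goP 40 k33_A 5500000 [⟨260, 0, 148, 126⟩] [⟨226, 212, -52, 0⟩]
    10661 = true := by decide +kernel

theorem c33_A_3_2 : goP 40 k33_A 5500000 [⟨408, 126, 0, 43⟩] [⟨226, 212, -52, 0⟩]
    2 = true := by decide +kernel

theorem c33_A_3_3 : goP 40 k33_A 5500000 [⟨408, 169, -26, 26⟩] [⟨226, 212, -52, 0⟩]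
    2 = true := by decide +kernel

theorem c33_A_3_4 : goP 40 k33_A 5500000 [⟨382, 195, -98, 23⟩] [⟨226, 212, -52, 0⟩]
    10661 = true := by decide +kernel

theorem c33_A_3_5 : goP 40 k33_A 5500000 [⟨284, 218, -164, 0⟩] [⟨226, 212, -52, 0⟩]
    681681541 = true := by decide +kernel

theorem c33_A_3_6 : goP 40 k33_A 5500000 [⟨120, 218, -120, -86⟩] [⟨226, 212, -52, 0⟩]
    44147333 = true := by decide +kernel

theorem c33_A_3_7 : goP 40 k33_A 5500000 [⟨0, 132, 0, -132⟩] [⟨226, 212, -52, 0⟩]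
    41 = true := by decide +kernel

theorem c33_A_4_0 : goP 40 k33_A 5500000 [⟨0, 0, 260, 0⟩] [⟨174, 212, 0, -66⟩]
    10661 = true := by decide +kernel

theorem c33_A_4_1 : goP 40 k33_A 5500000 [⟨260, 0, 148, 126⟩] [⟨174, 212, 0, -66⟩]
    10661 = true := by decide +kernel

theorem c33_A_4_2 : goP 40 k33_A 5500000 [⟨408, 126, 0, 43⟩] [⟨174, 212, 0, -66⟩]
    2 = true := by decide +kernel

theorem c33_A_4_3 : goP 40 k33_A 5500000 [⟨408, 169, -26, 26⟩] [⟨174, 212, 0, -66⟩]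
    2 = true := by decide +kernel

theorem c33_A_4_4 : goP 40 k33_A 5500000 [⟨382, 195, -98, 23⟩] [⟨174, 212, 0, -66⟩]
    10661 = true := by decide +kernel

theorem c33_A_4_5 : goP 40 k33_A 5500000 [⟨284, 218, -164, 0⟩] [⟨174, 212, 0, -66⟩]
    10661 = true := by decide +kernel

theorem c33_A_4_6 : goP 40 k33_A 5500000 [⟨120, 218, -120, -86⟩] [⟨174, 212, 0, -66⟩]
    170629 = true := by decide +kernel

theorem c33_A_4_7 : goP 40 k33_A 5500000 [⟨0, 132, 0, -132⟩] [⟨174, 212, 0, -66⟩]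
    2 = true := by decide +kernel

theorem c34_A_0_0 : goP 40 k34_A 5500000 [⟨0, 0, 260, 0⟩] [⟨130, 142, 90, 0⟩]
    681681541 = true := by decide +kernel

theorem c34_A_0_1 : goP 40 k34_A 5500000 [⟨260, 0, 148, 126⟩] [⟨130, 142, 90, 0⟩]
    2662821 = true := by decide +kernel

theorem c34_A_0_2 : goP 40 k34_A 5500000 [⟨408, 126, 0, 43⟩] [⟨130, 142, 90, 0⟩]
    2 = true := by decide +kernel

theorem c34_A_0_3 : goP 40 k34_A 5500000 [⟨408, 169, -26, 26⟩] [⟨130, 142, 90, 0⟩]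
    40 = true := by decide +kernel

theorem c34_A_0_4 : goP 40 k34_A 5500000 [⟨382, 195, -98, 23⟩] [⟨130, 142, 90, 0⟩]
    698656401 = true := by decide +kernel

end Pool.Agent.TR8.CI
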