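import Pool.Agent.Lib_helper56.TR8.XC.K

/-!
# Tables of pairs of sides, 7
-/

set_option autoImplicit false
set_option maxRecDepth 100000

namespace Pool.Agent.TR8.CI

theorem c41_A_4_5 : goP 40 k41_A 5500000 [⟨284, 218, -164, 0⟩] [⟨292, 108, 0, -46⟩]
    10661 = true := by decide +kernel

theorem c41_A_4_6 : goP 40 k41_A 5500000 [⟨120, 218, -120, -86⟩] [⟨292, 108, 0, -46⟩]
    10661 = true := by decide +kernel

theorem c41_A_4_7 : goP 40 k41_A 5500000 [⟨0, 132, 0, -132⟩] [⟨292, 108, 0, -46⟩]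
    41 = true := by decide +kernel

theorem c42_A_0_0 : goP 40 k42_A 5500000 [⟨0, 0, 260, 0⟩] [⟨224, 90, 48, 0⟩]
    10661 = true := by decide +kernel

theorem c42_A_0_1 : goP 40 k42_A 5500000 [⟨260, 0, 148, 126⟩] [⟨224, 90, 48, 0⟩]
    10661 = true := by decide +kernel

theorem c42_A_0_2 : goP 40 k42_A 5500000 [⟨408, 126, 0, 43⟩] [⟨224, 90, 48, 0⟩]
    2 = true := by decide +kernel

theorem c42_A_0_3 : goP 40 k42_A 5500000 [⟨408, 169, -26, 26⟩] [⟨224, 90, 48, 0⟩]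
    2 = true := by decide +kernel

theorem c42_A_0_4 : goP 40 k42_A 5500000 [⟨382, 195, -98, 23⟩] [⟨224, 90, 48, 0⟩]
    10661 = true := by decide +kernel

theorem c42_A_0_5 : goP 40 k42_A 5500000 [⟨284, 218, -164, 0⟩] [⟨224, 90, 48, 0⟩]
    681681541 = true := by decide +kernel

theorem c42_A_0_6 : goP 40 k42_A 5500000 [⟨120, 218, -120, -86⟩] [⟨224, 90, 48, 0⟩]
    170645 = true := by decide +kernel

theorem c42_A_0_7 : goP 40 k42_A 5500000 [⟨0, 132, 0, -132⟩] [⟨224, 90, 48, 0⟩]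
    41 = true := by decide +kernel

theorem c42_A_1_0 : goP 40 k42_A 5500000 [⟨0, 0, 260, 0⟩] [⟨272, 90, 0, 36⟩]
    10661 = true := by decide +kernel

theorem c42_A_1_1 : goP 40 k42_A 5500000 [⟨260, 0, 148, 126⟩] [⟨272, 90, 0, 36⟩]
    10661 = true := by decide +kernel

theorem c42_A_1_2 : goP 40 k42_A 5500000 [⟨408, 126, 0, 43⟩] [⟨272, 90, 0, 36⟩]
    2 = true := by decide +kernel

theorem c42_A_1_3 : goP 40 k42_A 5500000 [⟨408, 169, -26, 26⟩] [⟨272, 90, 0, 36⟩]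
    2 = true := by decide +kernel

theorem c42_A_1_4 : goP 40 k42_A 5500000 [⟨382, 195, -98, 23⟩] [⟨272, 90, 0, 36⟩]
    665 = true := by decide +kernel

theorem c42_A_1_5 : goP 40 k42_A 5500000 [⟨284, 218, -164, 0⟩] [⟨272, 90, 0, 36⟩]
    10661 = true := by decide +kernel

theorem c42_A_1_6 : goP 40 k42_A 5500000 [⟨120, 218, -120, -86⟩] [⟨272, 90, 0, 36⟩]
    10661 = true := by decide +kernel

theorem c42_A_1_7 : goP 40 k42_A 5500000 [⟨0, 132, 0, -132⟩] [⟨272, 90, 0, 36⟩]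
    2 = true := by decide +kernel

theorem c42_A_2_0 : goP 40 k42_A 5500000 [⟨0, 0, 260, 0⟩] [⟨272, 126, -24, 24⟩]
    10661 = true := by decide +kernel

theorem c42_A_2_1 : goP 40 k42_A 5500000 [⟨260, 0, 148, 126⟩] [⟨272, 126, -24, 24⟩]
    10661 = true := by decide +kernel

theorem c42_A_2_2 : goP 40 k42_A 5500000 [⟨408, 126, 0, 43⟩] [⟨272, 126, -24, 24⟩]
    2 = true := by decide +kernel

theorem c42_A_2_3 : goP 40 k42_A 5500000 [⟨408, 169, -26, 26⟩] [⟨272, 126, -24, 24⟩]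
    2 = true := by decide +kernel

theorem c42_A_2_4 : goP 40 k42_A 5500000 [⟨382, 195, -98, 23⟩] [⟨272, 126, -24, 24⟩]
    10661 = true := by decide +kernel

theorem c42_A_2_5 : goP 40 k42_A 5500000 [⟨284, 218, -164, 0⟩] [⟨272, 126, -24, 24⟩]
    681682581 = true := by decide +kernel

theorem c42_A_2_6 : goP 40 k42_A 5500000 [⟨120, 218, -120, -86⟩] [⟨272, 126, -24, 24⟩]
    2729621 = true := by decide +kernel

theorem c42_A_2_7 : goP 40 k42_A 5500000 [⟨0, 132, 0, -132⟩] [⟨272, 126, -24, 24⟩]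
    41 = true := by decide +kernel

theorem c42_A_3_0 : goP 40 k42_A 5500000 [⟨0, 0, 260, 0⟩] [⟨248, 150, -24, 0⟩]
    10661 = true := by decide +kernel

theorem c42_A_3_1 : goP 40 k42_A 5500000 [⟨260, 0, 148, 126⟩] [⟨248, 150, -24, 0⟩]
    10661 = true := by decide +kernel

theorem c42_A_3_2 : goP 40 k42_A 5500000 [⟨408, 126, 0, 43⟩] [⟨248, 150, -24, 0⟩]
    2 = true := by decide +kernel

theorem c42_A_3_3 : goP 40 k42_A 5500000 [⟨408, 169, -26, 26⟩] [⟨248, 150, -24, 0⟩]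
    2 = true := by decide +kernel

theorem c42_A_3_4 : goP 40 k42_A 5500000 [⟨382, 195, -98, 23⟩] [⟨248, 150, -24, 0⟩]
    665 = true := by decide +kernel

theorem c42_A_3_5 : goP 40 k42_A 5500000 [⟨284, 218, -164, 0⟩] [⟨248, 150, -24, 0⟩]
    10661 = true := by decide +kernel

theorem c42_A_3_6 : goP 40 k42_A 5500000 [⟨120, 218, -120, -86⟩] [⟨248, 150, -24, 0⟩]
    10661 = true := by decide +kernel

theorem c42_A_3_7 : goP 40 k42_A 5500000 [⟨0, 132, 0, -132⟩] [⟨248, 150, -24, 0⟩]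
    2 = true := by decide +kernel

theorem c42_A_4_0 : goP 40 k42_A 5500000 [⟨0, 0, 260, 0⟩] [⟨224, 150, 0, -60⟩]
    10661 = true := by decide +kernel

theorem c42_A_4_1 : goP 40 k42_A 5500000 [⟨260, 0, 148, 126⟩] [⟨224, 150, 0, -60⟩]
    10661 = true := by decide +kernel

theorem c42_A_4_2 : goP 40 k42_A 5500000 [⟨408, 126, 0, 43⟩] [⟨224, 150, 0, -60⟩]
    2 = true := by decide +kernel

theorem c42_A_4_3 : goP 40 k42_A 5500000 [⟨408, 169, -26, 26⟩] [⟨224, 150, 0, -60⟩]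
    2 = true := by decide +kernel

end Pool.Agent.TR8.CI
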