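import Pool.Agent.Lib_helper56.TR8.XC.K

/-!
# Tables of pairs of sides, 8
-/

set_option autoImplicit false
set_option maxRecDepth 100000

namespace Pool.Agent.TR8.CI

theorem c42_A_4_4 : goP 40 k42_A 5500000 [⟨382, 195, -98, 23⟩] [⟨224, 150, 0, -60⟩]
    10661 = true := by decide +kernel

theorem c42_A_4_5 : goP 40 k42_A 5500000 [⟨284, 218, -164, 0⟩] [⟨224, 150, 0, -60⟩]
    681681541 = true := by decide +kernel

theorem c42_A_4_6 : goP 40 k42_A 5500000 [⟨120, 218, -120, -86⟩] [⟨224, 150, 0, -60⟩]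
    2728581 = true := by decide +kernel

theorem c42_A_4_7 : goP 40 k42_A 5500000 [⟨0, 132, 0, -132⟩] [⟨224, 150, 0, -60⟩]
    41 = true := by decide +kernel

theorem c5_A_0_0 : goP 40 k5_A 5500000 [⟨0, 0, 260, 0⟩] [⟨0, 0, 260, 0⟩]
    13513979898424216972932226143001153 = true := by decide +kernel

theorem c5_A_0_1 : goP 40 k5_A 5500000 [⟨260, 0, 148, 126⟩] [⟨0, 0, 260, 0⟩]
    749518369584038713921 = true := by decide +kernel

theorem c5_A_0_2 : goP 40 k5_A 5500000 [⟨408, 126, 0, 43⟩] [⟨0, 0, 260, 0⟩]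
    10400 = true := by decide +kernel

theorem c5_A_0_3 : goP 40 k5_A 5500000 [⟨408, 169, -26, 26⟩] [⟨0, 0, 260, 0⟩]
    2665024 = true := by decide +kernel

theorem c5_A_0_4 : goP 40 k5_A 5500000 [⟨382, 195, -98, 23⟩] [⟨0, 0, 260, 0⟩]
    785359252932588769252091972 = true := by decide +kernel

end Pool.Agent.TR8.CI
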