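import Pool.Agent.Lib_helper56.TR8.XC.K

/-!
# Tables of pairs of sides, 9
-/

set_option autoImplicit false
set_option maxRecDepth 100000

namespace Pool.Agent.TR8.CI

theorem c5_A_0_5 : goP 40 k5_A 5500000 [⟨284, 218, -164, 0⟩] [⟨0, 0, 260, 0⟩]
    308333319470982462931200691488540495746922228253427511099518396341310352837118108740 = true := by decide +kernel

theorem c5_A_0_6 : goP 40 k5_A 5500000 [⟨120, 218, -120, -86⟩] [⟨0, 0, 260, 0⟩]
    17535033886968468827865306434979714453865120451833930500502792947537988 = true := by decide +kernel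

theorem c5_A_0_7 : goP 40 k5_A 5500000 [⟨0, 132, 0, -132⟩] [⟨0, 0, 260, 0⟩]
    44674778302096 = true := by decide +kernel

theorem c5_A_1_0 : goP 40 k5_A 5500000 [⟨0, 0, 260, 0⟩] [⟨260, 0, 0, 108⟩]
    681681541 = true := by decide +kernel

theorem c5_A_1_1 : goP 40 k5_A 5500000 [⟨260, 0, 148, 126⟩] [⟨260, 0, 0, 108⟩]
    10661 = true := by decide +kernel

theorem c5_A_1_2 : goP 40 k5_A 5500000 [⟨408, 126, 0, 43⟩] [⟨260, 0, 0, 108⟩]
    2 = true := by decide +kernel

theorem c5_A_1_3 : goP 40 k5_A 5500000 [⟨408, 169, -26, 26⟩] [⟨260, 0, 0, 108⟩]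
    40 = true := by decide +kernel

end Pool.Agent.TR8.CI
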