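import Pool.Agent.Lib_helper56.TR8.XC.K

/-!
# Tables of pairs of sides, 10
-/

set_option autoImplicit false
set_option maxRecDepth 100000

namespace Pool.Agent.TR8.CI

theorem c5_A_1_4 : goP 40 k5_A 5500000 [⟨382, 195, -98, 23⟩] [⟨260, 0, 0, 108⟩]
    698656401 = true := by decide +kernel

theorem c5_A_1_5 : goP 40 k5_A 5500000 [⟨284, 218, -164, 0⟩] [⟨260, 0, 0, 108⟩]
    205693451048382723232005003845 = true := by decide +kernel

theorem c5_A_1_6 : goP 40 k5_A 5500000 [⟨120, 218, -120, -86⟩] [⟨260, 0, 0, 108⟩]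
    13191893425736695003626952168450117 = true := by decide +kernel

theorem c5_A_1_7 : goP 40 k5_A 5500000 [⟨0, 132, 0, -132⟩] [⟨260, 0, 0, 108⟩]
    166497 = true := by decide +kernel

theorem c5_A_2_0 : goP 40 k5_A 5500000 [⟨0, 0, 260, 0⟩] [⟨260, 108, -86, 86⟩]
    191958703669281177373201 = true := by decide +kernel

theorem c5_A_2_1 : goP 40 k5_A 5500000 [⟨260, 0, 148, 126⟩] [⟨260, 108, -86, 86⟩]
    714795471366673 = true := by decide +kernel

theorem c5_A_2_2 : goP 40 k5_A 5500000 [⟨408, 126, 0, 43⟩] [⟨260, 108, -86, 86⟩]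
    40 = true := by decide +kernel

theorem c5_A_2_3 : goP 40 k5_A 5500000 [⟨408, 169, -26, 26⟩] [⟨260, 108, -86, 86⟩]
    10400 = true := by decide +kernel

theorem c5_A_2_4 : goP 40 k5_A 5500000 [⟨382, 195, -98, 23⟩] [⟨260, 108, -86, 86⟩]
    3000706396230687300 = true := by decide +kernel

end Pool.Agent.TR8.CI
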