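import Pool.Agent.Lib_helper56.TR8.XC.K

/-!
# Tables of pairs of sides, 11
-/

set_option autoImplicit false
set_option maxRecDepth 100000

namespace Pool.Agent.TR8.CI

theorem c5_A_2_5 : goP 40 k5_A 5500000 [⟨284, 218, -164, 0⟩] [⟨260, 108, -86, 86⟩]
    4385529407877641353666579019448292861452974734014774209815694174481 = true := by decide +kernel

theorem c5_A_2_6 : goP 40 k5_A 5500000 [⟨120, 218, -120, -86⟩] [⟨260, 108, -86, 86⟩]
    1640824321733379374760000542453782134521736771873069352743532166919531707218058756900586261946420214693773997955780881 = true := by decide +kernel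

end Pool.Agent.TR8.CI
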