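import Pool.Agent.Lib_helper56.TR8.XC.K

/-!
# Tables of pairs of sides, 12
-/

set_option autoImplicit false
set_option maxRecDepth 100000

namespace Pool.Agent.TR8.CI

theorem c5_A_2_7 : goP 40 k5_A 5500000 [⟨0, 132, 0, -132⟩] [⟨260, 108, -86, 86⟩]
    2921295334790011460 = true := by decide +kernel

theorem c5_A_3_0 : goP 40 k5_A 5500000 [⟨0, 0, 260, 0⟩] [⟨174, 194, -88, 0⟩]
    715133972720133 = true := by decide +kernel

theorem c5_A_3_1 : goP 40 k5_A 5500000 [⟨260, 0, 148, 126⟩] [⟨174, 194, -88, 0⟩]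
    681681541 = true := by decide +kernel

theorem c5_A_3_2 : goP 40 k5_A 5500000 [⟨408, 126, 0, 43⟩] [⟨174, 194, -88, 0⟩]
    2 = true := by decide +kernel

theorem c5_A_3_3 : goP 40 k5_A 5500000 [⟨408, 169, -26, 26⟩] [⟨174, 194, -88, 0⟩]
    40 = true := by decide +kernel

theorem c5_A_3_4 : goP 40 k5_A 5500000 [⟨382, 195, -98, 23⟩] [⟨174, 194, -88, 0⟩]
    43666065 = true := by decide +kernel

theorem c5_A_3_5 : goP 40 k5_A 5500000 [⟨284, 218, -164, 0⟩] [⟨174, 194, -88, 0⟩]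
    50343498741657571517016645 = true := by decide +kernel

theorem c5_A_3_6 : goP 40 k5_A 5500000 [⟨120, 218, -120, -86⟩] [⟨174, 194, -88, 0⟩]
    60861556228648286143714620383226555160744962859281 = true := by decide +kernel

theorem c5_A_3_7 : goP 40 k5_A 5500000 [⟨0, 132, 0, -132⟩] [⟨174, 194, -88, 0⟩]
    180565215761 = true := by decide +kernel

theorem c5_A_4_0 : goP 40 k5_A 5500000 [⟨0, 0, 260, 0⟩] [⟨86, 194, -86, -62⟩]
    2927799923313642001 = true := by decide +kernel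

theorem c5_A_4_1 : goP 40 k5_A 5500000 [⟨260, 0, 148, 126⟩] [⟨86, 194, -86, -62⟩]
    10906928785 = true := by decide +kernel

theorem c5_A_4_2 : goP 40 k5_A 5500000 [⟨408, 126, 0, 43⟩] [⟨86, 194, -86, -62⟩]
    40 = true := by decide +kernel

theorem c5_A_4_3 : goP 40 k5_A 5500000 [⟨408, 169, -26, 26⟩] [⟨86, 194, -86, -62⟩]
    40 = true := by decide +kernel

end Pool.Agent.TR8.CI
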