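import Pool.Agent.Lib_helper56.TR8.XC.K

/-!
# Tables of pairs of sides, 13
-/

set_option autoImplicit false
set_option maxRecDepth 100000

namespace Pool.Agent.TR8.CI

theorem c5_A_4_4 : goP 40 k5_A 5500000 [⟨382, 195, -98, 23⟩] [⟨86, 194, -86, -62⟩]
    681878145 = true := by decide +kernel

theorem c5_A_4_5 : goP 40 k5_A 5500000 [⟨284, 218, -164, 0⟩] [⟨86, 194, -86, -62⟩]
    2927807223275358737 = true := by decide +kernel

theorem c5_A_4_6 : goP 40 k5_A 5500000 [⟨120, 218, -120, -86⟩] [⟨86, 194, -86, -62⟩]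
    785927268618886815184218385 = true := by decide +kernel

theorem c5_A_4_7 : goP 40 k5_A 5500000 [⟨0, 132, 0, -132⟩] [⟨86, 194, -86, -62⟩]
    706357828 = true := by decide +kernel

theorem c5_A_5_0 : goP 40 k5_A 5500000 [⟨0, 0, 260, 0⟩] [⟨0, 132, 0, -132⟩]
    681681541 = true := by decide +kernel

theorem c5_A_5_1 : goP 40 k5_A 5500000 [⟨260, 0, 148, 126⟩] [⟨0, 132, 0, -132⟩]
    10882228869 = true := by decide +kernel

theorem c5_A_5_2 : goP 40 k5_A 5500000 [⟨408, 126, 0, 43⟩] [⟨0, 132, 0, -132⟩]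
    40 = true := by decide +kernel

theorem c5_A_5_3 : goP 40 k5_A 5500000 [⟨408, 169, -26, 26⟩] [⟨0, 132, 0, -132⟩]
    648 = true := by decide +kernel

theorem c5_A_5_4 : goP 40 k5_A 5500000 [⟨382, 195, -98, 23⟩] [⟨0, 132, 0, -132⟩]
    732594193207937 = true := by decide +kernel

theorem c5_A_5_5 : goP 40 k5_A 5500000 [⟨284, 218, -164, 0⟩] [⟨0, 132, 0, -132⟩]
    182987640671734289 = true := by decide +kernel

theorem c5_A_5_6 : goP 40 k5_A 5500000 [⟨120, 218, -120, -86⟩] [⟨0, 132, 0, -132⟩]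
    178856159761 = true := by decide +kernel

theorem c5_A_5_7 : goP 40 k5_A 5500000 [⟨0, 132, 0, -132⟩] [⟨0, 132, 0, -132⟩]
    10660 = true := by decide +kernel

theorem c31_31_0_0 : goP 40 k31_31 5500000 [⟨358, 126, 50, 0⟩] [⟨358, 126, 50, 0⟩]
    2 = true := by decide +kernel

theorem c31_31_0_1 : goP 40 k31_31 5500000 [⟨408, 126, 0, 43⟩] [⟨358, 126, 50, 0⟩]
    2 = true := by decide +kernel

theorem c31_31_0_2 : goP 40 k31_31 5500000 [⟨408, 169, -26, 26⟩] [⟨358, 126, 50, 0⟩]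
    2 = true := by decide +kernel

theorem c31_31_0_3 : goP 40 k31_31 5500000 [⟨382, 195, -24, 0⟩] [⟨358, 126, 50, 0⟩]
    2 = true := by decide +kernel

theorem c31_31_0_4 : goP 40 k31_31 5500000 [⟨358, 195, 0, -69⟩] [⟨358, 126, 50, 0⟩]
    2 = true := by decide +kernel

theorem c31_31_1_0 : goP 40 k31_31 5500000 [⟨358, 126, 50, 0⟩] [⟨408, 126, 0, 43⟩]
    2 = true := by decide +kernel

theorem c31_31_1_1 : goP 40 k31_31 5500000 [⟨408, 126, 0, 43⟩] [⟨408, 126, 0, 43⟩]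
    2 = true := by decide +kernel

theorem c31_31_1_2 : goP 40 k31_31 5500000 [⟨408, 169, -26, 26⟩] [⟨408, 126, 0, 43⟩]
    2 = true := by decide +kernel

theorem c31_31_1_3 : goP 40 k31_31 5500000 [⟨382, 195, -24, 0⟩] [⟨408, 126, 0, 43⟩]
    2 = true := by decide +kernel

theorem c31_31_1_4 : goP 40 k31_31 5500000 [⟨358, 195, 0, -69⟩] [⟨408, 126, 0, 43⟩]
    2 = true := by decide +kernel

theorem c31_31_2_0 : goP 40 k31_31 5500000 [⟨358, 126, 50, 0⟩] [⟨408, 169, -26, 26⟩]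
    2 = true := by decide +kernel

theorem c31_31_2_1 : goP 40 k31_31 5500000 [⟨408, 126, 0, 43⟩] [⟨408, 169, -26, 26⟩]
    2 = true := by decide +kernel

theorem c31_31_2_2 : goP 40 k31_31 5500000 [⟨408, 169, -26, 26⟩] [⟨408, 169, -26, 26⟩]
    41 = true := by decide +kernel

theorem c31_31_2_3 : goP 40 k31_31 5500000 [⟨382, 195, -24, 0⟩] [⟨408, 169, -26, 26⟩]
    2 = true := by decide +kernel

theorem c31_31_2_4 : goP 40 k31_31 5500000 [⟨358, 195, 0, -69⟩] [⟨408, 169, -26, 26⟩]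
    673 = true := by decide +kernel

end Pool.Agent.TR8.CI
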