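import Pool.Agent.Lib_helper56.TR8.XC.K

/-!
# Tables of pairs of sides, 14
-/

set_option autoImplicit false
set_option maxRecDepth 100000

namespace Pool.Agent.TR8.CI

theorem c31_31_3_0 : goP 40 k31_31 5500000 [⟨358, 126, 50, 0⟩] [⟨382, 195, -24, 0⟩]
    2 = true := by decide +kernel

theorem c31_31_3_1 : goP 40 k31_31 5500000 [⟨408, 126, 0, 43⟩] [⟨382, 195, -24, 0⟩]
    2 = true := by decide +kernel

theorem c31_31_3_2 : goP 40 k31_31 5500000 [⟨408, 169, -26, 26⟩] [⟨382, 195, -24, 0⟩]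
    2 = true := by decide +kernel

theorem c31_31_3_3 : goP 40 k31_31 5500000 [⟨382, 195, -24, 0⟩] [⟨382, 195, -24, 0⟩]
    2 = true := by decide +kernel

theorem c31_31_3_4 : goP 40 k31_31 5500000 [⟨358, 195, 0, -69⟩] [⟨382, 195, -24, 0⟩]
    41 = true := by decide +kernel

theorem c31_31_4_0 : goP 40 k31_31 5500000 [⟨358, 126, 50, 0⟩] [⟨358, 195, 0, -69⟩]
    2 = true := by decide +kernel

theorem c31_31_4_1 : goP 40 k31_31 5500000 [⟨408, 126, 0, 43⟩] [⟨358, 195, 0, -69⟩]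
    2 = true := by decide +kernel

theorem c31_31_4_2 : goP 40 k31_31 5500000 [⟨408, 169, -26, 26⟩] [⟨358, 195, 0, -69⟩]
    676 = true := by decide +kernel

theorem c31_31_4_3 : goP 40 k31_31 5500000 [⟨382, 195, -24, 0⟩] [⟨358, 195, 0, -69⟩]
    40 = true := by decide +kernel

theorem c31_31_4_4 : goP 40 k31_31 5500000 [⟨358, 195, 0, -69⟩] [⟨358, 195, 0, -69⟩]
    676 = true := by decide +kernel

theorem c31_32_0_0 : goP 40 k31_32 5500000 [⟨244, 144, 76, 0⟩] [⟨358, 126, 50, 0⟩]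
    41 = true := by decide +kernel

theorem c31_32_0_1 : goP 40 k31_32 5500000 [⟨320, 144, 0, 38⟩] [⟨358, 126, 50, 0⟩]
    2 = true := by decide +kernel

theorem c31_32_0_2 : goP 40 k31_32 5500000 [⟨320, 182, -36, 36⟩] [⟨358, 126, 50, 0⟩]
    41 = true := by decide +kernel

theorem c31_32_0_3 : goP 40 k31_32 5500000 [⟨284, 218, -40, 0⟩] [⟨358, 126, 50, 0⟩]
    2 = true := by decide +kernel

theorem c31_32_0_4 : goP 40 k31_32 5500000 [⟨244, 218, 0, -74⟩] [⟨358, 126, 50, 0⟩]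
    41 = true := by decide +kernel

theorem c31_32_1_0 : goP 40 k31_32 5500000 [⟨244, 144, 76, 0⟩] [⟨408, 126, 0, 43⟩]
    41 = true := by decide +kernel

theorem c31_32_1_1 : goP 40 k31_32 5500000 [⟨320, 144, 0, 38⟩] [⟨408, 126, 0, 43⟩]
    2 = true := by decide +kernel

theorem c31_32_1_2 : goP 40 k31_32 5500000 [⟨320, 182, -36, 36⟩] [⟨408, 126, 0, 43⟩]
    41 = true := by decide +kernel

theorem c31_32_1_3 : goP 40 k31_32 5500000 [⟨284, 218, -40, 0⟩] [⟨408, 126, 0, 43⟩]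
    2 = true := by decide +kernel

theorem c31_32_1_4 : goP 40 k31_32 5500000 [⟨244, 218, 0, -74⟩] [⟨408, 126, 0, 43⟩]
    41 = true := by decide +kernel

theorem c31_32_2_0 : goP 40 k31_32 5500000 [⟨244, 144, 76, 0⟩] [⟨408, 169, -26, 26⟩]
    166497 = true := by decide +kernel

theorem c31_32_2_1 : goP 40 k31_32 5500000 [⟨320, 144, 0, 38⟩] [⟨408, 169, -26, 26⟩]
    40 = true := by decide +kernel

theorem c31_32_2_2 : goP 40 k31_32 5500000 [⟨320, 182, -36, 36⟩] [⟨408, 169, -26, 26⟩]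
    170145 = true := by decide +kernel

theorem c31_32_2_3 : goP 40 k31_32 5500000 [⟨284, 218, -40, 0⟩] [⟨408, 169, -26, 26⟩]
    664 = true := by decide +kernel

theorem c31_32_2_4 : goP 40 k31_32 5500000 [⟨244, 218, 0, -74⟩] [⟨408, 169, -26, 26⟩]
    2656801 = true := by decide +kernel

theorem c31_32_3_0 : goP 40 k31_32 5500000 [⟨244, 144, 76, 0⟩] [⟨382, 195, -24, 0⟩]
    10661 = true := by decide +kernel

theorem c31_32_3_1 : goP 40 k31_32 5500000 [⟨320, 144, 0, 38⟩] [⟨382, 195, -24, 0⟩]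
    2 = true := by decide +kernel

theorem c31_32_3_2 : goP 40 k31_32 5500000 [⟨320, 182, -36, 36⟩] [⟨382, 195, -24, 0⟩]
    10661 = true := by decide +kernel

theorem c31_32_3_3 : goP 40 k31_32 5500000 [⟨284, 218, -40, 0⟩] [⟨382, 195, -24, 0⟩]
    10401 = true := by decide +kernel

theorem c31_32_3_4 : goP 40 k31_32 5500000 [⟨244, 218, 0, -74⟩] [⟨382, 195, -24, 0⟩]
    2728581 = true := by decide +kernel

theorem c31_32_4_0 : goP 40 k31_32 5500000 [⟨244, 144, 76, 0⟩] [⟨358, 195, 0, -69⟩]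
    43657796 = true := by decide +kernel

theorem c31_32_4_1 : goP 40 k31_32 5500000 [⟨320, 144, 0, 38⟩] [⟨358, 195, 0, -69⟩]
    672 = true := by decide +kernel

theorem c31_32_4_2 : goP 40 k31_32 5500000 [⟨320, 182, -36, 36⟩] [⟨358, 195, 0, -69⟩]
    43684484 = true := by decide +kernel

theorem c31_32_4_3 : goP 40 k31_32 5500000 [⟨284, 218, -40, 0⟩] [⟨358, 195, 0, -69⟩]
    10896 = true := by decide +kernel

theorem c31_32_4_4 : goP 40 k31_32 5500000 [⟨244, 218, 0, -74⟩] [⟨358, 195, 0, -69⟩]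
    698886724 = true := by decide +kernel

theorem c31_33_0_0 : goP 40 k31_33 5500000 [⟨174, 146, 88, 0⟩] [⟨358, 126, 50, 0⟩]
    41 = true := by decide +kernel

theorem c31_33_0_1 : goP 40 k31_33 5500000 [⟨262, 146, 0, 30⟩] [⟨358, 126, 50, 0⟩]
    2 = true := by decide +kernel

theorem c31_33_0_2 : goP 40 k31_33 5500000 [⟨262, 176, -36, 36⟩] [⟨358, 126, 50, 0⟩]
    41 = true := by decide +kernel

theorem c31_33_0_3 : goP 40 k31_33 5500000 [⟨226, 212, -52, 0⟩] [⟨358, 126, 50, 0⟩]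
    40 = true := by decide +kernel

theorem c31_33_0_4 : goP 40 k31_33 5500000 [⟨174, 212, 0, -66⟩] [⟨358, 126, 50, 0⟩]
    41 = true := by decide +kernel

theorem c31_33_1_0 : goP 40 k31_33 5500000 [⟨174, 146, 88, 0⟩] [⟨408, 126, 0, 43⟩]
    41 = true := by decide +kernel

theorem c31_33_1_1 : goP 40 k31_33 5500000 [⟨262, 146, 0, 30⟩] [⟨408, 126, 0, 43⟩]
    2 = true := by decide +kernel

theorem c31_33_1_2 : goP 40 k31_33 5500000 [⟨262, 176, -36, 36⟩] [⟨408, 126, 0, 43⟩]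
    41 = true := by decide +kernel

theorem c31_33_1_3 : goP 40 k31_33 5500000 [⟨226, 212, -52, 0⟩] [⟨408, 126, 0, 43⟩]
    40 = true := by decide +kernel

theorem c31_33_1_4 : goP 40 k31_33 5500000 [⟨174, 212, 0, -66⟩] [⟨408, 126, 0, 43⟩]
    40 = true := by decide +kernel

end Pool.Agent.TR8.CI
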