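import Pool.Agent.Lib_helper56.TR8.XC.K

/-!
# Tables of pairs of sides, 15
-/

set_option autoImplicit false
set_option maxRecDepth 100000

namespace Pool.Agent.TR8.CI

theorem c31_33_2_0 : goP 40 k31_33 5500000 [⟨174, 146, 88, 0⟩] [⟨408, 169, -26, 26⟩]
    11300120673 = true := by decide +kernel

theorem c31_33_2_1 : goP 40 k31_33 5500000 [⟨262, 146, 0, 30⟩] [⟨408, 169, -26, 26⟩]
    648 = true := by decide +kernel

theorem c31_33_2_2 : goP 40 k31_33 5500000 [⟨262, 176, -36, 36⟩] [⟨408, 169, -26, 26⟩]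
    696821281 = true := by decide +kernel

theorem c31_33_2_3 : goP 40 k31_33 5500000 [⟨226, 212, -52, 0⟩] [⟨408, 169, -26, 26⟩]
    696934820 = true := by decide +kernel

theorem c31_33_2_4 : goP 40 k31_33 5500000 [⟨174, 212, 0, -66⟩] [⟨408, 169, -26, 26⟩]
    42623396 = true := by decide +kernel

theorem c31_33_3_0 : goP 40 k31_33 5500000 [⟨174, 146, 88, 0⟩] [⟨382, 195, -24, 0⟩]
    174510713221 = true := by decide +kernel

theorem c31_33_3_1 : goP 40 k31_33 5500000 [⟨262, 146, 0, 30⟩] [⟨382, 195, -24, 0⟩]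
    664 = true := by decide +kernel

theorem c31_33_3_2 : goP 40 k31_33 5500000 [⟨262, 176, -36, 36⟩] [⟨382, 195, -24, 0⟩]
    178415313541 = true := by decide +kernel

theorem c31_33_3_3 : goP 40 k31_33 5500000 [⟨226, 212, -52, 0⟩] [⟨382, 195, -24, 0⟩]
    44674716960401 = true := by decide +kernel

theorem c31_33_3_4 : goP 40 k31_33 5500000 [⟨174, 212, 0, -66⟩] [⟨382, 195, -24, 0⟩]
    714795470985349 = true := by decide +kernel

theorem c31_33_4_0 : goP 40 k31_33 5500000 [⟨174, 146, 88, 0⟩] [⟨358, 195, 0, -69⟩]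
    45810433826884 = true := by decide +kernel

theorem c31_33_4_1 : goP 40 k31_33 5500000 [⟨262, 146, 0, 30⟩] [⟨358, 195, 0, -69⟩]
    10880 = true := by decide +kernel

theorem c31_33_4_2 : goP 40 k31_33 5500000 [⟨262, 176, -36, 36⟩] [⟨358, 195, 0, -69⟩]
    2862764696132 = true := by decide +kernel

theorem c31_33_4_3 : goP 40 k31_33 5500000 [⟨226, 212, -52, 0⟩] [⟨358, 195, 0, -69⟩]
    2794451020036 = true := by decide +kernel

theorem c31_33_4_4 : goP 40 k31_33 5500000 [⟨174, 212, 0, -66⟩] [⟨358, 195, 0, -69⟩]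
    45811239526660 = true := by decide +kernel

theorem c31_34_0_0 : goP 40 k31_34 5500000 [⟨130, 142, 90, 0⟩] [⟨358, 126, 50, 0⟩]
    2 = true := by decide +kernel

theorem c31_34_0_1 : goP 40 k31_34 5500000 [⟨220, 142, 0, 24⟩] [⟨358, 126, 50, 0⟩]
    2 = true := by decide +kernel

theorem c31_34_0_2 : goP 40 k31_34 5500000 [⟨220, 166, -38, 38⟩] [⟨358, 126, 50, 0⟩]
    41 = true := by decide +kernel

theorem c31_34_0_3 : goP 40 k31_34 5500000 [⟨182, 204, -52, 0⟩] [⟨358, 126, 50, 0⟩]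
    2 = true := by decide +kernel

theorem c31_34_0_4 : goP 40 k31_34 5500000 [⟨130, 204, 0, -62⟩] [⟨358, 126, 50, 0⟩]
    2 = true := by decide +kernel

theorem c31_34_1_0 : goP 40 k31_34 5500000 [⟨130, 142, 90, 0⟩] [⟨408, 126, 0, 43⟩]
    2 = true := by decide +kernel

theorem c31_34_1_1 : goP 40 k31_34 5500000 [⟨220, 142, 0, 24⟩] [⟨408, 126, 0, 43⟩]
    2 = true := by decide +kernel

end Pool.Agent.TR8.CI
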