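import Pool.Agent.Lib_helper56.TR8.XC.K

/-!
# Tables of pairs of sides, 16
-/

set_option autoImplicit false
set_option maxRecDepth 100000

namespace Pool.Agent.TR8.CI

theorem c31_34_1_2 : goP 40 k31_34 5500000 [⟨220, 166, -38, 38⟩] [⟨408, 126, 0, 43⟩]
    41 = true := by decide +kernel

theorem c31_34_1_3 : goP 40 k31_34 5500000 [⟨182, 204, -52, 0⟩] [⟨408, 126, 0, 43⟩]
    2 = true := by decide +kernel

theorem c31_34_1_4 : goP 40 k31_34 5500000 [⟨130, 204, 0, -62⟩] [⟨408, 126, 0, 43⟩]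
    2 = true := by decide +kernel

theorem c31_34_2_0 : goP 40 k31_34 5500000 [⟨130, 142, 90, 0⟩] [⟨408, 169, -26, 26⟩]
    41 = true := by decide +kernel

theorem c31_34_2_1 : goP 40 k31_34 5500000 [⟨220, 142, 0, 24⟩] [⟨408, 169, -26, 26⟩]
    2 = true := by decide +kernel

theorem c31_34_2_2 : goP 40 k31_34 5500000 [⟨220, 166, -38, 38⟩] [⟨408, 169, -26, 26⟩]
    170145 = true := by decide +kernel

theorem c31_34_2_3 : goP 40 k31_34 5500000 [⟨182, 204, -52, 0⟩] [⟨408, 169, -26, 26⟩]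
    2662820 = true := by decide +kernel

theorem c31_34_2_4 : goP 40 k31_34 5500000 [⟨130, 204, 0, -62⟩] [⟨408, 169, -26, 26⟩]
    10849 = true := by decide +kernel

theorem c31_34_3_0 : goP 40 k31_34 5500000 [⟨130, 142, 90, 0⟩] [⟨382, 195, -24, 0⟩]
    41 = true := by decide +kernel

theorem c31_34_3_1 : goP 40 k31_34 5500000 [⟨220, 142, 0, 24⟩] [⟨382, 195, -24, 0⟩]
    2 = true := by decide +kernel

theorem c31_34_3_2 : goP 40 k31_34 5500000 [⟨220, 166, -38, 38⟩] [⟨382, 195, -24, 0⟩]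
    10393 = true := by decide +kernel

theorem c31_34_3_3 : goP 40 k31_34 5500000 [⟨182, 204, -52, 0⟩] [⟨382, 195, -24, 0⟩]
    2722401 = true := by decide +kernel

theorem c31_34_3_4 : goP 40 k31_34 5500000 [⟨130, 204, 0, -62⟩] [⟨382, 195, -24, 0⟩]
    174613 = true := by decide +kernel

theorem c31_34_4_0 : goP 40 k31_34 5500000 [⟨130, 142, 90, 0⟩] [⟨358, 195, 0, -69⟩]
    676 = true := by decide +kernel

theorem c31_34_4_1 : goP 40 k31_34 5500000 [⟨220, 142, 0, 24⟩] [⟨358, 195, 0, -69⟩]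
    2 = true := by decide +kernel

theorem c31_34_4_2 : goP 40 k31_34 5500000 [⟨220, 166, -38, 38⟩] [⟨358, 195, 0, -69⟩]
    698913412 = true := by decide +kernel

theorem c31_34_4_3 : goP 40 k31_34 5500000 [⟨182, 204, -52, 0⟩] [⟨358, 195, 0, -69⟩]
    711502096 = true := by decide +kernel

theorem c31_34_4_4 : goP 40 k31_34 5500000 [⟨130, 204, 0, -62⟩] [⟨358, 195, 0, -69⟩]
    174660 = true := by decide +kernel

theorem c31_35_0_0 : goP 40 k31_35 5500000 [⟨96, 134, 92, 0⟩] [⟨358, 126, 50, 0⟩]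
    2 = true := by decide +kernel

theorem c31_35_0_1 : goP 40 k31_35 5500000 [⟨188, 134, 0, 26⟩] [⟨358, 126, 50, 0⟩]
    2 = true := by decide +kernel

theorem c31_35_0_2 : goP 40 k31_35 5500000 [⟨188, 160, -34, 34⟩] [⟨358, 126, 50, 0⟩]
    2 = true := by decide +kernel

theorem c31_35_0_3 : goP 40 k31_35 5500000 [⟨154, 194, -58, 0⟩] [⟨358, 126, 50, 0⟩]
    2 = true := by decide +kernel

theorem c31_35_0_4 : goP 40 k31_35 5500000 [⟨96, 194, 0, -60⟩] [⟨358, 126, 50, 0⟩]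
    2 = true := by decide +kernel

theorem c31_35_1_0 : goP 40 k31_35 5500000 [⟨96, 134, 92, 0⟩] [⟨408, 126, 0, 43⟩]
    2 = true := by decide +kernel

theorem c31_35_1_1 : goP 40 k31_35 5500000 [⟨188, 134, 0, 26⟩] [⟨408, 126, 0, 43⟩]
    2 = true := by decide +kernel

theorem c31_35_1_2 : goP 40 k31_35 5500000 [⟨188, 160, -34, 34⟩] [⟨408, 126, 0, 43⟩]
    2 = true := by decide +kernel

theorem c31_35_1_3 : goP 40 k31_35 5500000 [⟨154, 194, -58, 0⟩] [⟨408, 126, 0, 43⟩]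
    2 = true := by decide +kernel

theorem c31_35_1_4 : goP 40 k31_35 5500000 [⟨96, 194, 0, -60⟩] [⟨408, 126, 0, 43⟩]
    2 = true := by decide +kernel

theorem c31_35_2_0 : goP 40 k31_35 5500000 [⟨96, 134, 92, 0⟩] [⟨408, 169, -26, 26⟩]
    2 = true := by decide +kernel

theorem c31_35_2_1 : goP 40 k31_35 5500000 [⟨188, 134, 0, 26⟩] [⟨408, 169, -26, 26⟩]
    2 = true := by decide +kernel

theorem c31_35_2_2 : goP 40 k31_35 5500000 [⟨188, 160, -34, 34⟩] [⟨408, 169, -26, 26⟩]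
    649 = true := by decide +kernel

theorem c31_35_2_3 : goP 40 k31_35 5500000 [⟨154, 194, -58, 0⟩] [⟨408, 169, -26, 26⟩]
    664 = true := by decide +kernel

theorem c31_35_2_4 : goP 40 k31_35 5500000 [⟨96, 194, 0, -60⟩] [⟨408, 169, -26, 26⟩]
    673 = true := by decide +kernel

theorem c31_35_3_0 : goP 40 k31_35 5500000 [⟨96, 134, 92, 0⟩] [⟨382, 195, -24, 0⟩]
    2 = true := by decide +kernel

theorem c31_35_3_1 : goP 40 k31_35 5500000 [⟨188, 134, 0, 26⟩] [⟨382, 195, -24, 0⟩]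
    2 = true := by decide +kernel

theorem c31_35_3_2 : goP 40 k31_35 5500000 [⟨188, 160, -34, 34⟩] [⟨382, 195, -24, 0⟩]
    665 = true := by decide +kernel

theorem c31_35_3_3 : goP 40 k31_35 5500000 [⟨154, 194, -58, 0⟩] [⟨382, 195, -24, 0⟩]
    673 = true := by decide +kernel

theorem c31_35_3_4 : goP 40 k31_35 5500000 [⟨96, 194, 0, -60⟩] [⟨382, 195, -24, 0⟩]
    41 = true := by decide +kernel

theorem c31_35_4_0 : goP 40 k31_35 5500000 [⟨96, 134, 92, 0⟩] [⟨358, 195, 0, -69⟩]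
    2 = true := by decide +kernel

theorem c31_35_4_1 : goP 40 k31_35 5500000 [⟨188, 134, 0, 26⟩] [⟨358, 195, 0, -69⟩]
    2 = true := by decide +kernel

theorem c31_35_4_2 : goP 40 k31_35 5500000 [⟨188, 160, -34, 34⟩] [⟨358, 195, 0, -69⟩]
    173217 = true := by decide +kernel

theorem c31_35_4_3 : goP 40 k31_35 5500000 [⟨154, 194, -58, 0⟩] [⟨358, 195, 0, -69⟩]
    172676 = true := by decide +kernel

theorem c31_35_4_4 : goP 40 k31_35 5500000 [⟨96, 194, 0, -60⟩] [⟨358, 195, 0, -69⟩]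
    673 = true := by decide +kernel

theorem c31_41_0_0 : goP 40 k31_41 5500000 [⟨292, 62, 30, 0⟩] [⟨358, 126, 50, 0⟩]
    2 = true := by decide +kernel

theorem c31_41_0_1 : goP 40 k31_41 5500000 [⟨322, 62, 0, 30⟩] [⟨358, 126, 50, 0⟩]
    2 = true := by decide +kernel

theorem c31_41_0_2 : goP 40 k31_41 5500000 [⟨322, 92, -16, 16⟩] [⟨358, 126, 50, 0⟩]
    2 = true := by decide +kernel

theorem c31_41_0_3 : goP 40 k31_41 5500000 [⟨306, 108, -14, 0⟩] [⟨358, 126, 50, 0⟩]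
    2 = true := by decide +kernel

theorem c31_41_0_4 : goP 40 k31_41 5500000 [⟨292, 108, 0, -46⟩] [⟨358, 126, 50, 0⟩]
    2 = true := by decide +kernel

end Pool.Agent.TR8.CI
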