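import Pool.Agent.Lib_helper56.TR8.XC.K

/-!
# Tables of pairs of sides, 17
-/

set_option autoImplicit false
set_option maxRecDepth 100000

namespace Pool.Agent.TR8.CI

theorem c31_41_1_0 : goP 40 k31_41 5500000 [⟨292, 62, 30, 0⟩] [⟨408, 126, 0, 43⟩]
    2 = true := by decide +kernel

theorem c31_41_1_1 : goP 40 k31_41 5500000 [⟨322, 62, 0, 30⟩] [⟨408, 126, 0, 43⟩]
    2 = true := by decide +kernel

theorem c31_41_1_2 : goP 40 k31_41 5500000 [⟨322, 92, -16, 16⟩] [⟨408, 126, 0, 43⟩]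
    2 = true := by decide +kernel

theorem c31_41_1_3 : goP 40 k31_41 5500000 [⟨306, 108, -14, 0⟩] [⟨408, 126, 0, 43⟩]
    2 = true := by decide +kernel

theorem c31_41_1_4 : goP 40 k31_41 5500000 [⟨292, 108, 0, -46⟩] [⟨408, 126, 0, 43⟩]
    2 = true := by decide +kernel

theorem c31_41_2_0 : goP 40 k31_41 5500000 [⟨292, 62, 30, 0⟩] [⟨408, 169, -26, 26⟩]
    2 = true := by decide +kernel

theorem c31_41_2_1 : goP 40 k31_41 5500000 [⟨322, 62, 0, 30⟩] [⟨408, 169, -26, 26⟩]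
    10633 = true := by decide +kernel

theorem c31_41_2_2 : goP 40 k31_41 5500000 [⟨322, 92, -16, 16⟩] [⟨408, 169, -26, 26⟩]
    10632 = true := by decide +kernel

theorem c31_41_2_3 : goP 40 k31_41 5500000 [⟨306, 108, -14, 0⟩] [⟨408, 169, -26, 26⟩]
    664 = true := by decide +kernel

theorem c31_41_2_4 : goP 40 k31_41 5500000 [⟨292, 108, 0, -46⟩] [⟨408, 169, -26, 26⟩]
    2 = true := by decide +kernel

theorem c31_41_3_0 : goP 40 k31_41 5500000 [⟨292, 62, 30, 0⟩] [⟨382, 195, -24, 0⟩]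
    2 = true := by decide +kernel

theorem c31_41_3_1 : goP 40 k31_41 5500000 [⟨322, 62, 0, 30⟩] [⟨382, 195, -24, 0⟩]
    166297 = true := by decide +kernel

theorem c31_41_3_2 : goP 40 k31_41 5500000 [⟨322, 92, -16, 16⟩] [⟨382, 195, -24, 0⟩]
    166433 = true := by decide +kernel

theorem c31_41_3_3 : goP 40 k31_41 5500000 [⟨306, 108, -14, 0⟩] [⟨382, 195, -24, 0⟩]
    10885 = true := by decide +kernel

theorem c31_41_3_4 : goP 40 k31_41 5500000 [⟨292, 108, 0, -46⟩] [⟨382, 195, -24, 0⟩]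
    2 = true := by decide +kernel

theorem c31_41_4_0 : goP 40 k31_41 5500000 [⟨292, 62, 30, 0⟩] [⟨358, 195, 0, -69⟩]
    2 = true := by decide +kernel

theorem c31_41_4_1 : goP 40 k31_41 5500000 [⟨322, 62, 0, 30⟩] [⟨358, 195, 0, -69⟩]
    172644 = true := by decide +kernel

theorem c31_41_4_2 : goP 40 k31_41 5500000 [⟨322, 92, -16, 16⟩] [⟨358, 195, 0, -69⟩]
    174656 = true := by decide +kernel

theorem c31_41_4_3 : goP 40 k31_41 5500000 [⟨306, 108, -14, 0⟩] [⟨358, 195, 0, -69⟩]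
    10884 = true := by decide +kernel

theorem c31_41_4_4 : goP 40 k31_41 5500000 [⟨292, 108, 0, -46⟩] [⟨358, 195, 0, -69⟩]
    41 = true := by decide +kernel

theorem c31_42_0_0 : goP 40 k31_42 5500000 [⟨224, 90, 48, 0⟩] [⟨358, 126, 50, 0⟩]
    2 = true := by decide +kernel

theorem c31_42_0_1 : goP 40 k31_42 5500000 [⟨272, 90, 0, 36⟩] [⟨358, 126, 50, 0⟩]
    2 = true := by decide +kernel

theorem c31_42_0_2 : goP 40 k31_42 5500000 [⟨272, 126, -24, 24⟩] [⟨358, 126, 50, 0⟩]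
    2 = true := by decide +kernel

theorem c31_42_0_3 : goP 40 k31_42 5500000 [⟨248, 150, -24, 0⟩] [⟨358, 126, 50, 0⟩]
    2 = true := by decide +kernel

theorem c31_42_0_4 : goP 40 k31_42 5500000 [⟨224, 150, 0, -60⟩] [⟨358, 126, 50, 0⟩]
    2 = true := by decide +kernel

theorem c31_42_1_0 : goP 40 k31_42 5500000 [⟨224, 90, 48, 0⟩] [⟨408, 126, 0, 43⟩]
    2 = true := by decide +kernel

theorem c31_42_1_1 : goP 40 k31_42 5500000 [⟨272, 90, 0, 36⟩] [⟨408, 126, 0, 43⟩]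
    2 = true := by decide +kernel

theorem c31_42_1_2 : goP 40 k31_42 5500000 [⟨272, 126, -24, 24⟩] [⟨408, 126, 0, 43⟩]
    2 = true := by decide +kernel

theorem c31_42_1_3 : goP 40 k31_42 5500000 [⟨248, 150, -24, 0⟩] [⟨408, 126, 0, 43⟩]
    2 = true := by decide +kernel

theorem c31_42_1_4 : goP 40 k31_42 5500000 [⟨224, 150, 0, -60⟩] [⟨408, 126, 0, 43⟩]
    2 = true := by decide +kernel

theorem c31_42_2_0 : goP 40 k31_42 5500000 [⟨224, 90, 48, 0⟩] [⟨408, 169, -26, 26⟩]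
    2 = true := by decide +kernel

theorem c31_42_2_1 : goP 40 k31_42 5500000 [⟨272, 90, 0, 36⟩] [⟨408, 169, -26, 26⟩]
    2 = true := by decide +kernel

theorem c31_42_2_2 : goP 40 k31_42 5500000 [⟨272, 126, -24, 24⟩] [⟨408, 169, -26, 26⟩]
    2 = true := by decide +kernel

theorem c31_42_2_3 : goP 40 k31_42 5500000 [⟨248, 150, -24, 0⟩] [⟨408, 169, -26, 26⟩]
    2 = true := by decide +kernel

theorem c31_42_2_4 : goP 40 k31_42 5500000 [⟨224, 150, 0, -60⟩] [⟨408, 169, -26, 26⟩]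
    2 = true := by decide +kernel

theorem c31_42_3_0 : goP 40 k31_42 5500000 [⟨224, 90, 48, 0⟩] [⟨382, 195, -24, 0⟩]
    2 = true := by decide +kernel

theorem c31_42_3_1 : goP 40 k31_42 5500000 [⟨272, 90, 0, 36⟩] [⟨382, 195, -24, 0⟩]
    2 = true := by decide +kernel

theorem c31_42_3_2 : goP 40 k31_42 5500000 [⟨272, 126, -24, 24⟩] [⟨382, 195, -24, 0⟩]
    2 = true := by decide +kernel

theorem c31_42_3_3 : goP 40 k31_42 5500000 [⟨248, 150, -24, 0⟩] [⟨382, 195, -24, 0⟩]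
    2 = true := by decide +kernel

theorem c31_42_3_4 : goP 40 k31_42 5500000 [⟨224, 150, 0, -60⟩] [⟨382, 195, -24, 0⟩]
    2 = true := by decide +kernel

theorem c31_42_4_0 : goP 40 k31_42 5500000 [⟨224, 90, 48, 0⟩] [⟨358, 195, 0, -69⟩]
    2 = true := by decide +kernel

theorem c31_42_4_1 : goP 40 k31_42 5500000 [⟨272, 90, 0, 36⟩] [⟨358, 195, 0, -69⟩]
    2 = true := by decide +kernel

theorem c31_42_4_2 : goP 40 k31_42 5500000 [⟨272, 126, -24, 24⟩] [⟨358, 195, 0, -69⟩]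
    2 = true := by decide +kernel

theorem c31_42_4_3 : goP 40 k31_42 5500000 [⟨248, 150, -24, 0⟩] [⟨358, 195, 0, -69⟩]
    2 = true := by decide +kernel

theorem c31_42_4_4 : goP 40 k31_42 5500000 [⟨224, 150, 0, -60⟩] [⟨358, 195, 0, -69⟩]
    2 = true := by decide +kernel

theorem c31_R_0_0 : goP 40 k31_R 5500000 [⟨0, 0, 260, 0⟩] [⟨358, 126, 50, 0⟩]
    10661 = true := by decide +kernel

theorem c31_R_0_1 : goP 40 k31_R 5500000 [⟨260, 0, 0, 108⟩] [⟨358, 126, 50, 0⟩]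
    2 = true := by decide +kernel

theorem c31_R_0_2 : goP 40 k31_R 5500000 [⟨260, 108, -74, 74⟩] [⟨358, 126, 50, 0⟩]
    41 = true := by decide +kernel

theorem c31_R_0_3 : goP 40 k31_R 5500000 [⟨186, 182, -116, 0⟩] [⟨358, 126, 50, 0⟩]
    41 = true := by decide +kernel

theorem c31_R_0_4 : goP 40 k31_R 5500000 [⟨70, 182, -70, -50⟩] [⟨358, 126, 50, 0⟩]
    41 = true := by decide +kernel

theorem c31_R_0_5 : goP 40 k31_R 5500000 [⟨0, 132, 0, -132⟩] [⟨358, 126, 50, 0⟩]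
    2 = true := by decide +kernel

theorem c31_R_1_0 : goP 40 k31_R 5500000 [⟨0, 0, 260, 0⟩] [⟨408, 126, 0, 43⟩]
    10661 = true := by decide +kernel

theorem c31_R_1_1 : goP 40 k31_R 5500000 [⟨260, 0, 0, 108⟩] [⟨408, 126, 0, 43⟩]
    2 = true := by decide +kernel

theorem c31_R_1_2 : goP 40 k31_R 5500000 [⟨260, 108, -74, 74⟩] [⟨408, 126, 0, 43⟩]
    41 = true := by decide +kernel

theorem c31_R_1_3 : goP 40 k31_R 5500000 [⟨186, 182, -116, 0⟩] [⟨408, 126, 0, 43⟩]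
    41 = true := by decide +kernel

theorem c31_R_1_4 : goP 40 k31_R 5500000 [⟨70, 182, -70, -50⟩] [⟨408, 126, 0, 43⟩]
    41 = true := by decide +kernel

theorem c31_R_1_5 : goP 40 k31_R 5500000 [⟨0, 132, 0, -132⟩] [⟨408, 126, 0, 43⟩]
    2 = true := by decide +kernel

end Pool.Agent.TR8.CI
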