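import Pool.Agent.Lib_helper56.TR8.XC.K

/-!
# Tables of pairs of sides, 18
-/

set_option autoImplicit false
set_option maxRecDepth 100000

namespace Pool.Agent.TR8.CI

theorem c31_R_2_0 : goP 40 k31_R 5500000 [⟨0, 0, 260, 0⟩] [⟨408, 169, -26, 26⟩]
    681681541 = true := by decide +kernel

theorem c31_R_2_1 : goP 40 k31_R 5500000 [⟨260, 0, 0, 108⟩] [⟨408, 169, -26, 26⟩]
    41 = true := by decide +kernel

theorem c31_R_2_2 : goP 40 k31_R 5500000 [⟨260, 108, -74, 74⟩] [⟨408, 169, -26, 26⟩]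
    10657 = true := by decide +kernel

theorem c31_R_2_3 : goP 40 k31_R 5500000 [⟨186, 182, -116, 0⟩] [⟨408, 169, -26, 26⟩]
    10401 = true := by decide +kernel

theorem c31_R_2_4 : goP 40 k31_R 5500000 [⟨70, 182, -70, -50⟩] [⟨408, 169, -26, 26⟩]
    10401 = true := by decide +kernel

theorem c31_R_2_5 : goP 40 k31_R 5500000 [⟨0, 132, 0, -132⟩] [⟨408, 169, -26, 26⟩]
    10401 = true := by decide +kernel

theorem c31_R_3_0 : goP 40 k31_R 5500000 [⟨0, 0, 260, 0⟩] [⟨382, 195, -24, 0⟩]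
    2729621 = true := by decide +kernel

theorem c31_R_3_1 : goP 40 k31_R 5500000 [⟨260, 0, 0, 108⟩] [⟨382, 195, -24, 0⟩]
    41 = true := by decide +kernel

theorem c31_R_3_2 : goP 40 k31_R 5500000 [⟨260, 108, -74, 74⟩] [⟨382, 195, -24, 0⟩]
    665 = true := by decide +kernel

theorem c31_R_3_3 : goP 40 k31_R 5500000 [⟨186, 182, -116, 0⟩] [⟨382, 195, -24, 0⟩]
    665 = true := by decide +kernel

theorem c31_R_3_4 : goP 40 k31_R 5500000 [⟨70, 182, -70, -50⟩] [⟨382, 195, -24, 0⟩]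
    10661 = true := by decide +kernel

theorem c31_R_3_5 : goP 40 k31_R 5500000 [⟨0, 132, 0, -132⟩] [⟨382, 195, -24, 0⟩]
    10661 = true := by decide +kernel

theorem c31_R_4_0 : goP 40 k31_R 5500000 [⟨0, 0, 260, 0⟩] [⟨358, 195, 0, -69⟩]
    2792173512965 = true := by decide +kernel

theorem c31_R_4_1 : goP 40 k31_R 5500000 [⟨260, 0, 0, 108⟩] [⟨358, 195, 0, -69⟩]
    676 = true := by decide +kernel

theorem c31_R_4_2 : goP 40 k31_R 5500000 [⟨260, 108, -74, 74⟩] [⟨358, 195, 0, -69⟩]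
    2771601 = true := by decide +kernel

theorem c31_R_4_3 : goP 40 k31_R 5500000 [⟨186, 182, -116, 0⟩] [⟨358, 195, 0, -69⟩]
    173217 = true := by decide +kernel

theorem c31_R_4_4 : goP 40 k31_R 5500000 [⟨70, 182, -70, -50⟩] [⟨358, 195, 0, -69⟩]
    2771601 = true := by decide +kernel

theorem c31_R_4_5 : goP 40 k31_R 5500000 [⟨0, 132, 0, -132⟩] [⟨358, 195, 0, -69⟩]
    172676 = true := by decide +kernel

theorem c32_32_0_0 : goP 40 k32_32 5500000 [⟨244, 144, 76, 0⟩] [⟨244, 144, 76, 0⟩]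
    805496007537770743935968321 = true := by decide +kernel

theorem c32_32_0_1 : goP 40 k32_32 5500000 [⟨320, 144, 0, 38⟩] [⟨244, 144, 76, 0⟩]
    44344976 = true := by decide +kernel

theorem c32_32_0_2 : goP 40 k32_32 5500000 [⟨320, 182, -36, 36⟩] [⟨244, 144, 76, 0⟩]
    3146468710062791441621572 = true := by decide +kernel

end Pool.Agent.TR8.CI
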