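import Pool.Agent.Lib_helper56.TR8.XC.K

/-!
# Tables of pairs of sides, 19
-/

set_option autoImplicit false
set_option maxRecDepth 100000

namespace Pool.Agent.TR8.CI

theorem c32_32_0_3 : goP 40 k32_32 5500000 [⟨284, 218, -40, 0⟩] [⟨244, 144, 76, 0⟩]
    12290904812032938879044 = true := by decide +kernel

theorem c32_32_0_4 : goP 40 k32_32 5500000 [⟨244, 218, 0, -74⟩] [⟨244, 144, 76, 0⟩]
    844623753828729586177670078702660 = true := by decide +kernel

theorem c32_32_1_0 : goP 40 k32_32 5500000 [⟨244, 144, 76, 0⟩] [⟨320, 144, 0, 38⟩]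
    681681541 = true := by decide +kernel

theorem c32_32_1_1 : goP 40 k32_32 5500000 [⟨320, 144, 0, 38⟩] [⟨320, 144, 0, 38⟩]
    40 = true := by decide +kernel

theorem c32_32_1_2 : goP 40 k32_32 5500000 [⟨320, 182, -36, 36⟩] [⟨320, 144, 0, 38⟩]
    681681541 = true := by decide +kernel

theorem c32_32_1_3 : goP 40 k32_32 5500000 [⟨284, 218, -40, 0⟩] [⟨320, 144, 0, 38⟩]
    10401 = true := by decide +kernel

theorem c32_32_1_4 : goP 40 k32_32 5500000 [⟨244, 218, 0, -74⟩] [⟨320, 144, 0, 38⟩]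
    698656401 = true := by decide +kernel

theorem c32_32_2_0 : goP 40 k32_32 5500000 [⟨244, 144, 76, 0⟩] [⟨320, 182, -36, 36⟩]
    3070020732459723203847697 = true := by decide +kernel

theorem c32_32_2_1 : goP 40 k32_32 5500000 [⟨320, 144, 0, 38⟩] [⟨320, 182, -36, 36⟩]
    698656400 = true := by decide +kernel

theorem c32_32_2_2 : goP 40 k32_32 5500000 [⟨320, 182, -36, 36⟩] [⟨320, 182, -36, 36⟩]
    46811719117409786433 = true := by decide +kernel

theorem c32_32_2_3 : goP 40 k32_32 5500000 [⟨284, 218, -40, 0⟩] [⟨320, 182, -36, 36⟩]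
    3000706396230687300 = true := by decide +kernel

end Pool.Agent.TR8.CI
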