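import Pool.Agent.Lib_helper56.TR8.XC.K

/-!
# Tables of pairs of sides, 20
-/

set_option autoImplicit false
set_option maxRecDepth 100000

namespace Pool.Agent.TR8.CI

theorem c32_32_2_4 : goP 40 k32_32 5500000 [⟨244, 218, 0, -74⟩] [⟨320, 182, -36, 36⟩]
    3219150059559544925176967338561 = true := by decide +kernel

theorem c32_32_3_0 : goP 40 k32_32 5500000 [⟨244, 144, 76, 0⟩] [⟨284, 218, -40, 0⟩]
    191876295774367608629521 = true := by decide +kernel

theorem c32_32_3_1 : goP 40 k32_32 5500000 [⟨320, 144, 0, 38⟩] [⟨284, 218, -40, 0⟩]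
    10660 = true := by decide +kernel

theorem c32_32_3_2 : goP 40 k32_32 5500000 [⟨320, 182, -36, 36⟩] [⟨284, 218, -40, 0⟩]
    2927799923313642001 = true := by decide +kernel

theorem c32_32_3_3 : goP 40 k32_32 5500000 [⟨284, 218, -40, 0⟩] [⟨284, 218, -40, 0⟩]
    3000706391935720001 = true := by decide +kernel

theorem c32_32_3_4 : goP 40 k32_32 5500000 [⟨244, 218, 0, -74⟩] [⟨284, 218, -40, 0⟩]
    50343490751744885173684753 = true := by decide +kernel

theorem c32_32_4_0 : goP 40 k32_32 5500000 [⟨244, 144, 76, 0⟩] [⟨244, 218, 0, -74⟩]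
    13185639062099588769877021226869009 = true := by decide +kernel

theorem c32_32_4_1 : goP 40 k32_32 5500000 [⟨320, 144, 0, 38⟩] [⟨244, 218, 0, -74⟩]
    681681540 = true := by decide +kernel

end Pool.Agent.TR8.CI
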