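import Pool.Agent.Lib_helper56.TR8.XC.K

/-!
# Tables of pairs of sides, 21
-/

set_option autoImplicit false
set_option maxRecDepth 100000

namespace Pool.Agent.TR8.CI

theorem c32_32_4_2 : goP 40 k32_32 5500000 [⟨320, 182, -36, 36⟩] [⟨244, 218, 0, -74⟩]
    3299311574122737563133156149780 = true := by decide +kernel

theorem c32_32_4_3 : goP 40 k32_32 5500000 [⟨284, 218, -40, 0⟩] [⟨244, 218, 0, -74⟩]
    785925240363403408523303492 = true := by decide +kernel

theorem c32_32_4_4 : goP 40 k32_32 5500000 [⟨244, 218, 0, -74⟩] [⟨244, 218, 0, -74⟩]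
    54008375884388446094429639753430870084 = true := by decide +kernel

theorem c32_33_0_0 : goP 40 k32_33 5500000 [⟨174, 146, 88, 0⟩] [⟨244, 144, 76, 0⟩]
    2927799923313642001 = true := by decide +kernel

theorem c32_33_0_1 : goP 40 k32_33 5500000 [⟨262, 146, 0, 30⟩] [⟨244, 144, 76, 0⟩]
    698656400 = true := by decide +kernel

theorem c32_33_0_2 : goP 40 k32_33 5500000 [⟨262, 176, -36, 36⟩] [⟨244, 144, 76, 0⟩]
    48011302339681098308 = true := by decide +kernel

theorem c32_33_0_3 : goP 40 k32_33 5500000 [⟨226, 212, -52, 0⟩] [⟨244, 144, 76, 0⟩]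
    3000706396230687300 = true := by decide +kernel

theorem c32_33_0_4 : goP 40 k32_33 5500000 [⟨174, 212, 0, -66⟩] [⟨244, 144, 76, 0⟩]
    3000706396230687300 = true := by decide +kernel

end Pool.Agent.TR8.CI
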