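import Pool.Agent.Lib_helper56.TR8.XC.K

/-!
# Tables of pairs of sides, 22
-/

set_option autoImplicit false
set_option maxRecDepth 100000

namespace Pool.Agent.TR8.CI

theorem c32_33_1_0 : goP 40 k32_33 5500000 [⟨174, 146, 88, 0⟩] [⟨320, 144, 0, 38⟩]
    45674320505221 = true := by decide +kernel

theorem c32_33_1_1 : goP 40 k32_33 5500000 [⟨262, 146, 0, 30⟩] [⟨320, 144, 0, 38⟩]
    10660 = true := by decide +kernel

theorem c32_33_1_2 : goP 40 k32_33 5500000 [⟨262, 176, -36, 36⟩] [⟨320, 144, 0, 38⟩]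
    44674716960401 = true := by decide +kernel

theorem c32_33_1_3 : goP 40 k32_33 5500000 [⟨226, 212, -52, 0⟩] [⟨320, 144, 0, 38⟩]
    2893275104913 = true := by decide +kernel

theorem c32_33_1_4 : goP 40 k32_33 5500000 [⟨174, 212, 0, -66⟩] [⟨320, 144, 0, 38⟩]
    11178509969 = true := by decide +kernel

theorem c32_33_2_0 : goP 40 k32_33 5500000 [⟨174, 146, 88, 0⟩] [⟨320, 182, -36, 36⟩]
    252039808219827665276877546797848632467381951721400593 = true := by decide +kernel

theorem c32_33_2_1 : goP 40 k32_33 5500000 [⟨262, 146, 0, 30⟩] [⟨320, 182, -36, 36⟩]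
    714794903152272 = true := by decide +kernel

end Pool.Agent.TR8.CI
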