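import Pool.Agent.Lib_helper56.TR8.XC.K

/-!
# Tables of pairs of sides, 23
-/

set_option autoImplicit false
set_option maxRecDepth 100000

namespace Pool.Agent.TR8.CI

theorem c32_33_2_2 : goP 40 k32_33 5500000 [⟨262, 176, -36, 36⟩] [⟨320, 182, -36, 36⟩]
    16714808143662436349412041043274558545847380935318798094861740049 = true := by decide +kernel

theorem c32_33_2_3 : goP 40 k32_33 5500000 [⟨226, 212, -52, 0⟩] [⟨320, 182, -36, 36⟩]
    3988622948991539972367051488505245160067625798805891140 = true := by decide +kernel

theorem c32_33_2_4 : goP 40 k32_33 5500000 [⟨174, 212, 0, -66⟩] [⟨320, 182, -36, 36⟩]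
    60711751713816193026192170185200575335309682288708 = true := by decide +kernel

end Pool.Agent.TR8.CI
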