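import Pool.Agent.Lib_helper56.TR8.XC.K

/-!
# Tables of pairs of sides, 24
-/

set_option autoImplicit false
set_option maxRecDepth 100000

namespace Pool.Agent.TR8.CI

theorem c32_33_3_0 : goP 40 k32_33 5500000 [⟨174, 146, 88, 0⟩] [⟨284, 218, -40, 0⟩]
    3497712044566402110269012232256497733 = true := by decide +kernel

theorem c32_33_3_1 : goP 40 k32_33 5500000 [⟨262, 146, 0, 30⟩] [⟨284, 218, -40, 0⟩]
    681681540 = true := by decide +kernel

theorem c32_33_3_2 : goP 40 k32_33 5500000 [⟨262, 176, -36, 36⟩] [⟨284, 218, -40, 0⟩]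
    885652206905607432120745582271010597137 = true := by decide +kernel

theorem c32_33_3_3 : goP 40 k32_33 5500000 [⟨226, 212, -52, 0⟩] [⟨284, 218, -40, 0⟩]
    55353262931610776576581218967428426001 = true := by decide +kernel

theorem c32_33_3_4 : goP 40 k32_33 5500000 [⟨174, 212, 0, -66⟩] [⟨284, 218, -40, 0⟩]
    3513371095999057533332743616494987537 = true := by decide +kernel

end Pool.Agent.TR8.CI
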