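import Pool.Agent.Lib_helper56.TR8.XC.K

/-!
# Tables of pairs of sides, 25
-/

set_option autoImplicit false
set_option maxRecDepth 100000

namespace Pool.Agent.TR8.CI

theorem c32_33_4_0 : goP 40 k32_33 5500000 [⟨174, 146, 88, 0⟩] [⟨244, 218, 0, -74⟩]
    51506479378385899307476623728913 = true := by decide +kernel

theorem c32_33_4_1 : goP 40 k32_33 5500000 [⟨262, 146, 0, 30⟩] [⟨244, 218, 0, -74⟩]
    698656400 = true := by decide +kernel

theorem c32_33_4_2 : goP 40 k32_33 5500000 [⟨262, 176, -36, 36⟩] [⟨244, 218, 0, -74⟩]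
    52778425591734562391389921486916 = true := by decide +kernel

theorem c32_33_4_3 : goP 40 k32_33 5500000 [⟨226, 212, -52, 0⟩] [⟨244, 218, 0, -74⟩]
    12887935836417193744612862020 = true := by decide +kernel

theorem c32_33_4_4 : goP 40 k32_33 5500000 [⟨174, 212, 0, -66⟩] [⟨244, 218, 0, -74⟩]
    3299311647165125303333472609348 = true := by decide +kernel

theorem c32_34_0_0 : goP 40 k32_34 5500000 [⟨130, 142, 90, 0⟩] [⟨244, 144, 76, 0⟩]
    10401 = true := by decide +kernel

theorem c32_34_0_1 : goP 40 k32_34 5500000 [⟨220, 142, 0, 24⟩] [⟨244, 144, 76, 0⟩]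
    40 = true := by decide +kernel

theorem c32_34_0_2 : goP 40 k32_34 5500000 [⟨220, 166, -38, 38⟩] [⟨244, 144, 76, 0⟩]
    681190561 = true := by decide +kernel

theorem c32_34_0_3 : goP 40 k32_34 5500000 [⟨182, 204, -52, 0⟩] [⟨244, 144, 76, 0⟩]
    681681540 = true := by decide +kernel

theorem c32_34_0_4 : goP 40 k32_34 5500000 [⟨130, 204, 0, -62⟩] [⟨244, 144, 76, 0⟩]
    682125841 = true := by decide +kernel

theorem c32_34_1_0 : goP 40 k32_34 5500000 [⟨130, 142, 90, 0⟩] [⟨320, 144, 0, 38⟩]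
    41 = true := by decide +kernel

theorem c32_34_1_1 : goP 40 k32_34 5500000 [⟨220, 142, 0, 24⟩] [⟨320, 144, 0, 38⟩]
    2 = true := by decide +kernel

theorem c32_34_1_2 : goP 40 k32_34 5500000 [⟨220, 166, -38, 38⟩] [⟨320, 144, 0, 38⟩]
    10393 = true := by decide +kernel

end Pool.Agent.TR8.CI
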