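import Pool.Agent.Lib_helper56.TR8.XC.K

/-!
# Tables of pairs of sides, 26
-/

set_option autoImplicit false
set_option maxRecDepth 100000

namespace Pool.Agent.TR8.CI

theorem c32_34_1_3 : goP 40 k32_34 5500000 [⟨182, 204, -52, 0⟩] [⟨320, 144, 0, 38⟩]
    166497 = true := by decide +kernel

theorem c32_34_1_4 : goP 40 k32_34 5500000 [⟨130, 204, 0, -62⟩] [⟨320, 144, 0, 38⟩]
    10885 = true := by decide +kernel

theorem c32_34_2_0 : goP 40 k32_34 5500000 [⟨130, 142, 90, 0⟩] [⟨320, 182, -36, 36⟩]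
    10401 = true := by decide +kernel

theorem c32_34_2_1 : goP 40 k32_34 5500000 [⟨220, 142, 0, 24⟩] [⟨320, 182, -36, 36⟩]
    40 = true := by decide +kernel

theorem c32_34_2_2 : goP 40 k32_34 5500000 [⟨220, 166, -38, 38⟩] [⟨320, 182, -36, 36⟩]
    11983631092258869749393 = true := by decide +kernel

theorem c32_34_2_3 : goP 40 k32_34 5500000 [⟨182, 204, -52, 0⟩] [⟨320, 182, -36, 36⟩]
    13185638643925497950431566461803076 = true := by decide +kernel

theorem c32_34_2_4 : goP 40 k32_34 5500000 [⟨130, 204, 0, -62⟩] [⟨320, 182, -36, 36⟩]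
    174644816401 = true := by decide +kernel

theorem c32_34_3_0 : goP 40 k32_34 5500000 [⟨130, 142, 90, 0⟩] [⟨284, 218, -40, 0⟩]
    41 = true := by decide +kernel

theorem c32_34_3_1 : goP 40 k32_34 5500000 [⟨220, 142, 0, 24⟩] [⟨284, 218, -40, 0⟩]
    2 = true := by decide +kernel

theorem c32_34_3_2 : goP 40 k32_34 5500000 [⟨220, 166, -38, 38⟩] [⟨284, 218, -40, 0⟩]
    48756434189110811173 = true := by decide +kernel

theorem c32_34_3_3 : goP 40 k32_34 5500000 [⟨182, 204, -52, 0⟩] [⟨284, 218, -40, 0⟩]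
    824493331024352389387832278018321 = true := by decide +kernel

theorem c32_34_3_4 : goP 40 k32_34 5500000 [⟨130, 204, 0, -62⟩] [⟨284, 218, -40, 0⟩]
    2897632469317 = true := by decide +kernel

theorem c32_34_4_0 : goP 40 k32_34 5500000 [⟨130, 142, 90, 0⟩] [⟨244, 218, 0, -74⟩]
    10401 = true := by decide +kernel

theorem c32_34_4_1 : goP 40 k32_34 5500000 [⟨220, 142, 0, 24⟩] [⟨244, 218, 0, -74⟩]
    40 = true := by decide +kernel

end Pool.Agent.TR8.CI
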