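import Pool.Agent.Lib_helper56.TR8.XC.K

/-!
# Tables of pairs of sides, 27
-/

set_option autoImplicit false
set_option maxRecDepth 100000

namespace Pool.Agent.TR8.CI

theorem c32_34_4_2 : goP 40 k32_34 5500000 [⟨220, 166, -38, 38⟩] [⟨244, 218, 0, -74⟩]
    714298312116881 = true := by decide +kernel

theorem c32_34_4_3 : goP 40 k32_34 5500000 [⟨182, 204, -52, 0⟩] [⟨244, 218, 0, -74⟩]
    199714946569773865149508 = true := by decide +kernel

theorem c32_34_4_4 : goP 40 k32_34 5500000 [⟨130, 204, 0, -62⟩] [⟨244, 218, 0, -74⟩]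
    10914015505 = true := by decide +kernel

theorem c32_35_0_0 : goP 40 k32_35 5500000 [⟨96, 134, 92, 0⟩] [⟨244, 144, 76, 0⟩]
    41 = true := by decide +kernel

theorem c32_35_0_1 : goP 40 k32_35 5500000 [⟨188, 134, 0, 26⟩] [⟨244, 144, 76, 0⟩]
    2 = true := by decide +kernel

theorem c32_35_0_2 : goP 40 k32_35 5500000 [⟨188, 160, -34, 34⟩] [⟨244, 144, 76, 0⟩]
    681190561 = true := by decide +kernel

theorem c32_35_0_3 : goP 40 k32_35 5500000 [⟨154, 194, -58, 0⟩] [⟨244, 144, 76, 0⟩]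
    174510479940 = true := by decide +kernel

theorem c32_35_0_4 : goP 40 k32_35 5500000 [⟨96, 194, 0, -60⟩] [⟨244, 144, 76, 0⟩]
    173713 = true := by decide +kernel

theorem c32_35_1_0 : goP 40 k32_35 5500000 [⟨96, 134, 92, 0⟩] [⟨320, 144, 0, 38⟩]
    2 = true := by decide +kernel

theorem c32_35_1_1 : goP 40 k32_35 5500000 [⟨188, 134, 0, 26⟩] [⟨320, 144, 0, 38⟩]
    2 = true := by decide +kernel

theorem c32_35_1_2 : goP 40 k32_35 5500000 [⟨188, 160, -34, 34⟩] [⟨320, 144, 0, 38⟩]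
    665 = true := by decide +kernel

theorem c32_35_1_3 : goP 40 k32_35 5500000 [⟨154, 194, -58, 0⟩] [⟨320, 144, 0, 38⟩]
    10401 = true := by decide +kernel

theorem c32_35_1_4 : goP 40 k32_35 5500000 [⟨96, 194, 0, -60⟩] [⟨320, 144, 0, 38⟩]
    41 = true := by decide +kernel

theorem c32_35_2_0 : goP 40 k32_35 5500000 [⟨96, 134, 92, 0⟩] [⟨320, 182, -36, 36⟩]
    41 = true := by decide +kernel

theorem c32_35_2_1 : goP 40 k32_35 5500000 [⟨188, 134, 0, 26⟩] [⟨320, 182, -36, 36⟩]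
    40 = true := by decide +kernel

theorem c32_35_2_2 : goP 40 k32_35 5500000 [⟨188, 160, -34, 34⟩] [⟨320, 182, -36, 36⟩]
    681190561 = true := by decide +kernel

theorem c32_35_2_3 : goP 40 k32_35 5500000 [⟨154, 194, -58, 0⟩] [⟨320, 182, -36, 36⟩]
    174593254020 = true := by decide +kernel

theorem c32_35_2_4 : goP 40 k32_35 5500000 [⟨96, 194, 0, -60⟩] [⟨320, 182, -36, 36⟩]
    10849 = true := by decide +kernel

theorem c32_35_3_0 : goP 40 k32_35 5500000 [⟨96, 134, 92, 0⟩] [⟨284, 218, -40, 0⟩]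
    41 = true := by decide +kernel

theorem c32_35_3_1 : goP 40 k32_35 5500000 [⟨188, 134, 0, 26⟩] [⟨284, 218, -40, 0⟩]
    2 = true := by decide +kernel

theorem c32_35_3_2 : goP 40 k32_35 5500000 [⟨188, 160, -34, 34⟩] [⟨284, 218, -40, 0⟩]
    43557285 = true := by decide +kernel

theorem c32_35_3_3 : goP 40 k32_35 5500000 [⟨154, 194, -58, 0⟩] [⟨284, 218, -40, 0⟩]
    11178509969 = true := by decide +kernel

theorem c32_35_3_4 : goP 40 k32_35 5500000 [⟨96, 194, 0, -60⟩] [⟨284, 218, -40, 0⟩]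
    10885 = true := by decide +kernel

theorem c32_35_4_0 : goP 40 k32_35 5500000 [⟨96, 134, 92, 0⟩] [⟨244, 218, 0, -74⟩]
    41 = true := by decide +kernel

theorem c32_35_4_1 : goP 40 k32_35 5500000 [⟨188, 134, 0, 26⟩] [⟨244, 218, 0, -74⟩]
    2 = true := by decide +kernel

end Pool.Agent.TR8.CI
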