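import Pool.Agent.Lib_helper56.TR8.XC.K

/-!
# Tables of pairs of sides, 28
-/

set_option autoImplicit false
set_option maxRecDepth 100000

namespace Pool.Agent.TR8.CI

theorem c32_35_4_2 : goP 40 k32_35 5500000 [⟨188, 160, -34, 34⟩] [⟨244, 218, 0, -74⟩]
    10898515105 = true := by decide +kernel

theorem c32_35_4_3 : goP 40 k32_35 5500000 [⟨154, 194, -58, 0⟩] [⟨244, 218, 0, -74⟩]
    45778003466820 = true := by decide +kernel

theorem c32_35_4_4 : goP 40 k32_35 5500000 [⟨96, 194, 0, -60⟩] [⟨244, 218, 0, -74⟩]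
    10897 = true := by decide +kernel

theorem c32_41_0_0 : goP 40 k32_41 5500000 [⟨292, 62, 30, 0⟩] [⟨244, 144, 76, 0⟩]
    2 = true := by decide +kernel

theorem c32_41_0_1 : goP 40 k32_41 5500000 [⟨322, 62, 0, 30⟩] [⟨244, 144, 76, 0⟩]
    2660745 = true := by decide +kernel

theorem c32_41_0_2 : goP 40 k32_41 5500000 [⟨322, 92, -16, 16⟩] [⟨244, 144, 76, 0⟩]
    2729120 = true := by decide +kernel

theorem c32_41_0_3 : goP 40 k32_41 5500000 [⟨306, 108, -14, 0⟩] [⟨244, 144, 76, 0⟩]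
    10840 = true := by decide +kernel

theorem c32_41_0_4 : goP 40 k32_41 5500000 [⟨292, 108, 0, -46⟩] [⟨244, 144, 76, 0⟩]
    41 = true := by decide +kernel

theorem c32_41_1_0 : goP 40 k32_41 5500000 [⟨292, 62, 30, 0⟩] [⟨320, 144, 0, 38⟩]
    2 = true := by decide +kernel

theorem c32_41_1_1 : goP 40 k32_41 5500000 [⟨322, 62, 0, 30⟩] [⟨320, 144, 0, 38⟩]
    166297 = true := by decide +kernel

theorem c32_41_1_2 : goP 40 k32_41 5500000 [⟨322, 92, -16, 16⟩] [⟨320, 144, 0, 38⟩]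
    172452 = true := by decide +kernel

theorem c32_41_1_3 : goP 40 k32_41 5500000 [⟨306, 108, -14, 0⟩] [⟨320, 144, 0, 38⟩]
    10885 = true := by decide +kernel

theorem c32_41_1_4 : goP 40 k32_41 5500000 [⟨292, 108, 0, -46⟩] [⟨320, 144, 0, 38⟩]
    2 = true := by decide +kernel

theorem c32_41_2_0 : goP 40 k32_41 5500000 [⟨292, 62, 30, 0⟩] [⟨320, 182, -36, 36⟩]
    2 = true := by decide +kernel

theorem c32_41_2_1 : goP 40 k32_41 5500000 [⟨322, 62, 0, 30⟩] [⟨320, 182, -36, 36⟩]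
    10898515529 = true := by decide +kernel

theorem c32_41_2_2 : goP 40 k32_41 5500000 [⟨322, 92, -16, 16⟩] [⟨320, 182, -36, 36⟩]
    189611349872380432 = true := by decide +kernel

theorem c32_41_2_3 : goP 40 k32_41 5500000 [⟨306, 108, -14, 0⟩] [⟨320, 182, -36, 36⟩]
    713402900 = true := by decide +kernel

theorem c32_41_2_4 : goP 40 k32_41 5500000 [⟨292, 108, 0, -46⟩] [⟨320, 182, -36, 36⟩]
    677 = true := by decide +kernel

theorem c32_41_3_0 : goP 40 k32_41 5500000 [⟨292, 62, 30, 0⟩] [⟨284, 218, -40, 0⟩]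
    2 = true := by decide +kernel

theorem c32_41_3_1 : goP 40 k32_41 5500000 [⟨322, 62, 0, 30⟩] [⟨284, 218, -40, 0⟩]
    10393 = true := by decide +kernel

theorem c32_41_3_2 : goP 40 k32_41 5500000 [⟨322, 92, -16, 16⟩] [⟨284, 218, -40, 0⟩]
    2728580 = true := by decide +kernel

theorem c32_41_3_3 : goP 40 k32_41 5500000 [⟨306, 108, -14, 0⟩] [⟨284, 218, -40, 0⟩]
    673 = true := by decide +kernel

theorem c32_41_3_4 : goP 40 k32_41 5500000 [⟨292, 108, 0, -46⟩] [⟨284, 218, -40, 0⟩]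
    2 = true := by decide +kernel

theorem c32_41_4_0 : goP 40 k32_41 5500000 [⟨292, 62, 30, 0⟩] [⟨244, 218, 0, -74⟩]
    2 = true := by decide +kernel

theorem c32_41_4_1 : goP 40 k32_41 5500000 [⟨322, 62, 0, 30⟩] [⟨244, 218, 0, -74⟩]
    649 = true := by decide +kernel

theorem c32_41_4_2 : goP 40 k32_41 5500000 [⟨322, 92, -16, 16⟩] [⟨244, 218, 0, -74⟩]
    10400 = true := by decide +kernel

theorem c32_41_4_3 : goP 40 k32_41 5500000 [⟨306, 108, -14, 0⟩] [⟨244, 218, 0, -74⟩]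
    40 = true := by decide +kernel

theorem c32_41_4_4 : goP 40 k32_41 5500000 [⟨292, 108, 0, -46⟩] [⟨244, 218, 0, -74⟩]
    2 = true := by decide +kernel

theorem c32_42_0_0 : goP 40 k32_42 5500000 [⟨224, 90, 48, 0⟩] [⟨244, 144, 76, 0⟩]
    2 = true := by decide +kernel

theorem c32_42_0_1 : goP 40 k32_42 5500000 [⟨272, 90, 0, 36⟩] [⟨244, 144, 76, 0⟩]
    2 = true := by decide +kernel

theorem c32_42_0_2 : goP 40 k32_42 5500000 [⟨272, 126, -24, 24⟩] [⟨244, 144, 76, 0⟩]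
    2 = true := by decide +kernel

theorem c32_42_0_3 : goP 40 k32_42 5500000 [⟨248, 150, -24, 0⟩] [⟨244, 144, 76, 0⟩]
    2 = true := by decide +kernel

theorem c32_42_0_4 : goP 40 k32_42 5500000 [⟨224, 150, 0, -60⟩] [⟨244, 144, 76, 0⟩]
    2 = true := by decide +kernel

theorem c32_42_1_0 : goP 40 k32_42 5500000 [⟨224, 90, 48, 0⟩] [⟨320, 144, 0, 38⟩]
    2 = true := by decide +kernel

theorem c32_42_1_1 : goP 40 k32_42 5500000 [⟨272, 90, 0, 36⟩] [⟨320, 144, 0, 38⟩]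
    2 = true := by decide +kernel

end Pool.Agent.TR8.CI
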