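import Pool.Agent.Lib_helper56.TR8.XC.K

/-!
# Tables of pairs of sides, 29
-/

set_option autoImplicit false
set_option maxRecDepth 100000

namespace Pool.Agent.TR8.CI

theorem c32_42_1_2 : goP 40 k32_42 5500000 [⟨272, 126, -24, 24⟩] [⟨320, 144, 0, 38⟩]
    2 = true := by decide +kernel

theorem c32_42_1_3 : goP 40 k32_42 5500000 [⟨248, 150, -24, 0⟩] [⟨320, 144, 0, 38⟩]
    2 = true := by decide +kernel

theorem c32_42_1_4 : goP 40 k32_42 5500000 [⟨224, 150, 0, -60⟩] [⟨320, 144, 0, 38⟩]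
    2 = true := by decide +kernel

theorem c32_42_2_0 : goP 40 k32_42 5500000 [⟨224, 90, 48, 0⟩] [⟨320, 182, -36, 36⟩]
    2 = true := by decide +kernel

theorem c32_42_2_1 : goP 40 k32_42 5500000 [⟨272, 90, 0, 36⟩] [⟨320, 182, -36, 36⟩]
    2 = true := by decide +kernel

theorem c32_42_2_2 : goP 40 k32_42 5500000 [⟨272, 126, -24, 24⟩] [⟨320, 182, -36, 36⟩]
    40 = true := by decide +kernel

theorem c32_42_2_3 : goP 40 k32_42 5500000 [⟨248, 150, -24, 0⟩] [⟨320, 182, -36, 36⟩]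
    2 = true := by decide +kernel

theorem c32_42_2_4 : goP 40 k32_42 5500000 [⟨224, 150, 0, -60⟩] [⟨320, 182, -36, 36⟩]
    2 = true := by decide +kernel

theorem c32_42_3_0 : goP 40 k32_42 5500000 [⟨224, 90, 48, 0⟩] [⟨284, 218, -40, 0⟩]
    2 = true := by decide +kernel

theorem c32_42_3_1 : goP 40 k32_42 5500000 [⟨272, 90, 0, 36⟩] [⟨284, 218, -40, 0⟩]
    2 = true := by decide +kernel

theorem c32_42_3_2 : goP 40 k32_42 5500000 [⟨272, 126, -24, 24⟩] [⟨284, 218, -40, 0⟩]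
    2 = true := by decide +kernel

theorem c32_42_3_3 : goP 40 k32_42 5500000 [⟨248, 150, -24, 0⟩] [⟨284, 218, -40, 0⟩]
    2 = true := by decide +kernel

theorem c32_42_3_4 : goP 40 k32_42 5500000 [⟨224, 150, 0, -60⟩] [⟨284, 218, -40, 0⟩]
    2 = true := by decide +kernel

theorem c32_42_4_0 : goP 40 k32_42 5500000 [⟨224, 90, 48, 0⟩] [⟨244, 218, 0, -74⟩]
    2 = true := by decide +kernel

theorem c32_42_4_1 : goP 40 k32_42 5500000 [⟨272, 90, 0, 36⟩] [⟨244, 218, 0, -74⟩]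
    2 = true := by decide +kernel

theorem c32_42_4_2 : goP 40 k32_42 5500000 [⟨272, 126, -24, 24⟩] [⟨244, 218, 0, -74⟩]
    2 = true := by decide +kernel

theorem c32_42_4_3 : goP 40 k32_42 5500000 [⟨248, 150, -24, 0⟩] [⟨244, 218, 0, -74⟩]
    2 = true := by decide +kernel

theorem c32_42_4_4 : goP 40 k32_42 5500000 [⟨224, 150, 0, -60⟩] [⟨244, 218, 0, -74⟩]
    2 = true := by decide +kernel

theorem c32_R_0_0 : goP 40 k32_R 5500000 [⟨0, 0, 260, 0⟩] [⟨244, 144, 76, 0⟩]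
    3000706396230687301 = true := by decide +kernel

theorem c32_R_0_1 : goP 40 k32_R 5500000 [⟨260, 0, 0, 108⟩] [⟨244, 144, 76, 0⟩]
    2728580 = true := by decide +kernel

theorem c32_R_0_2 : goP 40 k32_R 5500000 [⟨260, 108, -74, 74⟩] [⟨244, 144, 76, 0⟩]
    45777986947601 = true := by decide +kernel

theorem c32_R_0_3 : goP 40 k32_R 5500000 [⟨186, 182, -116, 0⟩] [⟨244, 144, 76, 0⟩]
    45777986947601 = true := by decide +kernel

theorem c32_R_0_4 : goP 40 k32_R 5500000 [⟨70, 182, -70, -50⟩] [⟨244, 144, 76, 0⟩]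
    714281056635409 = true := by decide +kernel

theorem c32_R_0_5 : goP 40 k32_R 5500000 [⟨0, 132, 0, -132⟩] [⟨244, 144, 76, 0⟩]
    174561192465 = true := by decide +kernel

theorem c32_R_1_0 : goP 40 k32_R 5500000 [⟨0, 0, 260, 0⟩] [⟨320, 144, 0, 38⟩]
    44410517 = true := by decide +kernel

theorem c32_R_1_1 : goP 40 k32_R 5500000 [⟨260, 0, 0, 108⟩] [⟨320, 144, 0, 38⟩]
    41 = true := by decide +kernel

theorem c32_R_1_2 : goP 40 k32_R 5500000 [⟨260, 108, -74, 74⟩] [⟨320, 144, 0, 38⟩]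
    10661 = true := by decide +kernel

theorem c32_R_1_3 : goP 40 k32_R 5500000 [⟨186, 182, -116, 0⟩] [⟨320, 144, 0, 38⟩]
    10661 = true := by decide +kernel

theorem c32_R_1_4 : goP 40 k32_R 5500000 [⟨70, 182, -70, -50⟩] [⟨320, 144, 0, 38⟩]
    10661 = true := by decide +kernel

theorem c32_R_1_5 : goP 40 k32_R 5500000 [⟨0, 132, 0, -132⟩] [⟨320, 144, 0, 38⟩]
    10661 = true := by decide +kernel

end Pool.Agent.TR8.CI
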