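import Pool.Agent.Lib_helper56.TR8.XC.K

/-!
# Tables of pairs of sides, 30
-/

set_option autoImplicit false
set_option maxRecDepth 100000

namespace Pool.Agent.TR8.CI

theorem c32_R_2_0 : goP 40 k32_R 5500000 [⟨0, 0, 260, 0⟩] [⟨320, 182, -36, 36⟩]
    208482442949910059241700993093 = true := by decide +kernel

theorem c32_R_2_1 : goP 40 k32_R 5500000 [⟨260, 0, 0, 108⟩] [⟨320, 182, -36, 36⟩]
    2722337 = true := by decide +kernel

theorem c32_R_2_2 : goP 40 k32_R 5500000 [⟨260, 108, -74, 74⟩] [⟨320, 182, -36, 36⟩]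
    44674716960401 = true := by decide +kernel

theorem c32_R_2_3 : goP 40 k32_R 5500000 [⟨186, 182, -116, 0⟩] [⟨320, 182, -36, 36⟩]
    698656401 = true := by decide +kernel

theorem c32_R_2_4 : goP 40 k32_R 5500000 [⟨70, 182, -70, -50⟩] [⟨320, 182, -36, 36⟩]
    698656401 = true := by decide +kernel

theorem c32_R_2_5 : goP 40 k32_R 5500000 [⟨0, 132, 0, -132⟩] [⟨320, 182, -36, 36⟩]
    11436718450443921 = true := by decide +kernel

theorem c32_R_3_0 : goP 40 k32_R 5500000 [⟨0, 0, 260, 0⟩] [⟨284, 218, -40, 0⟩]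
    12260607052228929686037 = true := by decide +kernel

theorem c32_R_3_1 : goP 40 k32_R 5500000 [⟨260, 0, 0, 108⟩] [⟨284, 218, -40, 0⟩]
    698656401 = true := by decide +kernel

theorem c32_R_3_2 : goP 40 k32_R 5500000 [⟨260, 108, -74, 74⟩] [⟨284, 218, -40, 0⟩]
    45674320505221 = true := by decide +kernel

theorem c32_R_3_3 : goP 40 k32_R 5500000 [⟨186, 182, -116, 0⟩] [⟨284, 218, -40, 0⟩]
    681681541 = true := by decide +kernel

theorem c32_R_3_4 : goP 40 k32_R 5500000 [⟨70, 182, -70, -50⟩] [⟨284, 218, -40, 0⟩]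
    681681541 = true := by decide +kernel

theorem c32_R_3_5 : goP 40 k32_R 5500000 [⟨0, 132, 0, -132⟩] [⟨284, 218, -40, 0⟩]
    681681541 = true := by decide +kernel

end Pool.Agent.TR8.CI
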