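import Pool.Agent.Lib_helper56.TR8.XC.K

/-!
# Tables of pairs of sides, 31
-/

set_option autoImplicit false
set_option maxRecDepth 100000

namespace Pool.Agent.TR8.CI

theorem c32_R_4_0 : goP 40 k32_R 5500000 [⟨0, 0, 260, 0⟩] [⟨244, 218, 0, -74⟩]
    12885357809936888936758126661 = true := by decide +kernel

theorem c32_R_4_1 : goP 40 k32_R 5500000 [⟨260, 0, 0, 108⟩] [⟨244, 218, 0, -74⟩]
    2861124184641 = true := by decide +kernel

theorem c32_R_4_2 : goP 40 k32_R 5500000 [⟨260, 108, -74, 74⟩] [⟨244, 218, 0, -74⟩]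
    3000987815304923665 = true := by decide +kernel

theorem c32_R_4_3 : goP 40 k32_R 5500000 [⟨186, 182, -116, 0⟩] [⟨244, 218, 0, -74⟩]
    2862673725969 = true := by decide +kernel

theorem c32_R_4_4 : goP 40 k32_R 5500000 [⟨70, 182, -70, -50⟩] [⟨244, 218, 0, -74⟩]
    698656401 = true := by decide +kernel

theorem c32_R_4_5 : goP 40 k32_R 5500000 [⟨0, 132, 0, -132⟩] [⟨244, 218, 0, -74⟩]
    2861124184593 = true := by decide +kernel

theorem c33_33_0_0 : goP 40 k33_33 5500000 [⟨174, 146, 88, 0⟩] [⟨174, 146, 88, 0⟩]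
    11721509343233665 = true := by decide +kernel

theorem c33_33_0_1 : goP 40 k33_33 5500000 [⟨262, 146, 0, 30⟩] [⟨174, 146, 88, 0⟩]
    10400 = true := by decide +kernel

theorem c33_33_0_2 : goP 40 k33_33 5500000 [⟨262, 176, -36, 36⟩] [⟨174, 146, 88, 0⟩]
    3000706396230687300 = true := by decide +kernel

theorem c33_33_0_3 : goP 40 k33_33 5500000 [⟨226, 212, -52, 0⟩] [⟨174, 146, 88, 0⟩]
    10911588996 = true := by decide +kernel

theorem c33_33_0_4 : goP 40 k33_33 5500000 [⟨174, 212, 0, -66⟩] [⟨174, 146, 88, 0⟩]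
    681681540 = true := by decide +kernel

theorem c33_33_1_0 : goP 40 k33_33 5500000 [⟨174, 146, 88, 0⟩] [⟨262, 146, 0, 30⟩]
    10661 = true := by decide +kernel

theorem c33_33_1_1 : goP 40 k33_33 5500000 [⟨262, 146, 0, 30⟩] [⟨262, 146, 0, 30⟩]
    40 = true := by decide +kernel

theorem c33_33_1_2 : goP 40 k33_33 5500000 [⟨262, 176, -36, 36⟩] [⟨262, 146, 0, 30⟩]
    681681541 = true := by decide +kernel

end Pool.Agent.TR8.CI
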