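import Pool.Agent.Lib_helper56.TR8.XC.K

/-!
# Tables of pairs of sides, 32
-/

set_option autoImplicit false
set_option maxRecDepth 100000

namespace Pool.Agent.TR8.CI

theorem c33_33_1_3 : goP 40 k33_33 5500000 [⟨226, 212, -52, 0⟩] [⟨262, 146, 0, 30⟩]
    166497 = true := by decide +kernel

theorem c33_33_1_4 : goP 40 k33_33 5500000 [⟨174, 212, 0, -66⟩] [⟨262, 146, 0, 30⟩]
    677 = true := by decide +kernel

theorem c33_33_2_0 : goP 40 k33_33 5500000 [⟨174, 146, 88, 0⟩] [⟨262, 176, -36, 36⟩]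
    2927799923313642001 = true := by decide +kernel

theorem c33_33_2_1 : goP 40 k33_33 5500000 [⟨262, 146, 0, 30⟩] [⟨262, 176, -36, 36⟩]
    698656400 = true := by decide +kernel

theorem c33_33_2_2 : goP 40 k33_33 5500000 [⟨262, 176, -36, 36⟩] [⟨262, 176, -36, 36⟩]
    11996879143168692623940 = true := by decide +kernel

theorem c33_33_2_3 : goP 40 k33_33 5500000 [⟨226, 212, -52, 0⟩] [⟨262, 176, -36, 36⟩]
    3000706396230687300 = true := by decide +kernel

theorem c33_33_2_4 : goP 40 k33_33 5500000 [⟨174, 212, 0, -66⟩] [⟨262, 176, -36, 36⟩]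
    174593254020 = true := by decide +kernel

theorem c33_33_3_0 : goP 40 k33_33 5500000 [⟨174, 146, 88, 0⟩] [⟨226, 212, -52, 0⟩]
    178820261521 = true := by decide +kernel

theorem c33_33_3_1 : goP 40 k33_33 5500000 [⟨262, 146, 0, 30⟩] [⟨226, 212, -52, 0⟩]
    170532 = true := by decide +kernel

theorem c33_33_3_2 : goP 40 k33_33 5500000 [⟨262, 176, -36, 36⟩] [⟨226, 212, -52, 0⟩]
    2927799923313642001 = true := by decide +kernel

theorem c33_33_3_3 : goP 40 k33_33 5500000 [⟨226, 212, -52, 0⟩] [⟨226, 212, -52, 0⟩]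
    11437689682434625 = true := by decide +kernel

theorem c33_33_3_4 : goP 40 k33_33 5500000 [⟨174, 212, 0, -66⟩] [⟨226, 212, -52, 0⟩]
    698656401 = true := by decide +kernel

theorem c33_33_4_0 : goP 40 k33_33 5500000 [⟨174, 146, 88, 0⟩] [⟨174, 212, 0, -66⟩]
    698656401 = true := by decide +kernel

theorem c33_33_4_1 : goP 40 k33_33 5500000 [⟨262, 146, 0, 30⟩] [⟨174, 212, 0, -66⟩]
    672 = true := by decide +kernel

end Pool.Agent.TR8.CI
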