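import Pool.Agent.Lib_helper56.TR8.XC.K

/-!
# Tables of pairs of sides, 33
-/

set_option autoImplicit false
set_option maxRecDepth 100000

namespace Pool.Agent.TR8.CI

theorem c33_33_4_2 : goP 40 k33_33 5500000 [⟨262, 176, -36, 36⟩] [⟨174, 212, 0, -66⟩]
    2861124184209 = true := by decide +kernel

theorem c33_33_4_3 : goP 40 k33_33 5500000 [⟨226, 212, -52, 0⟩] [⟨174, 212, 0, -66⟩]
    681681540 = true := by decide +kernel

theorem c33_33_4_4 : goP 40 k33_33 5500000 [⟨174, 212, 0, -66⟩] [⟨174, 212, 0, -66⟩]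
    170628 = true := by decide +kernel

theorem c33_34_0_0 : goP 40 k33_34 5500000 [⟨130, 142, 90, 0⟩] [⟨174, 146, 88, 0⟩]
    41 = true := by decide +kernel

theorem c33_34_0_1 : goP 40 k33_34 5500000 [⟨220, 142, 0, 24⟩] [⟨174, 146, 88, 0⟩]
    2 = true := by decide +kernel

theorem c33_34_0_2 : goP 40 k33_34 5500000 [⟨220, 166, -38, 38⟩] [⟨174, 146, 88, 0⟩]
    2729121 = true := by decide +kernel

theorem c33_34_0_3 : goP 40 k33_34 5500000 [⟨182, 204, -52, 0⟩] [⟨174, 146, 88, 0⟩]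
    42605188 = true := by decide +kernel

theorem c33_34_0_4 : goP 40 k33_34 5500000 [⟨130, 204, 0, -62⟩] [⟨174, 146, 88, 0⟩]
    10401 = true := by decide +kernel

theorem c33_34_1_0 : goP 40 k33_34 5500000 [⟨130, 142, 90, 0⟩] [⟨262, 146, 0, 30⟩]
    2 = true := by decide +kernel

theorem c33_34_1_1 : goP 40 k33_34 5500000 [⟨220, 142, 0, 24⟩] [⟨262, 146, 0, 30⟩]
    2 = true := by decide +kernel

theorem c33_34_1_2 : goP 40 k33_34 5500000 [⟨220, 166, -38, 38⟩] [⟨262, 146, 0, 30⟩]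
    665 = true := by decide +kernel

theorem c33_34_1_3 : goP 40 k33_34 5500000 [⟨182, 204, -52, 0⟩] [⟨262, 146, 0, 30⟩]
    41 = true := by decide +kernel

theorem c33_34_1_4 : goP 40 k33_34 5500000 [⟨130, 204, 0, -62⟩] [⟨262, 146, 0, 30⟩]
    41 = true := by decide +kernel

theorem c33_34_2_0 : goP 40 k33_34 5500000 [⟨130, 142, 90, 0⟩] [⟨262, 176, -36, 36⟩]
    649 = true := by decide +kernel

theorem c33_34_2_1 : goP 40 k33_34 5500000 [⟨220, 142, 0, 24⟩] [⟨262, 176, -36, 36⟩]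
    40 = true := by decide +kernel

theorem c33_34_2_2 : goP 40 k33_34 5500000 [⟨220, 166, -38, 38⟩] [⟨262, 176, -36, 36⟩]
    10899049057 = true := by decide +kernel

theorem c33_34_2_3 : goP 40 k33_34 5500000 [⟨182, 204, -52, 0⟩] [⟨262, 176, -36, 36⟩]
    10911588996 = true := by decide +kernel

theorem c33_34_2_4 : goP 40 k33_34 5500000 [⟨130, 204, 0, -62⟩] [⟨262, 176, -36, 36⟩]
    2664081 = true := by decide +kernel

theorem c33_34_3_0 : goP 40 k33_34 5500000 [⟨130, 142, 90, 0⟩] [⟨226, 212, -52, 0⟩]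
    41 = true := by decide +kernel

theorem c33_34_3_1 : goP 40 k33_34 5500000 [⟨220, 142, 0, 24⟩] [⟨226, 212, -52, 0⟩]
    2 = true := by decide +kernel

theorem c33_34_3_2 : goP 40 k33_34 5500000 [⟨220, 166, -38, 38⟩] [⟨226, 212, -52, 0⟩]
    43672737 = true := by decide +kernel

theorem c33_34_3_3 : goP 40 k33_34 5500000 [⟨182, 204, -52, 0⟩] [⟨226, 212, -52, 0⟩]
    698656401 = true := by decide +kernel

theorem c33_34_3_4 : goP 40 k33_34 5500000 [⟨130, 204, 0, -62⟩] [⟨226, 212, -52, 0⟩]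
    10885 = true := by decide +kernel

theorem c33_34_4_0 : goP 40 k33_34 5500000 [⟨130, 142, 90, 0⟩] [⟨174, 212, 0, -66⟩]
    41 = true := by decide +kernel

theorem c33_34_4_1 : goP 40 k33_34 5500000 [⟨220, 142, 0, 24⟩] [⟨174, 212, 0, -66⟩]
    2 = true := by decide +kernel

theorem c33_34_4_2 : goP 40 k33_34 5500000 [⟨220, 166, -38, 38⟩] [⟨174, 212, 0, -66⟩]
    2729121 = true := by decide +kernel

theorem c33_34_4_3 : goP 40 k33_34 5500000 [⟨182, 204, -52, 0⟩] [⟨174, 212, 0, -66⟩]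
    170628 = true := by decide +kernel

theorem c33_34_4_4 : goP 40 k33_34 5500000 [⟨130, 204, 0, -62⟩] [⟨174, 212, 0, -66⟩]
    673 = true := by decide +kernel

theorem c33_35_0_0 : goP 40 k33_35 5500000 [⟨96, 134, 92, 0⟩] [⟨174, 146, 88, 0⟩]
    41 = true := by decide +kernel

theorem c33_35_0_1 : goP 40 k33_35 5500000 [⟨188, 134, 0, 26⟩] [⟨174, 146, 88, 0⟩]
    2 = true := by decide +kernel

theorem c33_35_0_2 : goP 40 k33_35 5500000 [⟨188, 160, -34, 34⟩] [⟨174, 146, 88, 0⟩]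
    681157220 = true := by decide +kernel

end Pool.Agent.TR8.CI
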