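import Pool.Agent.Lib_helper56.TR8.XC.K

/-!
# Tables of pairs of sides, 34
-/

set_option autoImplicit false
set_option maxRecDepth 100000

namespace Pool.Agent.TR8.CI

theorem c33_35_0_3 : goP 40 k33_35 5500000 [⟨154, 194, -58, 0⟩] [⟨174, 146, 88, 0⟩]
    681681540 = true := by decide +kernel

theorem c33_35_0_4 : goP 40 k33_35 5500000 [⟨96, 194, 0, -60⟩] [⟨174, 146, 88, 0⟩]
    673 = true := by decide +kernel

theorem c33_35_1_0 : goP 40 k33_35 5500000 [⟨96, 134, 92, 0⟩] [⟨262, 146, 0, 30⟩]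
    2 = true := by decide +kernel

theorem c33_35_1_1 : goP 40 k33_35 5500000 [⟨188, 134, 0, 26⟩] [⟨262, 146, 0, 30⟩]
    2 = true := by decide +kernel

theorem c33_35_1_2 : goP 40 k33_35 5500000 [⟨188, 160, -34, 34⟩] [⟨262, 146, 0, 30⟩]
    41 = true := by decide +kernel

theorem c33_35_1_3 : goP 40 k33_35 5500000 [⟨154, 194, -58, 0⟩] [⟨262, 146, 0, 30⟩]
    41 = true := by decide +kernel

theorem c33_35_1_4 : goP 40 k33_35 5500000 [⟨96, 194, 0, -60⟩] [⟨262, 146, 0, 30⟩]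
    2 = true := by decide +kernel

theorem c33_35_2_0 : goP 40 k33_35 5500000 [⟨96, 134, 92, 0⟩] [⟨262, 176, -36, 36⟩]
    41 = true := by decide +kernel

theorem c33_35_2_1 : goP 40 k33_35 5500000 [⟨188, 134, 0, 26⟩] [⟨262, 176, -36, 36⟩]
    2 = true := by decide +kernel

theorem c33_35_2_2 : goP 40 k33_35 5500000 [⟨188, 160, -34, 34⟩] [⟨262, 176, -36, 36⟩]
    42575009 = true := by decide +kernel

theorem c33_35_2_3 : goP 40 k33_35 5500000 [⟨154, 194, -58, 0⟩] [⟨262, 176, -36, 36⟩]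
    682121876 = true := by decide +kernel

theorem c33_35_2_4 : goP 40 k33_35 5500000 [⟨96, 194, 0, -60⟩] [⟨262, 176, -36, 36⟩]
    673 = true := by decide +kernel

theorem c33_35_3_0 : goP 40 k33_35 5500000 [⟨96, 134, 92, 0⟩] [⟨226, 212, -52, 0⟩]
    41 = true := by decide +kernel

theorem c33_35_3_1 : goP 40 k33_35 5500000 [⟨188, 134, 0, 26⟩] [⟨226, 212, -52, 0⟩]
    2 = true := by decide +kernel

theorem c33_35_3_2 : goP 40 k33_35 5500000 [⟨188, 160, -34, 34⟩] [⟨226, 212, -52, 0⟩]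
    2729121 = true := by decide +kernel

theorem c33_35_3_3 : goP 40 k33_35 5500000 [⟨154, 194, -58, 0⟩] [⟨226, 212, -52, 0⟩]
    2664081 = true := by decide +kernel

theorem c33_35_3_4 : goP 40 k33_35 5500000 [⟨96, 194, 0, -60⟩] [⟨226, 212, -52, 0⟩]
    10885 = true := by decide +kernel

theorem c33_35_4_0 : goP 40 k33_35 5500000 [⟨96, 134, 92, 0⟩] [⟨174, 212, 0, -66⟩]
    2 = true := by decide +kernel

theorem c33_35_4_1 : goP 40 k33_35 5500000 [⟨188, 134, 0, 26⟩] [⟨174, 212, 0, -66⟩]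
    2 = true := by decide +kernel

theorem c33_35_4_2 : goP 40 k33_35 5500000 [⟨188, 160, -34, 34⟩] [⟨174, 212, 0, -66⟩]
    2729121 = true := by decide +kernel

theorem c33_35_4_3 : goP 40 k33_35 5500000 [⟨154, 194, -58, 0⟩] [⟨174, 212, 0, -66⟩]
    2664081 = true := by decide +kernel

theorem c33_35_4_4 : goP 40 k33_35 5500000 [⟨96, 194, 0, -60⟩] [⟨174, 212, 0, -66⟩]
    10885 = true := by decide +kernel

theorem c33_41_0_0 : goP 40 k33_41 5500000 [⟨292, 62, 30, 0⟩] [⟨174, 146, 88, 0⟩]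
    2 = true := by decide +kernel

theorem c33_41_0_1 : goP 40 k33_41 5500000 [⟨322, 62, 0, 30⟩] [⟨174, 146, 88, 0⟩]
    649 = true := by decide +kernel

theorem c33_41_0_2 : goP 40 k33_41 5500000 [⟨322, 92, -16, 16⟩] [⟨174, 146, 88, 0⟩]
    648 = true := by decide +kernel

theorem c33_41_0_3 : goP 40 k33_41 5500000 [⟨306, 108, -14, 0⟩] [⟨174, 146, 88, 0⟩]
    40 = true := by decide +kernel

theorem c33_41_0_4 : goP 40 k33_41 5500000 [⟨292, 108, 0, -46⟩] [⟨174, 146, 88, 0⟩]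
    2 = true := by decide +kernel

theorem c33_41_1_0 : goP 40 k33_41 5500000 [⟨292, 62, 30, 0⟩] [⟨262, 146, 0, 30⟩]
    2 = true := by decide +kernel

theorem c33_41_1_1 : goP 40 k33_41 5500000 [⟨322, 62, 0, 30⟩] [⟨262, 146, 0, 30⟩]
    2 = true := by decide +kernel

theorem c33_41_1_2 : goP 40 k33_41 5500000 [⟨322, 92, -16, 16⟩] [⟨262, 146, 0, 30⟩]
    2 = true := by decide +kernel

theorem c33_41_1_3 : goP 40 k33_41 5500000 [⟨306, 108, -14, 0⟩] [⟨262, 146, 0, 30⟩]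
    2 = true := by decide +kernel

theorem c33_41_1_4 : goP 40 k33_41 5500000 [⟨292, 108, 0, -46⟩] [⟨262, 146, 0, 30⟩]
    2 = true := by decide +kernel

theorem c33_41_2_0 : goP 40 k33_41 5500000 [⟨292, 62, 30, 0⟩] [⟨262, 176, -36, 36⟩]
    2 = true := by decide +kernel

theorem c33_41_2_1 : goP 40 k33_41 5500000 [⟨322, 62, 0, 30⟩] [⟨262, 176, -36, 36⟩]
    649 = true := by decide +kernel

theorem c33_41_2_2 : goP 40 k33_41 5500000 [⟨322, 92, -16, 16⟩] [⟨262, 176, -36, 36⟩]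
    10400 = true := by decide +kernel

theorem c33_41_2_3 : goP 40 k33_41 5500000 [⟨306, 108, -14, 0⟩] [⟨262, 176, -36, 36⟩]
    40 = true := by decide +kernel

theorem c33_41_2_4 : goP 40 k33_41 5500000 [⟨292, 108, 0, -46⟩] [⟨262, 176, -36, 36⟩]
    2 = true := by decide +kernel

theorem c33_41_3_0 : goP 40 k33_41 5500000 [⟨292, 62, 30, 0⟩] [⟨226, 212, -52, 0⟩]
    2 = true := by decide +kernel

theorem c33_41_3_1 : goP 40 k33_41 5500000 [⟨322, 62, 0, 30⟩] [⟨226, 212, -52, 0⟩]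
    665 = true := by decide +kernel

theorem c33_41_3_2 : goP 40 k33_41 5500000 [⟨322, 92, -16, 16⟩] [⟨226, 212, -52, 0⟩]
    40 = true := by decide +kernel

theorem c33_41_3_3 : goP 40 k33_41 5500000 [⟨306, 108, -14, 0⟩] [⟨226, 212, -52, 0⟩]
    40 = true := by decide +kernel

theorem c33_41_3_4 : goP 40 k33_41 5500000 [⟨292, 108, 0, -46⟩] [⟨226, 212, -52, 0⟩]
    2 = true := by decide +kernel

theorem c33_41_4_0 : goP 40 k33_41 5500000 [⟨292, 62, 30, 0⟩] [⟨174, 212, 0, -66⟩]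
    2 = true := by decide +kernel

theorem c33_41_4_1 : goP 40 k33_41 5500000 [⟨322, 62, 0, 30⟩] [⟨174, 212, 0, -66⟩]
    2 = true := by decide +kernel

theorem c33_41_4_2 : goP 40 k33_41 5500000 [⟨322, 92, -16, 16⟩] [⟨174, 212, 0, -66⟩]
    2 = true := by decide +kernel

theorem c33_41_4_3 : goP 40 k33_41 5500000 [⟨306, 108, -14, 0⟩] [⟨174, 212, 0, -66⟩]
    2 = true := by decide +kernel

theorem c33_41_4_4 : goP 40 k33_41 5500000 [⟨292, 108, 0, -46⟩] [⟨174, 212, 0, -66⟩]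
    2 = true := by decide +kernel

theorem c33_42_0_0 : goP 40 k33_42 5500000 [⟨224, 90, 48, 0⟩] [⟨174, 146, 88, 0⟩]
    2 = true := by decide +kernel

end Pool.Agent.TR8.CI
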