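import Pool.Agent.Lib_helper56.TR8.XC.K

/-!
# Tables of pairs of sides, 35
-/

set_option autoImplicit false
set_option maxRecDepth 100000

namespace Pool.Agent.TR8.CI

theorem c33_42_0_1 : goP 40 k33_42 5500000 [⟨272, 90, 0, 36⟩] [⟨174, 146, 88, 0⟩]
    2 = true := by decide +kernel

theorem c33_42_0_2 : goP 40 k33_42 5500000 [⟨272, 126, -24, 24⟩] [⟨174, 146, 88, 0⟩]
    2 = true := by decide +kernel

theorem c33_42_0_3 : goP 40 k33_42 5500000 [⟨248, 150, -24, 0⟩] [⟨174, 146, 88, 0⟩]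
    2 = true := by decide +kernel

theorem c33_42_0_4 : goP 40 k33_42 5500000 [⟨224, 150, 0, -60⟩] [⟨174, 146, 88, 0⟩]
    2 = true := by decide +kernel

theorem c33_42_1_0 : goP 40 k33_42 5500000 [⟨224, 90, 48, 0⟩] [⟨262, 146, 0, 30⟩]
    2 = true := by decide +kernel

theorem c33_42_1_1 : goP 40 k33_42 5500000 [⟨272, 90, 0, 36⟩] [⟨262, 146, 0, 30⟩]
    2 = true := by decide +kernel

theorem c33_42_1_2 : goP 40 k33_42 5500000 [⟨272, 126, -24, 24⟩] [⟨262, 146, 0, 30⟩]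
    2 = true := by decide +kernel

theorem c33_42_1_3 : goP 40 k33_42 5500000 [⟨248, 150, -24, 0⟩] [⟨262, 146, 0, 30⟩]
    2 = true := by decide +kernel

theorem c33_42_1_4 : goP 40 k33_42 5500000 [⟨224, 150, 0, -60⟩] [⟨262, 146, 0, 30⟩]
    2 = true := by decide +kernel

theorem c33_42_2_0 : goP 40 k33_42 5500000 [⟨224, 90, 48, 0⟩] [⟨262, 176, -36, 36⟩]
    2 = true := by decide +kernel

theorem c33_42_2_1 : goP 40 k33_42 5500000 [⟨272, 90, 0, 36⟩] [⟨262, 176, -36, 36⟩]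
    2 = true := by decide +kernel

theorem c33_42_2_2 : goP 40 k33_42 5500000 [⟨272, 126, -24, 24⟩] [⟨262, 176, -36, 36⟩]
    2 = true := by decide +kernel

theorem c33_42_2_3 : goP 40 k33_42 5500000 [⟨248, 150, -24, 0⟩] [⟨262, 176, -36, 36⟩]
    2 = true := by decide +kernel

theorem c33_42_2_4 : goP 40 k33_42 5500000 [⟨224, 150, 0, -60⟩] [⟨262, 176, -36, 36⟩]
    2 = true := by decide +kernel

theorem c33_42_3_0 : goP 40 k33_42 5500000 [⟨224, 90, 48, 0⟩] [⟨226, 212, -52, 0⟩]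
    2 = true := by decide +kernel

theorem c33_42_3_1 : goP 40 k33_42 5500000 [⟨272, 90, 0, 36⟩] [⟨226, 212, -52, 0⟩]
    2 = true := by decide +kernel

theorem c33_42_3_2 : goP 40 k33_42 5500000 [⟨272, 126, -24, 24⟩] [⟨226, 212, -52, 0⟩]
    2 = true := by decide +kernel

theorem c33_42_3_3 : goP 40 k33_42 5500000 [⟨248, 150, -24, 0⟩] [⟨226, 212, -52, 0⟩]
    2 = true := by decide +kernel

theorem c33_42_3_4 : goP 40 k33_42 5500000 [⟨224, 150, 0, -60⟩] [⟨226, 212, -52, 0⟩]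
    2 = true := by decide +kernel

theorem c33_42_4_0 : goP 40 k33_42 5500000 [⟨224, 90, 48, 0⟩] [⟨174, 212, 0, -66⟩]
    2 = true := by decide +kernel

theorem c33_42_4_1 : goP 40 k33_42 5500000 [⟨272, 90, 0, 36⟩] [⟨174, 212, 0, -66⟩]
    2 = true := by decide +kernel

theorem c33_42_4_2 : goP 40 k33_42 5500000 [⟨272, 126, -24, 24⟩] [⟨174, 212, 0, -66⟩]
    2 = true := by decide +kernel

theorem c33_42_4_3 : goP 40 k33_42 5500000 [⟨248, 150, -24, 0⟩] [⟨174, 212, 0, -66⟩]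
    2 = true := by decide +kernel

theorem c33_42_4_4 : goP 40 k33_42 5500000 [⟨224, 150, 0, -60⟩] [⟨174, 212, 0, -66⟩]
    2 = true := by decide +kernel

theorem c33_R_0_0 : goP 40 k33_R 5500000 [⟨0, 0, 260, 0⟩] [⟨174, 146, 88, 0⟩]
    732594335027845 = true := by decide +kernel

theorem c33_R_0_1 : goP 40 k33_R 5500000 [⟨260, 0, 0, 108⟩] [⟨174, 146, 88, 0⟩]
    681218692 = true := by decide +kernel

theorem c33_R_0_2 : goP 40 k33_R 5500000 [⟨260, 108, -74, 74⟩] [⟨174, 146, 88, 0⟩]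
    11992298421341207022097 = true := by decide +kernel

theorem c33_R_0_3 : goP 40 k33_R 5500000 [⟨186, 182, -116, 0⟩] [⟨174, 146, 88, 0⟩]
    45802781575697 = true := by decide +kernel

theorem c33_R_0_4 : goP 40 k33_R 5500000 [⟨70, 182, -70, -50⟩] [⟨174, 146, 88, 0⟩]
    43558545 = true := by decide +kernel

theorem c33_R_0_5 : goP 40 k33_R 5500000 [⟨0, 132, 0, -132⟩] [⟨174, 146, 88, 0⟩]
    10401 = true := by decide +kernel

theorem c33_R_1_0 : goP 40 k33_R 5500000 [⟨0, 0, 260, 0⟩] [⟨262, 146, 0, 30⟩]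
    10661 = true := by decide +kernel

theorem c33_R_1_1 : goP 40 k33_R 5500000 [⟨260, 0, 0, 108⟩] [⟨262, 146, 0, 30⟩]
    41 = true := by decide +kernel

theorem c33_R_1_2 : goP 40 k33_R 5500000 [⟨260, 108, -74, 74⟩] [⟨262, 146, 0, 30⟩]
    10661 = true := by decide +kernel

theorem c33_R_1_3 : goP 40 k33_R 5500000 [⟨186, 182, -116, 0⟩] [⟨262, 146, 0, 30⟩]
    677 = true := by decide +kernel

theorem c33_R_1_4 : goP 40 k33_R 5500000 [⟨70, 182, -70, -50⟩] [⟨262, 146, 0, 30⟩]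
    41 = true := by decide +kernel

theorem c33_R_1_5 : goP 40 k33_R 5500000 [⟨0, 132, 0, -132⟩] [⟨262, 146, 0, 30⟩]
    41 = true := by decide +kernel

theorem c33_R_2_0 : goP 40 k33_R 5500000 [⟨0, 0, 260, 0⟩] [⟨262, 176, -36, 36⟩]
    732594335015557 = true := by decide +kernel

theorem c33_R_2_1 : goP 40 k33_R 5500000 [⟨260, 0, 0, 108⟩] [⟨262, 176, -36, 36⟩]
    681200225 = true := by decide +kernel

end Pool.Agent.TR8.CI
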