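import Pool.Agent.Lib_helper56.TR8.XC.K

/-!
# Tables of pairs of sides, 36
-/

set_option autoImplicit false
set_option maxRecDepth 100000

namespace Pool.Agent.TR8.CI

theorem c33_R_2_2 : goP 40 k33_R 5500000 [⟨260, 108, -74, 74⟩] [⟨262, 176, -36, 36⟩]
    2927799923313642001 = true := by decide +kernel

theorem c33_R_2_3 : goP 40 k33_R 5500000 [⟨186, 182, -116, 0⟩] [⟨262, 176, -36, 36⟩]
    11178509969 = true := by decide +kernel

theorem c33_R_2_4 : goP 40 k33_R 5500000 [⟨70, 182, -70, -50⟩] [⟨262, 176, -36, 36⟩]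
    166497 = true := by decide +kernel

theorem c33_R_2_5 : goP 40 k33_R 5500000 [⟨0, 132, 0, -132⟩] [⟨262, 176, -36, 36⟩]
    10401 = true := by decide +kernel

theorem c33_R_3_0 : goP 40 k33_R 5500000 [⟨0, 0, 260, 0⟩] [⟨226, 212, -52, 0⟩]
    768180706051059378325 = true := by decide +kernel

theorem c33_R_3_1 : goP 40 k33_R 5500000 [⟨260, 0, 0, 108⟩] [⟨226, 212, -52, 0⟩]
    187077103917893265 = true := by decide +kernel

theorem c33_R_3_2 : goP 40 k33_R 5500000 [⟨260, 108, -74, 74⟩] [⟨226, 212, -52, 0⟩]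
    13185649125343047228709231575475717 = true := by decide +kernel

theorem c33_R_3_3 : goP 40 k33_R 5500000 [⟨186, 182, -116, 0⟩] [⟨226, 212, -52, 0⟩]
    2792171412037 = true := by decide +kernel

theorem c33_R_3_4 : goP 40 k33_R 5500000 [⟨70, 182, -70, -50⟩] [⟨226, 212, -52, 0⟩]
    166497 = true := by decide +kernel

theorem c33_R_3_5 : goP 40 k33_R 5500000 [⟨0, 132, 0, -132⟩] [⟨226, 212, -52, 0⟩]
    10405 = true := by decide +kernel

theorem c33_R_4_0 : goP 40 k33_R 5500000 [⟨0, 0, 260, 0⟩] [⟨174, 212, 0, -66⟩]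
    187506634545336965 = true := by decide +kernel

theorem c33_R_4_1 : goP 40 k33_R 5500000 [⟨260, 0, 0, 108⟩] [⟨174, 212, 0, -66⟩]
    182863258890701329 = true := by decide +kernel

end Pool.Agent.TR8.CI
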