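import Pool.Agent.Lib_helper56.TR8.XC.K

/-!
# Tables of pairs of sides, 37
-/

set_option autoImplicit false
set_option maxRecDepth 100000

namespace Pool.Agent.TR8.CI

theorem c33_R_4_2 : goP 40 k33_R 5500000 [⟨260, 108, -74, 74⟩] [⟨174, 212, 0, -66⟩]
    216313970862283883586452553007145233 = true := by decide +kernel

theorem c33_R_4_3 : goP 40 k33_R 5500000 [⟨186, 182, -116, 0⟩] [⟨174, 212, 0, -66⟩]
    2792174557765 = true := by decide +kernel

theorem c33_R_4_4 : goP 40 k33_R 5500000 [⟨70, 182, -70, -50⟩] [⟨174, 212, 0, -66⟩]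
    166545 = true := by decide +kernel

theorem c33_R_4_5 : goP 40 k33_R 5500000 [⟨0, 132, 0, -132⟩] [⟨174, 212, 0, -66⟩]
    673 = true := by decide +kernel

theorem c34_34_0_0 : goP 40 k34_34 5500000 [⟨130, 142, 90, 0⟩] [⟨130, 142, 90, 0⟩]
    2 = true := by decide +kernel

theorem c34_34_0_1 : goP 40 k34_34 5500000 [⟨220, 142, 0, 24⟩] [⟨130, 142, 90, 0⟩]
    2 = true := by decide +kernel

theorem c34_34_0_2 : goP 40 k34_34 5500000 [⟨220, 166, -38, 38⟩] [⟨130, 142, 90, 0⟩]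
    41 = true := by decide +kernel

theorem c34_34_0_3 : goP 40 k34_34 5500000 [⟨182, 204, -52, 0⟩] [⟨130, 142, 90, 0⟩]
    40 = true := by decide +kernel

theorem c34_34_0_4 : goP 40 k34_34 5500000 [⟨130, 204, 0, -62⟩] [⟨130, 142, 90, 0⟩]
    2 = true := by decide +kernel

theorem c34_34_1_0 : goP 40 k34_34 5500000 [⟨130, 142, 90, 0⟩] [⟨220, 142, 0, 24⟩]
    2 = true := by decide +kernel

theorem c34_34_1_1 : goP 40 k34_34 5500000 [⟨220, 142, 0, 24⟩] [⟨220, 142, 0, 24⟩]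
    2 = true := by decide +kernel

theorem c34_34_1_2 : goP 40 k34_34 5500000 [⟨220, 166, -38, 38⟩] [⟨220, 142, 0, 24⟩]
    2 = true := by decide +kernel

theorem c34_34_1_3 : goP 40 k34_34 5500000 [⟨182, 204, -52, 0⟩] [⟨220, 142, 0, 24⟩]
    2 = true := by decide +kernel

theorem c34_34_1_4 : goP 40 k34_34 5500000 [⟨130, 204, 0, -62⟩] [⟨220, 142, 0, 24⟩]
    2 = true := by decide +kernel

theorem c34_34_2_0 : goP 40 k34_34 5500000 [⟨130, 142, 90, 0⟩] [⟨220, 166, -38, 38⟩]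
    40 = true := by decide +kernel

theorem c34_34_2_1 : goP 40 k34_34 5500000 [⟨220, 142, 0, 24⟩] [⟨220, 166, -38, 38⟩]
    2 = true := by decide +kernel

theorem c34_34_2_2 : goP 40 k34_34 5500000 [⟨220, 166, -38, 38⟩] [⟨220, 166, -38, 38⟩]
    166308 = true := by decide +kernel

theorem c34_34_2_3 : goP 40 k34_34 5500000 [⟨182, 204, -52, 0⟩] [⟨220, 166, -38, 38⟩]
    2662820 = true := by decide +kernel

theorem c34_34_2_4 : goP 40 k34_34 5500000 [⟨130, 204, 0, -62⟩] [⟨220, 166, -38, 38⟩]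
    664 = true := by decide +kernel

theorem c34_34_3_0 : goP 40 k34_34 5500000 [⟨130, 142, 90, 0⟩] [⟨182, 204, -52, 0⟩]
    41 = true := by decide +kernel

theorem c34_34_3_1 : goP 40 k34_34 5500000 [⟨220, 142, 0, 24⟩] [⟨182, 204, -52, 0⟩]
    2 = true := by decide +kernel

theorem c34_34_3_2 : goP 40 k34_34 5500000 [⟨220, 166, -38, 38⟩] [⟨182, 204, -52, 0⟩]
    2729121 = true := by decide +kernel

theorem c34_34_3_3 : goP 40 k34_34 5500000 [⟨182, 204, -52, 0⟩] [⟨182, 204, -52, 0⟩]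
    10401 = true := by decide +kernel

theorem c34_34_3_4 : goP 40 k34_34 5500000 [⟨130, 204, 0, -62⟩] [⟨182, 204, -52, 0⟩]
    10885 = true := by decide +kernel

theorem c34_34_4_0 : goP 40 k34_34 5500000 [⟨130, 142, 90, 0⟩] [⟨130, 204, 0, -62⟩]
    2 = true := by decide +kernel

theorem c34_34_4_1 : goP 40 k34_34 5500000 [⟨220, 142, 0, 24⟩] [⟨130, 204, 0, -62⟩]
    2 = true := by decide +kernel

theorem c34_34_4_2 : goP 40 k34_34 5500000 [⟨220, 166, -38, 38⟩] [⟨130, 204, 0, -62⟩]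
    676 = true := by decide +kernel

theorem c34_34_4_3 : goP 40 k34_34 5500000 [⟨182, 204, -52, 0⟩] [⟨130, 204, 0, -62⟩]
    672 = true := by decide +kernel

theorem c34_34_4_4 : goP 40 k34_34 5500000 [⟨130, 204, 0, -62⟩] [⟨130, 204, 0, -62⟩]
    676 = true := by decide +kernel

theorem c34_35_0_0 : goP 40 k34_35 5500000 [⟨96, 134, 92, 0⟩] [⟨130, 142, 90, 0⟩]
    2 = true := by decide +kernel

theorem c34_35_0_1 : goP 40 k34_35 5500000 [⟨188, 134, 0, 26⟩] [⟨130, 142, 90, 0⟩]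
    2 = true := by decide +kernel

theorem c34_35_0_2 : goP 40 k34_35 5500000 [⟨188, 160, -34, 34⟩] [⟨130, 142, 90, 0⟩]
    41 = true := by decide +kernel

theorem c34_35_0_3 : goP 40 k34_35 5500000 [⟨154, 194, -58, 0⟩] [⟨130, 142, 90, 0⟩]
    40 = true := by decide +kernel

theorem c34_35_0_4 : goP 40 k34_35 5500000 [⟨96, 194, 0, -60⟩] [⟨130, 142, 90, 0⟩]
    2 = true := by decide +kernel

theorem c34_35_1_0 : goP 40 k34_35 5500000 [⟨96, 134, 92, 0⟩] [⟨220, 142, 0, 24⟩]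
    2 = true := by decide +kernel

theorem c34_35_1_1 : goP 40 k34_35 5500000 [⟨188, 134, 0, 26⟩] [⟨220, 142, 0, 24⟩]
    2 = true := by decide +kernel

theorem c34_35_1_2 : goP 40 k34_35 5500000 [⟨188, 160, -34, 34⟩] [⟨220, 142, 0, 24⟩]
    2 = true := by decide +kernel

theorem c34_35_1_3 : goP 40 k34_35 5500000 [⟨154, 194, -58, 0⟩] [⟨220, 142, 0, 24⟩]
    2 = true := by decide +kernel

theorem c34_35_1_4 : goP 40 k34_35 5500000 [⟨96, 194, 0, -60⟩] [⟨220, 142, 0, 24⟩]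
    2 = true := by decide +kernel

theorem c34_35_2_0 : goP 40 k34_35 5500000 [⟨96, 134, 92, 0⟩] [⟨220, 166, -38, 38⟩]
    41 = true := by decide +kernel

theorem c34_35_2_1 : goP 40 k34_35 5500000 [⟨188, 134, 0, 26⟩] [⟨220, 166, -38, 38⟩]
    2 = true := by decide +kernel

end Pool.Agent.TR8.CI
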