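import Pool.Agent.Lib_helper56.TR8.XC.K

/-!
# Tables of pairs of sides, 38
-/

set_option autoImplicit false
set_option maxRecDepth 100000

namespace Pool.Agent.TR8.CI

theorem c34_35_2_2 : goP 40 k34_35 5500000 [⟨188, 160, -34, 34⟩] [⟨220, 166, -38, 38⟩]
    2660772 = true := by decide +kernel

theorem c34_35_2_3 : goP 40 k34_35 5500000 [⟨154, 194, -58, 0⟩] [⟨220, 166, -38, 38⟩]
    2662820 = true := by decide +kernel

theorem c34_35_2_4 : goP 40 k34_35 5500000 [⟨96, 194, 0, -60⟩] [⟨220, 166, -38, 38⟩]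
    673 = true := by decide +kernel

theorem c34_35_3_0 : goP 40 k34_35 5500000 [⟨96, 134, 92, 0⟩] [⟨182, 204, -52, 0⟩]
    2 = true := by decide +kernel

theorem c34_35_3_1 : goP 40 k34_35 5500000 [⟨188, 134, 0, 26⟩] [⟨182, 204, -52, 0⟩]
    2 = true := by decide +kernel

theorem c34_35_3_2 : goP 40 k34_35 5500000 [⟨188, 160, -34, 34⟩] [⟨182, 204, -52, 0⟩]
    170569 = true := by decide +kernel

theorem c34_35_3_3 : goP 40 k34_35 5500000 [⟨154, 194, -58, 0⟩] [⟨182, 204, -52, 0⟩]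
    2664081 = true := by decide +kernel

theorem c34_35_3_4 : goP 40 k34_35 5500000 [⟨96, 194, 0, -60⟩] [⟨182, 204, -52, 0⟩]
    677 = true := by decide +kernel

theorem c34_35_4_0 : goP 40 k34_35 5500000 [⟨96, 134, 92, 0⟩] [⟨130, 204, 0, -62⟩]
    2 = true := by decide +kernel

theorem c34_35_4_1 : goP 40 k34_35 5500000 [⟨188, 134, 0, 26⟩] [⟨130, 204, 0, -62⟩]
    2 = true := by decide +kernel

theorem c34_35_4_2 : goP 40 k34_35 5500000 [⟨188, 160, -34, 34⟩] [⟨130, 204, 0, -62⟩]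
    10761 = true := by decide +kernel

theorem c34_35_4_3 : goP 40 k34_35 5500000 [⟨154, 194, -58, 0⟩] [⟨130, 204, 0, -62⟩]
    10884 = true := by decide +kernel

theorem c34_35_4_4 : goP 40 k34_35 5500000 [⟨96, 194, 0, -60⟩] [⟨130, 204, 0, -62⟩]
    41 = true := by decide +kernel

theorem c34_41_0_0 : goP 40 k34_41 5500000 [⟨292, 62, 30, 0⟩] [⟨130, 142, 90, 0⟩]
    2 = true := by decide +kernel

theorem c34_41_0_1 : goP 40 k34_41 5500000 [⟨322, 62, 0, 30⟩] [⟨130, 142, 90, 0⟩]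
    2 = true := by decide +kernel

theorem c34_41_0_2 : goP 40 k34_41 5500000 [⟨322, 92, -16, 16⟩] [⟨130, 142, 90, 0⟩]
    2 = true := by decide +kernel

theorem c34_41_0_3 : goP 40 k34_41 5500000 [⟨306, 108, -14, 0⟩] [⟨130, 142, 90, 0⟩]
    2 = true := by decide +kernel

theorem c34_41_0_4 : goP 40 k34_41 5500000 [⟨292, 108, 0, -46⟩] [⟨130, 142, 90, 0⟩]
    2 = true := by decide +kernel

theorem c34_41_1_0 : goP 40 k34_41 5500000 [⟨292, 62, 30, 0⟩] [⟨220, 142, 0, 24⟩]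
    2 = true := by decide +kernel

theorem c34_41_1_1 : goP 40 k34_41 5500000 [⟨322, 62, 0, 30⟩] [⟨220, 142, 0, 24⟩]
    2 = true := by decide +kernel

theorem c34_41_1_2 : goP 40 k34_41 5500000 [⟨322, 92, -16, 16⟩] [⟨220, 142, 0, 24⟩]
    2 = true := by decide +kernel

theorem c34_41_1_3 : goP 40 k34_41 5500000 [⟨306, 108, -14, 0⟩] [⟨220, 142, 0, 24⟩]
    2 = true := by decide +kernel

theorem c34_41_1_4 : goP 40 k34_41 5500000 [⟨292, 108, 0, -46⟩] [⟨220, 142, 0, 24⟩]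
    2 = true := by decide +kernel

theorem c34_41_2_0 : goP 40 k34_41 5500000 [⟨292, 62, 30, 0⟩] [⟨220, 166, -38, 38⟩]
    2 = true := by decide +kernel

theorem c34_41_2_1 : goP 40 k34_41 5500000 [⟨322, 62, 0, 30⟩] [⟨220, 166, -38, 38⟩]
    2 = true := by decide +kernel

theorem c34_41_2_2 : goP 40 k34_41 5500000 [⟨322, 92, -16, 16⟩] [⟨220, 166, -38, 38⟩]
    40 = true := by decide +kernel

theorem c34_41_2_3 : goP 40 k34_41 5500000 [⟨306, 108, -14, 0⟩] [⟨220, 166, -38, 38⟩]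
    2 = true := by decide +kernel

theorem c34_41_2_4 : goP 40 k34_41 5500000 [⟨292, 108, 0, -46⟩] [⟨220, 166, -38, 38⟩]
    2 = true := by decide +kernel

theorem c34_41_3_0 : goP 40 k34_41 5500000 [⟨292, 62, 30, 0⟩] [⟨182, 204, -52, 0⟩]
    2 = true := by decide +kernel

theorem c34_41_3_1 : goP 40 k34_41 5500000 [⟨322, 62, 0, 30⟩] [⟨182, 204, -52, 0⟩]
    2 = true := by decide +kernel

theorem c34_41_3_2 : goP 40 k34_41 5500000 [⟨322, 92, -16, 16⟩] [⟨182, 204, -52, 0⟩]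
    2 = true := by decide +kernel

theorem c34_41_3_3 : goP 40 k34_41 5500000 [⟨306, 108, -14, 0⟩] [⟨182, 204, -52, 0⟩]
    2 = true := by decide +kernel

theorem c34_41_3_4 : goP 40 k34_41 5500000 [⟨292, 108, 0, -46⟩] [⟨182, 204, -52, 0⟩]
    2 = true := by decide +kernel

theorem c34_41_4_0 : goP 40 k34_41 5500000 [⟨292, 62, 30, 0⟩] [⟨130, 204, 0, -62⟩]
    2 = true := by decide +kernel

theorem c34_41_4_1 : goP 40 k34_41 5500000 [⟨322, 62, 0, 30⟩] [⟨130, 204, 0, -62⟩]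
    2 = true := by decide +kernel

theorem c34_41_4_2 : goP 40 k34_41 5500000 [⟨322, 92, -16, 16⟩] [⟨130, 204, 0, -62⟩]
    2 = true := by decide +kernel

theorem c34_41_4_3 : goP 40 k34_41 5500000 [⟨306, 108, -14, 0⟩] [⟨130, 204, 0, -62⟩]
    2 = true := by decide +kernel

theorem c34_41_4_4 : goP 40 k34_41 5500000 [⟨292, 108, 0, -46⟩] [⟨130, 204, 0, -62⟩]
    2 = true := by decide +kernel

theorem c34_42_0_0 : goP 40 k34_42 5500000 [⟨224, 90, 48, 0⟩] [⟨130, 142, 90, 0⟩]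
    2 = true := by decide +kernel

theorem c34_42_0_1 : goP 40 k34_42 5500000 [⟨272, 90, 0, 36⟩] [⟨130, 142, 90, 0⟩]
    2 = true := by decide +kernel

theorem c34_42_0_2 : goP 40 k34_42 5500000 [⟨272, 126, -24, 24⟩] [⟨130, 142, 90, 0⟩]
    2 = true := by decide +kernel

theorem c34_42_0_3 : goP 40 k34_42 5500000 [⟨248, 150, -24, 0⟩] [⟨130, 142, 90, 0⟩]
    2 = true := by decide +kernel

theorem c34_42_0_4 : goP 40 k34_42 5500000 [⟨224, 150, 0, -60⟩] [⟨130, 142, 90, 0⟩]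
    2 = true := by decide +kernel

theorem c34_42_1_0 : goP 40 k34_42 5500000 [⟨224, 90, 48, 0⟩] [⟨220, 142, 0, 24⟩]
    2 = true := by decide +kernel

theorem c34_42_1_1 : goP 40 k34_42 5500000 [⟨272, 90, 0, 36⟩] [⟨220, 142, 0, 24⟩]
    2 = true := by decide +kernel

theorem c34_42_1_2 : goP 40 k34_42 5500000 [⟨272, 126, -24, 24⟩] [⟨220, 142, 0, 24⟩]
    2 = true := by decide +kernel

theorem c34_42_1_3 : goP 40 k34_42 5500000 [⟨248, 150, -24, 0⟩] [⟨220, 142, 0, 24⟩]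
    2 = true := by decide +kernel

theorem c34_42_1_4 : goP 40 k34_42 5500000 [⟨224, 150, 0, -60⟩] [⟨220, 142, 0, 24⟩]
    2 = true := by decide +kernel

theorem c34_42_2_0 : goP 40 k34_42 5500000 [⟨224, 90, 48, 0⟩] [⟨220, 166, -38, 38⟩]
    2 = true := by decide +kernel

theorem c34_42_2_1 : goP 40 k34_42 5500000 [⟨272, 90, 0, 36⟩] [⟨220, 166, -38, 38⟩]
    2 = true := by decide +kernel

theorem c34_42_2_2 : goP 40 k34_42 5500000 [⟨272, 126, -24, 24⟩] [⟨220, 166, -38, 38⟩]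
    2 = true := by decide +kernel

theorem c34_42_2_3 : goP 40 k34_42 5500000 [⟨248, 150, -24, 0⟩] [⟨220, 166, -38, 38⟩]
    2 = true := by decide +kernel

theorem c34_42_2_4 : goP 40 k34_42 5500000 [⟨224, 150, 0, -60⟩] [⟨220, 166, -38, 38⟩]
    2 = true := by decide +kernel

theorem c34_42_3_0 : goP 40 k34_42 5500000 [⟨224, 90, 48, 0⟩] [⟨182, 204, -52, 0⟩]
    2 = true := by decide +kernel

theorem c34_42_3_1 : goP 40 k34_42 5500000 [⟨272, 90, 0, 36⟩] [⟨182, 204, -52, 0⟩]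
    2 = true := by decide +kernel

theorem c34_42_3_2 : goP 40 k34_42 5500000 [⟨272, 126, -24, 24⟩] [⟨182, 204, -52, 0⟩]
    2 = true := by decide +kernel

theorem c34_42_3_3 : goP 40 k34_42 5500000 [⟨248, 150, -24, 0⟩] [⟨182, 204, -52, 0⟩]
    2 = true := by decide +kernel

theorem c34_42_3_4 : goP 40 k34_42 5500000 [⟨224, 150, 0, -60⟩] [⟨182, 204, -52, 0⟩]
    2 = true := by decide +kernel

theorem c34_42_4_0 : goP 40 k34_42 5500000 [⟨224, 90, 48, 0⟩] [⟨130, 204, 0, -62⟩]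
    2 = true := by decide +kernel

theorem c34_42_4_1 : goP 40 k34_42 5500000 [⟨272, 90, 0, 36⟩] [⟨130, 204, 0, -62⟩]
    2 = true := by decide +kernel

theorem c34_42_4_2 : goP 40 k34_42 5500000 [⟨272, 126, -24, 24⟩] [⟨130, 204, 0, -62⟩]
    2 = true := by decide +kernel

theorem c34_42_4_3 : goP 40 k34_42 5500000 [⟨248, 150, -24, 0⟩] [⟨130, 204, 0, -62⟩]
    2 = true := by decide +kernel

theorem c34_42_4_4 : goP 40 k34_42 5500000 [⟨224, 150, 0, -60⟩] [⟨130, 204, 0, -62⟩]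
    2 = true := by decide +kernel

theorem c34_R_0_0 : goP 40 k34_R 5500000 [⟨0, 0, 260, 0⟩] [⟨130, 142, 90, 0⟩]
    10661 = true := by decide +kernel

theorem c34_R_0_1 : goP 40 k34_R 5500000 [⟨260, 0, 0, 108⟩] [⟨130, 142, 90, 0⟩]
    41 = true := by decide +kernel

end Pool.Agent.TR8.CI
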