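import Pool.Agent.Lib_helper56.TR8.XC.K

/-!
# Tables of pairs of sides, 39
-/

set_option autoImplicit false
set_option maxRecDepth 100000

namespace Pool.Agent.TR8.CI

theorem c34_R_0_2 : goP 40 k34_R 5500000 [⟨260, 108, -74, 74⟩] [⟨130, 142, 90, 0⟩]
    10401 = true := by decide +kernel

theorem c34_R_0_3 : goP 40 k34_R 5500000 [⟨186, 182, -116, 0⟩] [⟨130, 142, 90, 0⟩]
    10401 = true := by decide +kernel

theorem c34_R_0_4 : goP 40 k34_R 5500000 [⟨70, 182, -70, -50⟩] [⟨130, 142, 90, 0⟩]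
    673 = true := by decide +kernel

theorem c34_R_0_5 : goP 40 k34_R 5500000 [⟨0, 132, 0, -132⟩] [⟨130, 142, 90, 0⟩]
    2 = true := by decide +kernel

theorem c34_R_1_0 : goP 40 k34_R 5500000 [⟨0, 0, 260, 0⟩] [⟨220, 142, 0, 24⟩]
    41 = true := by decide +kernel

theorem c34_R_1_1 : goP 40 k34_R 5500000 [⟨260, 0, 0, 108⟩] [⟨220, 142, 0, 24⟩]
    2 = true := by decide +kernel

theorem c34_R_1_2 : goP 40 k34_R 5500000 [⟨260, 108, -74, 74⟩] [⟨220, 142, 0, 24⟩]
    41 = true := by decide +kernel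

theorem c34_R_1_3 : goP 40 k34_R 5500000 [⟨186, 182, -116, 0⟩] [⟨220, 142, 0, 24⟩]
    41 = true := by decide +kernel

theorem c34_R_1_4 : goP 40 k34_R 5500000 [⟨70, 182, -70, -50⟩] [⟨220, 142, 0, 24⟩]
    2 = true := by decide +kernel

theorem c34_R_1_5 : goP 40 k34_R 5500000 [⟨0, 132, 0, -132⟩] [⟨220, 142, 0, 24⟩]
    2 = true := by decide +kernel

theorem c34_R_2_0 : goP 40 k34_R 5500000 [⟨0, 0, 260, 0⟩] [⟨220, 166, -38, 38⟩]
    178415313541 = true := by decide +kernel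

theorem c34_R_2_1 : goP 40 k34_R 5500000 [⟨260, 0, 0, 108⟩] [⟨220, 166, -38, 38⟩]
    43557284 = true := by decide +kernel

theorem c34_R_2_2 : goP 40 k34_R 5500000 [⟨260, 108, -74, 74⟩] [⟨220, 166, -38, 38⟩]
    187077618332501649 = true := by decide +kernel

theorem c34_R_2_3 : goP 40 k34_R 5500000 [⟨186, 182, -116, 0⟩] [⟨220, 166, -38, 38⟩]
    11150722705 = true := by decide +kernel

theorem c34_R_2_4 : goP 40 k34_R 5500000 [⟨70, 182, -70, -50⟩] [⟨220, 166, -38, 38⟩]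
    10401 = true := by decide +kernel

theorem c34_R_2_5 : goP 40 k34_R 5500000 [⟨0, 132, 0, -132⟩] [⟨220, 166, -38, 38⟩]
    10401 = true := by decide +kernel

theorem c34_R_3_0 : goP 40 k34_R 5500000 [⟨0, 0, 260, 0⟩] [⟨182, 204, -52, 0⟩]
    2792167594597 = true := by decide +kernel

theorem c34_R_3_1 : goP 40 k34_R 5500000 [⟨260, 0, 0, 108⟩] [⟨182, 204, -52, 0⟩]
    45673120835217 = true := by decide +kernel

theorem c34_R_3_2 : goP 40 k34_R 5500000 [⟨260, 108, -74, 74⟩] [⟨182, 204, -52, 0⟩]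
    231440063677830065733407813031495544933640202501 = true := by decide +kernel

end Pool.Agent.TR8.CI
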