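import Pool.Agent.Lib_helper56.TR8.XC.K

/-!
# Tables of pairs of sides, 40
-/

set_option autoImplicit false
set_option maxRecDepth 100000

namespace Pool.Agent.TR8.CI

theorem c34_R_3_3 : goP 40 k34_R 5500000 [⟨186, 182, -116, 0⟩] [⟨182, 204, -52, 0⟩]
    11436735863593541 = true := by decide +kernel

theorem c34_R_3_4 : goP 40 k34_R 5500000 [⟨70, 182, -70, -50⟩] [⟨182, 204, -52, 0⟩]
    10401 = true := by decide +kernel

theorem c34_R_3_5 : goP 40 k34_R 5500000 [⟨0, 132, 0, -132⟩] [⟨182, 204, -52, 0⟩]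
    41 = true := by decide +kernel

theorem c34_R_4_0 : goP 40 k34_R 5500000 [⟨0, 0, 260, 0⟩] [⟨130, 204, 0, -62⟩]
    182815562277 = true := by decide +kernel

theorem c34_R_4_1 : goP 40 k34_R 5500000 [⟨260, 0, 0, 108⟩] [⟨130, 204, 0, -62⟩]
    698913412 = true := by decide +kernel

theorem c34_R_4_2 : goP 40 k34_R 5500000 [⟨260, 108, -74, 74⟩] [⟨130, 204, 0, -62⟩]
    196757775665777492010001 = true := by decide +kernel

theorem c34_R_4_3 : goP 40 k34_R 5500000 [⟨186, 182, -116, 0⟩] [⟨130, 204, 0, -62⟩]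
    181639226385 = true := by decide +kernel

theorem c34_R_4_4 : goP 40 k34_R 5500000 [⟨70, 182, -70, -50⟩] [⟨130, 204, 0, -62⟩]
    10401 = true := by decide +kernel

theorem c34_R_4_5 : goP 40 k34_R 5500000 [⟨0, 132, 0, -132⟩] [⟨130, 204, 0, -62⟩]
    40 = true := by decide +kernel

theorem c35_35_0_0 : goP 40 k35_35 5500000 [⟨96, 134, 92, 0⟩] [⟨96, 134, 92, 0⟩]
    2 = true := by decide +kernel

theorem c35_35_0_1 : goP 40 k35_35 5500000 [⟨188, 134, 0, 26⟩] [⟨96, 134, 92, 0⟩]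
    2 = true := by decide +kernel

theorem c35_35_0_2 : goP 40 k35_35 5500000 [⟨188, 160, -34, 34⟩] [⟨96, 134, 92, 0⟩]
    41 = true := by decide +kernel

theorem c35_35_0_3 : goP 40 k35_35 5500000 [⟨154, 194, -58, 0⟩] [⟨96, 134, 92, 0⟩]
    2 = true := by decide +kernel

theorem c35_35_0_4 : goP 40 k35_35 5500000 [⟨96, 194, 0, -60⟩] [⟨96, 134, 92, 0⟩]
    2 = true := by decide +kernel

theorem c35_35_1_0 : goP 40 k35_35 5500000 [⟨96, 134, 92, 0⟩] [⟨188, 134, 0, 26⟩]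
    2 = true := by decide +kernel

theorem c35_35_1_1 : goP 40 k35_35 5500000 [⟨188, 134, 0, 26⟩] [⟨188, 134, 0, 26⟩]
    2 = true := by decide +kernel

theorem c35_35_1_2 : goP 40 k35_35 5500000 [⟨188, 160, -34, 34⟩] [⟨188, 134, 0, 26⟩]
    2 = true := by decide +kernel

theorem c35_35_1_3 : goP 40 k35_35 5500000 [⟨154, 194, -58, 0⟩] [⟨188, 134, 0, 26⟩]
    2 = true := by decide +kernel

theorem c35_35_1_4 : goP 40 k35_35 5500000 [⟨96, 194, 0, -60⟩] [⟨188, 134, 0, 26⟩]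
    2 = true := by decide +kernel

theorem c35_35_2_0 : goP 40 k35_35 5500000 [⟨96, 134, 92, 0⟩] [⟨188, 160, -34, 34⟩]
    40 = true := by decide +kernel

theorem c35_35_2_1 : goP 40 k35_35 5500000 [⟨188, 134, 0, 26⟩] [⟨188, 160, -34, 34⟩]
    2 = true := by decide +kernel

theorem c35_35_2_2 : goP 40 k35_35 5500000 [⟨188, 160, -34, 34⟩] [⟨188, 160, -34, 34⟩]
    42568100 = true := by decide +kernel

theorem c35_35_2_3 : goP 40 k35_35 5500000 [⟨154, 194, -58, 0⟩] [⟨188, 160, -34, 34⟩]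
    10882523556 = true := by decide +kernel

theorem c35_35_2_4 : goP 40 k35_35 5500000 [⟨96, 194, 0, -60⟩] [⟨188, 160, -34, 34⟩]
    10849 = true := by decide +kernel

theorem c35_35_3_0 : goP 40 k35_35 5500000 [⟨96, 134, 92, 0⟩] [⟨154, 194, -58, 0⟩]
    2 = true := by decide +kernel

theorem c35_35_3_1 : goP 40 k35_35 5500000 [⟨188, 134, 0, 26⟩] [⟨154, 194, -58, 0⟩]
    2 = true := by decide +kernel

theorem c35_35_3_2 : goP 40 k35_35 5500000 [⟨188, 160, -34, 34⟩] [⟨154, 194, -58, 0⟩]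
    11167491233 = true := by decide +kernel

theorem c35_35_3_3 : goP 40 k35_35 5500000 [⟨154, 194, -58, 0⟩] [⟨154, 194, -58, 0⟩]
    715303871424577 = true := by decide +kernel

theorem c35_35_3_4 : goP 40 k35_35 5500000 [⟨96, 194, 0, -60⟩] [⟨154, 194, -58, 0⟩]
    10885 = true := by decide +kernel

end Pool.Agent.TR8.CI
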