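import Pool.Agent.Lib_helper56.TR8.XC.K

/-!
# Tables of pairs of sides, 41
-/

set_option autoImplicit false
set_option maxRecDepth 100000

namespace Pool.Agent.TR8.CI

theorem c35_35_4_0 : goP 40 k35_35 5500000 [⟨96, 134, 92, 0⟩] [⟨96, 194, 0, -60⟩]
    2 = true := by decide +kernel

theorem c35_35_4_1 : goP 40 k35_35 5500000 [⟨188, 134, 0, 26⟩] [⟨96, 194, 0, -60⟩]
    2 = true := by decide +kernel

theorem c35_35_4_2 : goP 40 k35_35 5500000 [⟨188, 160, -34, 34⟩] [⟨96, 194, 0, -60⟩]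
    10788 = true := by decide +kernel

theorem c35_35_4_3 : goP 40 k35_35 5500000 [⟨154, 194, -58, 0⟩] [⟨96, 194, 0, -60⟩]
    10896 = true := by decide +kernel

theorem c35_35_4_4 : goP 40 k35_35 5500000 [⟨96, 194, 0, -60⟩] [⟨96, 194, 0, -60⟩]
    676 = true := by decide +kernel

theorem c35_41_0_0 : goP 40 k35_41 5500000 [⟨292, 62, 30, 0⟩] [⟨96, 134, 92, 0⟩]
    2 = true := by decide +kernel

theorem c35_41_0_1 : goP 40 k35_41 5500000 [⟨322, 62, 0, 30⟩] [⟨96, 134, 92, 0⟩]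
    2 = true := by decide +kernel

theorem c35_41_0_2 : goP 40 k35_41 5500000 [⟨322, 92, -16, 16⟩] [⟨96, 134, 92, 0⟩]
    2 = true := by decide +kernel

theorem c35_41_0_3 : goP 40 k35_41 5500000 [⟨306, 108, -14, 0⟩] [⟨96, 134, 92, 0⟩]
    2 = true := by decide +kernel

theorem c35_41_0_4 : goP 40 k35_41 5500000 [⟨292, 108, 0, -46⟩] [⟨96, 134, 92, 0⟩]
    2 = true := by decide +kernel

theorem c35_41_1_0 : goP 40 k35_41 5500000 [⟨292, 62, 30, 0⟩] [⟨188, 134, 0, 26⟩]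
    2 = true := by decide +kernel

theorem c35_41_1_1 : goP 40 k35_41 5500000 [⟨322, 62, 0, 30⟩] [⟨188, 134, 0, 26⟩]
    2 = true := by decide +kernel

theorem c35_41_1_2 : goP 40 k35_41 5500000 [⟨322, 92, -16, 16⟩] [⟨188, 134, 0, 26⟩]
    2 = true := by decide +kernel

theorem c35_41_1_3 : goP 40 k35_41 5500000 [⟨306, 108, -14, 0⟩] [⟨188, 134, 0, 26⟩]
    2 = true := by decide +kernel

theorem c35_41_1_4 : goP 40 k35_41 5500000 [⟨292, 108, 0, -46⟩] [⟨188, 134, 0, 26⟩]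
    2 = true := by decide +kernel

theorem c35_41_2_0 : goP 40 k35_41 5500000 [⟨292, 62, 30, 0⟩] [⟨188, 160, -34, 34⟩]
    2 = true := by decide +kernel

theorem c35_41_2_1 : goP 40 k35_41 5500000 [⟨322, 62, 0, 30⟩] [⟨188, 160, -34, 34⟩]
    2 = true := by decide +kernel

theorem c35_41_2_2 : goP 40 k35_41 5500000 [⟨322, 92, -16, 16⟩] [⟨188, 160, -34, 34⟩]
    2 = true := by decide +kernel

theorem c35_41_2_3 : goP 40 k35_41 5500000 [⟨306, 108, -14, 0⟩] [⟨188, 160, -34, 34⟩]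
    2 = true := by decide +kernel

theorem c35_41_2_4 : goP 40 k35_41 5500000 [⟨292, 108, 0, -46⟩] [⟨188, 160, -34, 34⟩]
    2 = true := by decide +kernel

theorem c35_41_3_0 : goP 40 k35_41 5500000 [⟨292, 62, 30, 0⟩] [⟨154, 194, -58, 0⟩]
    2 = true := by decide +kernel

theorem c35_41_3_1 : goP 40 k35_41 5500000 [⟨322, 62, 0, 30⟩] [⟨154, 194, -58, 0⟩]
    2 = true := by decide +kernel

theorem c35_41_3_2 : goP 40 k35_41 5500000 [⟨322, 92, -16, 16⟩] [⟨154, 194, -58, 0⟩]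
    2 = true := by decide +kernel

theorem c35_41_3_3 : goP 40 k35_41 5500000 [⟨306, 108, -14, 0⟩] [⟨154, 194, -58, 0⟩]
    2 = true := by decide +kernel

theorem c35_41_3_4 : goP 40 k35_41 5500000 [⟨292, 108, 0, -46⟩] [⟨154, 194, -58, 0⟩]
    2 = true := by decide +kernel

theorem c35_41_4_0 : goP 40 k35_41 5500000 [⟨292, 62, 30, 0⟩] [⟨96, 194, 0, -60⟩]
    2 = true := by decide +kernel

theorem c35_41_4_1 : goP 40 k35_41 5500000 [⟨322, 62, 0, 30⟩] [⟨96, 194, 0, -60⟩]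
    2 = true := by decide +kernel

theorem c35_41_4_2 : goP 40 k35_41 5500000 [⟨322, 92, -16, 16⟩] [⟨96, 194, 0, -60⟩]
    2 = true := by decide +kernel

theorem c35_41_4_3 : goP 40 k35_41 5500000 [⟨306, 108, -14, 0⟩] [⟨96, 194, 0, -60⟩]
    2 = true := by decide +kernel

theorem c35_41_4_4 : goP 40 k35_41 5500000 [⟨292, 108, 0, -46⟩] [⟨96, 194, 0, -60⟩]
    2 = true := by decide +kernel

theorem c35_42_0_0 : goP 40 k35_42 5500000 [⟨224, 90, 48, 0⟩] [⟨96, 134, 92, 0⟩]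
    2 = true := by decide +kernel

theorem c35_42_0_1 : goP 40 k35_42 5500000 [⟨272, 90, 0, 36⟩] [⟨96, 134, 92, 0⟩]
    2 = true := by decide +kernel

theorem c35_42_0_2 : goP 40 k35_42 5500000 [⟨272, 126, -24, 24⟩] [⟨96, 134, 92, 0⟩]
    2 = true := by decide +kernel

theorem c35_42_0_3 : goP 40 k35_42 5500000 [⟨248, 150, -24, 0⟩] [⟨96, 134, 92, 0⟩]
    2 = true := by decide +kernel

theorem c35_42_0_4 : goP 40 k35_42 5500000 [⟨224, 150, 0, -60⟩] [⟨96, 134, 92, 0⟩]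
    2 = true := by decide +kernel

theorem c35_42_1_0 : goP 40 k35_42 5500000 [⟨224, 90, 48, 0⟩] [⟨188, 134, 0, 26⟩]
    2 = true := by decide +kernel

theorem c35_42_1_1 : goP 40 k35_42 5500000 [⟨272, 90, 0, 36⟩] [⟨188, 134, 0, 26⟩]
    2 = true := by decide +kernel

theorem c35_42_1_2 : goP 40 k35_42 5500000 [⟨272, 126, -24, 24⟩] [⟨188, 134, 0, 26⟩]
    2 = true := by decide +kernel

theorem c35_42_1_3 : goP 40 k35_42 5500000 [⟨248, 150, -24, 0⟩] [⟨188, 134, 0, 26⟩]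
    2 = true := by decide +kernel

theorem c35_42_1_4 : goP 40 k35_42 5500000 [⟨224, 150, 0, -60⟩] [⟨188, 134, 0, 26⟩]
    2 = true := by decide +kernel

theorem c35_42_2_0 : goP 40 k35_42 5500000 [⟨224, 90, 48, 0⟩] [⟨188, 160, -34, 34⟩]
    2 = true := by decide +kernel

theorem c35_42_2_1 : goP 40 k35_42 5500000 [⟨272, 90, 0, 36⟩] [⟨188, 160, -34, 34⟩]
    2 = true := by decide +kernel

theorem c35_42_2_2 : goP 40 k35_42 5500000 [⟨272, 126, -24, 24⟩] [⟨188, 160, -34, 34⟩]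
    2 = true := by decide +kernel

theorem c35_42_2_3 : goP 40 k35_42 5500000 [⟨248, 150, -24, 0⟩] [⟨188, 160, -34, 34⟩]
    2 = true := by decide +kernel

theorem c35_42_2_4 : goP 40 k35_42 5500000 [⟨224, 150, 0, -60⟩] [⟨188, 160, -34, 34⟩]
    2 = true := by decide +kernel

theorem c35_42_3_0 : goP 40 k35_42 5500000 [⟨224, 90, 48, 0⟩] [⟨154, 194, -58, 0⟩]
    2 = true := by decide +kernel

theorem c35_42_3_1 : goP 40 k35_42 5500000 [⟨272, 90, 0, 36⟩] [⟨154, 194, -58, 0⟩]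
    2 = true := by decide +kernel

theorem c35_42_3_2 : goP 40 k35_42 5500000 [⟨272, 126, -24, 24⟩] [⟨154, 194, -58, 0⟩]
    2 = true := by decide +kernel

theorem c35_42_3_3 : goP 40 k35_42 5500000 [⟨248, 150, -24, 0⟩] [⟨154, 194, -58, 0⟩]
    2 = true := by decide +kernel

theorem c35_42_3_4 : goP 40 k35_42 5500000 [⟨224, 150, 0, -60⟩] [⟨154, 194, -58, 0⟩]
    2 = true := by decide +kernel

theorem c35_42_4_0 : goP 40 k35_42 5500000 [⟨224, 90, 48, 0⟩] [⟨96, 194, 0, -60⟩]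
    2 = true := by decide +kernel

theorem c35_42_4_1 : goP 40 k35_42 5500000 [⟨272, 90, 0, 36⟩] [⟨96, 194, 0, -60⟩]
    2 = true := by decide +kernel

theorem c35_42_4_2 : goP 40 k35_42 5500000 [⟨272, 126, -24, 24⟩] [⟨96, 194, 0, -60⟩]
    2 = true := by decide +kernel

theorem c35_42_4_3 : goP 40 k35_42 5500000 [⟨248, 150, -24, 0⟩] [⟨96, 194, 0, -60⟩]
    2 = true := by decide +kernel

theorem c35_42_4_4 : goP 40 k35_42 5500000 [⟨224, 150, 0, -60⟩] [⟨96, 194, 0, -60⟩]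
    2 = true := by decide +kernel

theorem c35_R_0_0 : goP 40 k35_R 5500000 [⟨0, 0, 260, 0⟩] [⟨96, 134, 92, 0⟩]
    665 = true := by decide +kernel

theorem c35_R_0_1 : goP 40 k35_R 5500000 [⟨260, 0, 0, 108⟩] [⟨96, 134, 92, 0⟩]
    2 = true := by decide +kernel

theorem c35_R_0_2 : goP 40 k35_R 5500000 [⟨260, 108, -74, 74⟩] [⟨96, 134, 92, 0⟩]
    649 = true := by decide +kernel

theorem c35_R_0_3 : goP 40 k35_R 5500000 [⟨186, 182, -116, 0⟩] [⟨96, 134, 92, 0⟩]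
    673 = true := by decide +kernel

theorem c35_R_0_4 : goP 40 k35_R 5500000 [⟨70, 182, -70, -50⟩] [⟨96, 134, 92, 0⟩]
    41 = true := by decide +kernel

theorem c35_R_0_5 : goP 40 k35_R 5500000 [⟨0, 132, 0, -132⟩] [⟨96, 134, 92, 0⟩]
    2 = true := by decide +kernel

theorem c35_R_1_0 : goP 40 k35_R 5500000 [⟨0, 0, 260, 0⟩] [⟨188, 134, 0, 26⟩]
    665 = true := by decide +kernel

theorem c35_R_1_1 : goP 40 k35_R 5500000 [⟨260, 0, 0, 108⟩] [⟨188, 134, 0, 26⟩]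
    2 = true := by decide +kernel

theorem c35_R_1_2 : goP 40 k35_R 5500000 [⟨260, 108, -74, 74⟩] [⟨188, 134, 0, 26⟩]
    41 = true := by decide +kernel

theorem c35_R_1_3 : goP 40 k35_R 5500000 [⟨186, 182, -116, 0⟩] [⟨188, 134, 0, 26⟩]
    41 = true := by decide +kernel

theorem c35_R_1_4 : goP 40 k35_R 5500000 [⟨70, 182, -70, -50⟩] [⟨188, 134, 0, 26⟩]
    2 = true := by decide +kernel

theorem c35_R_1_5 : goP 40 k35_R 5500000 [⟨0, 132, 0, -132⟩] [⟨188, 134, 0, 26⟩]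
    2 = true := by decide +kernel

end Pool.Agent.TR8.CI
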