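import Pool.Agent.Lib_helper56.TR8.XC.K

/-!
# Tables of pairs of sides, 42
-/

set_option autoImplicit false
set_option maxRecDepth 100000

namespace Pool.Agent.TR8.CI

theorem c35_R_2_0 : goP 40 k35_R 5500000 [⟨0, 0, 260, 0⟩] [⟨188, 160, -34, 34⟩]
    3138633126752206629017733 = true := by decide +kernel

theorem c35_R_2_1 : goP 40 k35_R 5500000 [⟨260, 0, 0, 108⟩] [⟨188, 160, -34, 34⟩]
    2792142283172 = true := by decide +kernel

theorem c35_R_2_2 : goP 40 k35_R 5500000 [⟨260, 108, -74, 74⟩] [⟨188, 160, -34, 34⟩]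
    196137754021997932218001 = true := by decide +kernel

theorem c35_R_2_3 : goP 40 k35_R 5500000 [⟨186, 182, -116, 0⟩] [⟨188, 160, -34, 34⟩]
    46846901434290046609 = true := by decide +kernel

theorem c35_R_2_4 : goP 40 k35_R 5500000 [⟨70, 182, -70, -50⟩] [⟨188, 160, -34, 34⟩]
    696821281 = true := by decide +kernel

theorem c35_R_2_5 : goP 40 k35_R 5500000 [⟨0, 132, 0, -132⟩] [⟨188, 160, -34, 34⟩]
    10776 = true := by decide +kernel

theorem c35_R_3_0 : goP 40 k35_R 5500000 [⟨0, 0, 260, 0⟩] [⟨154, 194, -58, 0⟩]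
    13826144226722665565090801472718590351941 = true := by decide +kernel

theorem c35_R_3_1 : goP 40 k35_R 5500000 [⟨260, 0, 0, 108⟩] [⟨154, 194, -58, 0⟩]
    805496737763791648456083985 = true := by decide +kernel

end Pool.Agent.TR8.CI
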