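import Pool.Agent.Lib_helper56.TR8.XC.K

/-!
# Tables of pairs of sides, 43
-/

set_option autoImplicit false
set_option maxRecDepth 100000

namespace Pool.Agent.TR8.CI

theorem c35_R_3_2 : goP 40 k35_R 5500000 [⟨260, 108, -74, 74⟩] [⟨154, 194, -58, 0⟩]
    18835739327165560156498236557076322133401009111815403796835156097014730171461 = true := by decide +kernel

theorem c35_R_3_3 : goP 40 k35_R 5500000 [⟨186, 182, -116, 0⟩] [⟨154, 194, -58, 0⟩]
    3459581265398892935096085837169402949 = true := by decide +kernel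

theorem c35_R_3_4 : goP 40 k35_R 5500000 [⟨70, 182, -70, -50⟩] [⟨154, 194, -58, 0⟩]
    2861699598865 = true := by decide +kernel

theorem c35_R_3_5 : goP 40 k35_R 5500000 [⟨0, 132, 0, -132⟩] [⟨154, 194, -58, 0⟩]
    166545 = true := by decide +kernel

theorem c35_R_4_0 : goP 40 k35_R 5500000 [⟨0, 0, 260, 0⟩] [⟨96, 194, 0, -60⟩]
    732863863761041 = true := by decide +kernel

theorem c35_R_4_1 : goP 40 k35_R 5500000 [⟨260, 0, 0, 108⟩] [⟨96, 194, 0, -60⟩]
    2929774470148 = true := by decide +kernel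

theorem c35_R_4_2 : goP 40 k35_R 5500000 [⟨260, 108, -74, 74⟩] [⟨96, 194, 0, -60⟩]
    3204802009512227050786881 = true := by decide +kernel

end Pool.Agent.TR8.CI
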