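import Pool.Agent.Lib_helper56.TR8.XC.K

/-!
# Tables of pairs of sides, 46
-/

set_option autoImplicit false
set_option maxRecDepth 100000

namespace Pool.Agent.TR8.CI

theorem c42_R_4_3 : goP 40 k42_R 5500000 [⟨186, 182, -116, 0⟩] [⟨224, 150, 0, -60⟩]
    41 = true := by decide +kernel

theorem c42_R_4_4 : goP 40 k42_R 5500000 [⟨70, 182, -70, -50⟩] [⟨224, 150, 0, -60⟩]
    2 = true := by decide +kernel

theorem c42_R_4_5 : goP 40 k42_R 5500000 [⟨0, 132, 0, -132⟩] [⟨224, 150, 0, -60⟩]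
    2 = true := by decide +kernel

theorem cR_R_0_0 : goP 40 kR_R 5500000 [⟨0, 0, 260, 0⟩] [⟨0, 0, 260, 0⟩]
    3000706396162792004 = true := by decide +kernel

theorem cR_R_0_1 : goP 40 kR_R 5500000 [⟨260, 0, 0, 108⟩] [⟨0, 0, 260, 0⟩]
    11178502288 = true := by decide +kernel

theorem cR_R_0_2 : goP 40 kR_R 5500000 [⟨260, 108, -74, 74⟩] [⟨0, 0, 260, 0⟩]
    14497785081681788976391889996964331744564750404 = true := by decide +kernel

theorem cR_R_0_3 : goP 40 kR_R 5500000 [⟨186, 182, -116, 0⟩] [⟨0, 0, 260, 0⟩]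
    1148631052144929323971195225747144254746729463610132994973056762974539719748 = true := by decide +kernel

end Pool.Agent.TR8.CI
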