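import Pool.Agent.Lib_helper56.TR8.XC.K

/-!
# Tables of pairs of sides, 47
-/

set_option autoImplicit false
set_option maxRecDepth 100000

namespace Pool.Agent.TR8.CI

theorem cR_R_0_4 : goP 40 kR_R 5500000 [⟨70, 182, -70, -50⟩] [⟨0, 0, 260, 0⟩]
    3891722060734547068208602170145177259292827245598909968 = true := by decide +kernel

theorem cR_R_0_5 : goP 40 kR_R 5500000 [⟨0, 132, 0, -132⟩] [⟨0, 0, 260, 0⟩]
    46630904833680 = true := by decide +kernel

theorem cR_R_1_0 : goP 40 kR_R 5500000 [⟨0, 0, 260, 0⟩] [⟨260, 0, 0, 108⟩]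
    174510713221 = true := by decide +kernel

theorem cR_R_1_1 : goP 40 kR_R 5500000 [⟨260, 0, 0, 108⟩] [⟨260, 0, 0, 108⟩]
    664 = true := by decide +kernel

theorem cR_R_1_2 : goP 40 kR_R 5500000 [⟨260, 108, -74, 74⟩] [⟨260, 0, 0, 108⟩]
    698656401 = true := by decide +kernel

theorem cR_R_1_3 : goP 40 kR_R 5500000 [⟨186, 182, -116, 0⟩] [⟨260, 0, 0, 108⟩]
    12290871249020526291089 = true := by decide +kernel

theorem cR_R_1_4 : goP 40 kR_R 5500000 [⟨70, 182, -70, -50⟩] [⟨260, 0, 0, 108⟩]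
    864050939852218678292736732250514286865 = true := by decide +kernel

theorem cR_R_1_5 : goP 40 kR_R 5500000 [⟨0, 132, 0, -132⟩] [⟨260, 0, 0, 108⟩]
    713182031407633 = true := by decide +kernel

end Pool.Agent.TR8.CI
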