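import Pool.Agent.Lib_helper56.TR8.XC.K

/-!
# Tables of pairs of sides, 48
-/

set_option autoImplicit false
set_option maxRecDepth 100000

namespace Pool.Agent.TR8.CI

theorem cR_R_2_0 : goP 40 kR_R 5500000 [⟨0, 0, 260, 0⟩] [⟨260, 108, -74, 74⟩]
    237740101798095380516974347637979181483884701969 = true := by decide +kernel

theorem cR_R_2_1 : goP 40 kR_R 5500000 [⟨260, 0, 0, 108⟩] [⟨260, 108, -74, 74⟩]
    681681540 = true := by decide +kernel

theorem cR_R_2_2 : goP 40 kR_R 5500000 [⟨260, 108, -74, 74⟩] [⟨260, 108, -74, 74⟩]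
    49120405506214973733509697 = true := by decide +kernel

theorem cR_R_2_3 : goP 40 kR_R 5500000 [⟨186, 182, -116, 0⟩] [⟨260, 108, -74, 74⟩]
    995561128374882844503115528642451960049017961384981406276 = true := by decide +kernel

end Pool.Agent.TR8.CI
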