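import Pool.Agent.Lib_helper56.TR8.XC.K

/-!
# Tables of pairs of sides, 49
-/

set_option autoImplicit false
set_option maxRecDepth 100000

namespace Pool.Agent.TR8.CI

theorem cR_R_2_4 : goP 40 kR_R 5500000 [⟨70, 182, -70, -50⟩] [⟨260, 108, -74, 74⟩]
    1357256047137320795811849062523926427582042718162987941041808274280369106866475708055110132804 = true := by decide +kernel

theorem cR_R_2_5 : goP 40 kR_R 5500000 [⟨0, 132, 0, -132⟩] [⟨260, 108, -74, 74⟩]
    221218787107659059758527955640936125015108 = true := by decide +kernel

end Pool.Agent.TR8.CI
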