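import Pool.Agent.Lib_helper56.TR8.XC.K

/-!
# Tables of pairs of sides, 50
-/

set_option autoImplicit false
set_option maxRecDepth 100000

namespace Pool.Agent.TR8.CI

theorem cR_R_3_0 : goP 40 kR_R 5500000 [⟨0, 0, 260, 0⟩] [⟨186, 182, -116, 0⟩]
    301371770897687619492135214777653508404420109410218196854518858720873066045713 = true := by decide +kernel

theorem cR_R_3_1 : goP 40 kR_R 5500000 [⟨260, 0, 0, 108⟩] [⟨186, 182, -116, 0⟩]
    11992278018936351041924 = true := by decide +kernel

theorem cR_R_3_2 : goP 40 kR_R 5500000 [⟨260, 108, -74, 74⟩] [⟨186, 182, -116, 0⟩]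
    260748142882380806159404327227856590446631978627228082938385 = true := by decide +kernel

end Pool.Agent.TR8.CI
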