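import Pool.Agent.Lib_helper56.TR8.XC.K

/-!
# Tables of pairs of sides, 51
-/

set_option autoImplicit false
set_option maxRecDepth 100000

namespace Pool.Agent.TR8.CI

theorem cR_R_3_3 : goP 40 kR_R 5500000 [⟨186, 182, -116, 0⟩] [⟨186, 182, -116, 0⟩]
    308333293021281903008151459534255132458494855925727480800039707579415095503070242884 = true := by decide +kernel

theorem cR_R_3_4 : goP 40 kR_R 5500000 [⟨70, 182, -70, -50⟩] [⟨186, 182, -116, 0⟩]
    71823498801022836759237938724529100197083976754502351546125686978636260420 = true := by decide +kernel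

theorem cR_R_3_5 : goP 40 kR_R 5500000 [⟨0, 132, 0, -132⟩] [⟨186, 182, -116, 0⟩]
    192019802136434054440004 = true := by decide +kernel

end Pool.Agent.TR8.CI
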