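import Pool.Agent.Lib_helper56.TR8.XC.K

/-!
# Tables of pairs of sides, 52
-/

set_option autoImplicit false
set_option maxRecDepth 100000

namespace Pool.Agent.TR8.CI

theorem cR_R_4_0 : goP 40 kR_R 5500000 [⟨0, 0, 260, 0⟩] [⟨70, 182, -70, -50⟩]
    1021088422738471453896418395674287065589294006993673167429 = true := by decide +kernel

theorem cR_R_4_1 : goP 40 kR_R 5500000 [⟨260, 0, 0, 108⟩] [⟨70, 182, -70, -50⟩]
    55337686109764941730529753528970913860 = true := by decide +kernel

theorem cR_R_4_2 : goP 40 kR_R 5500000 [⟨260, 108, -74, 74⟩] [⟨70, 182, -70, -50⟩]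
    5172987613694620005822862978568927353460862168077857258958003492404977819128543390330298641 = true := by decide +kernel

end Pool.Agent.TR8.CI
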