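import Pool.Agent.Lib_helper56.TR8.XC.K

/-!
# Tables of pairs of sides, 53
-/

set_option autoImplicit false
set_option maxRecDepth 100000

namespace Pool.Agent.TR8.CI

theorem cR_R_4_3 : goP 40 kR_R 5500000 [⟨186, 182, -116, 0⟩] [⟨70, 182, -70, -50⟩]
    71823472255661364213189375259123571513468846007223018963204598157659382033 = true := by decide +kernel

theorem cR_R_4_4 : goP 40 kR_R 5500000 [⟨70, 182, -70, -50⟩] [⟨70, 182, -70, -50⟩]
    226727117819280962237283024036766243464260 = true := by decide +kernel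

theorem cR_R_4_5 : goP 40 kR_R 5500000 [⟨0, 132, 0, -132⟩] [⟨70, 182, -70, -50⟩]
    182630652484 = true := by decide +kernel

theorem cR_R_5_0 : goP 40 kR_R 5500000 [⟨0, 0, 260, 0⟩] [⟨0, 132, 0, -132⟩]
    741640609895045 = true := by decide +kernel

theorem cR_R_5_1 : goP 40 kR_R 5500000 [⟨260, 0, 0, 108⟩] [⟨0, 132, 0, -132⟩]
    44643645467204 = true := by decide +kernel

end Pool.Agent.TR8.CI
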