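import Pool.Agent.Lib_helper56.TR8.XC.K

/-!
# Tables of pairs of sides, 54
-/

set_option autoImplicit false
set_option maxRecDepth 100000

namespace Pool.Agent.TR8.CI

theorem cR_R_5_2 : goP 40 kR_R 5500000 [⟨260, 108, -74, 74⟩] [⟨0, 132, 0, -132⟩]
    14390978543231224518122275113022396080401 = true := by decide +kernel

theorem cR_R_5_3 : goP 40 kR_R 5500000 [⟨186, 182, -116, 0⟩] [⟨0, 132, 0, -132⟩]
    196719106525587329949969 = true := by decide +kernel

theorem cR_R_5_4 : goP 40 kR_R 5500000 [⟨70, 182, -70, -50⟩] [⟨0, 132, 0, -132⟩]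
    181908183620 = true := by decide +kernel

theorem cR_R_5_5 : goP 40 kR_R 5500000 [⟨0, 132, 0, -132⟩] [⟨0, 132, 0, -132⟩]
    676 = true := by decide +kernel

theorem cA_A_0_0 : goP 40 kA_A 5500000 [⟨0, 0, 260, 0⟩] [⟨0, 0, 260, 0⟩]
    170145 = true := by decide +kernel

theorem cA_A_0_1 : goP 40 kA_A 5500000 [⟨260, 0, 148, 126⟩] [⟨0, 0, 260, 0⟩]
    11178494497 = true := by decide +kernel

theorem cA_A_0_2 : goP 40 kA_A 5500000 [⟨408, 126, 0, 43⟩] [⟨0, 0, 260, 0⟩]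
    40 = true := by decide +kernel

theorem cA_A_0_3 : goP 40 kA_A 5500000 [⟨408, 169, -26, 26⟩] [⟨0, 0, 260, 0⟩]
    648 = true := by decide +kernel

theorem cA_A_0_4 : goP 40 kA_A 5500000 [⟨382, 195, -98, 23⟩] [⟨0, 0, 260, 0⟩]
    2729124 = true := by decide +kernel

theorem cA_A_0_5 : goP 40 kA_A 5500000 [⟨284, 218, -164, 0⟩] [⟨0, 0, 260, 0⟩]
    42605188 = true := by decide +kernel

theorem cA_A_0_6 : goP 40 kA_A 5500000 [⟨120, 218, -120, -86⟩] [⟨0, 0, 260, 0⟩]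
    172452 = true := by decide +kernel

theorem cA_A_0_7 : goP 40 kA_A 5500000 [⟨0, 132, 0, -132⟩] [⟨0, 0, 260, 0⟩]
    40 = true := by decide +kernel

theorem cA_A_1_0 : goP 40 kA_A 5500000 [⟨0, 0, 260, 0⟩] [⟨260, 0, 148, 126⟩]
    42605156 = true := by decide +kernel

theorem cA_A_1_1 : goP 40 kA_A 5500000 [⟨260, 0, 148, 126⟩] [⟨260, 0, 148, 126⟩]
    182858277819159172 = true := by decide +kernel

theorem cA_A_1_2 : goP 40 kA_A 5500000 [⟨408, 126, 0, 43⟩] [⟨260, 0, 148, 126⟩]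
    166048 = true := by decide +kernel

theorem cA_A_1_3 : goP 40 kA_A 5500000 [⟨408, 169, -26, 26⟩] [⟨260, 0, 148, 126⟩]
    43557024 = true := by decide +kernel

end Pool.Agent.TR8.CI
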