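import Pool.Agent.Lib_helper56.TR8.XC.K

/-!
# Tables of pairs of sides, 55
-/

set_option autoImplicit false
set_option maxRecDepth 100000

namespace Pool.Agent.TR8.CI

theorem cA_A_1_4 : goP 40 kA_A 5500000 [⟨382, 195, -98, 23⟩] [⟨260, 0, 148, 126⟩]
    47893127414514091664 = true := by decide +kernel

theorem cA_A_1_5 : goP 40 kA_A 5500000 [⟨284, 218, -164, 0⟩] [⟨260, 0, 148, 126⟩]
    11692784618740292 = true := by decide +kernel

theorem cA_A_1_6 : goP 40 kA_A 5500000 [⟨120, 218, -120, -86⟩] [⟨260, 0, 148, 126⟩]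
    42605188 = true := by decide +kernel

theorem cA_A_1_7 : goP 40 kA_A 5500000 [⟨0, 132, 0, -132⟩] [⟨260, 0, 148, 126⟩]
    648 = true := by decide +kernel

theorem cA_A_2_0 : goP 40 kA_A 5500000 [⟨0, 0, 260, 0⟩] [⟨408, 126, 0, 43⟩]
    41 = true := by decide +kernel

theorem cA_A_2_1 : goP 40 kA_A 5500000 [⟨260, 0, 148, 126⟩] [⟨408, 126, 0, 43⟩]
    170405 = true := by decide +kernel

theorem cA_A_2_2 : goP 40 kA_A 5500000 [⟨408, 126, 0, 43⟩] [⟨408, 126, 0, 43⟩]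
    40 = true := by decide +kernel

theorem cA_A_2_3 : goP 40 kA_A 5500000 [⟨408, 169, -26, 26⟩] [⟨408, 126, 0, 43⟩]
    10660 = true := by decide +kernel

theorem cA_A_2_4 : goP 40 kA_A 5500000 [⟨382, 195, -98, 23⟩] [⟨408, 126, 0, 43⟩]
    706357637 = true := by decide +kernel

theorem cA_A_2_5 : goP 40 kA_A 5500000 [⟨284, 218, -164, 0⟩] [⟨408, 126, 0, 43⟩]
    677 = true := by decide +kernel

theorem cA_A_2_6 : goP 40 kA_A 5500000 [⟨120, 218, -120, -86⟩] [⟨408, 126, 0, 43⟩]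
    41 = true := by decide +kernel

theorem cA_A_2_7 : goP 40 kA_A 5500000 [⟨0, 132, 0, -132⟩] [⟨408, 126, 0, 43⟩]
    2 = true := by decide +kernel

theorem cA_A_3_0 : goP 40 kA_A 5500000 [⟨0, 0, 260, 0⟩] [⟨408, 169, -26, 26⟩]
    665 = true := by decide +kernel

theorem cA_A_3_1 : goP 40 kA_A 5500000 [⟨260, 0, 148, 126⟩] [⟨408, 169, -26, 26⟩]
    42575269 = true := by decide +kernel

theorem cA_A_3_2 : goP 40 kA_A 5500000 [⟨408, 126, 0, 43⟩] [⟨408, 169, -26, 26⟩]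
    10401 = true := by decide +kernel

theorem cA_A_3_3 : goP 40 kA_A 5500000 [⟨408, 169, -26, 26⟩] [⟨408, 169, -26, 26⟩]
    174510352017 = true := by decide +kernel

theorem cA_A_3_4 : goP 40 kA_A 5500000 [⟨382, 195, -98, 23⟩] [⟨408, 169, -26, 26⟩]
    3138723998239725879142469 = true := by decide +kernel

theorem cA_A_3_5 : goP 40 kA_A 5500000 [⟨284, 218, -164, 0⟩] [⟨408, 169, -26, 26⟩]
    43673989 = true := by decide +kernel

theorem cA_A_3_6 : goP 40 kA_A 5500000 [⟨120, 218, -120, -86⟩] [⟨408, 169, -26, 26⟩]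
    677 = true := by decide +kernel

theorem cA_A_3_7 : goP 40 kA_A 5500000 [⟨0, 132, 0, -132⟩] [⟨408, 169, -26, 26⟩]
    2 = true := by decide +kernel

theorem cA_A_4_0 : goP 40 kA_A 5500000 [⟨0, 0, 260, 0⟩] [⟨382, 195, -98, 23⟩]
    2729121 = true := by decide +kernel

end Pool.Agent.TR8.CI
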