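import Pool.Agent.Lib_helper56.TR8.XC.K

/-!
# Tables of pairs of sides, 56
-/

set_option autoImplicit false
set_option maxRecDepth 100000

namespace Pool.Agent.TR8.CI

theorem cA_A_4_1 : goP 40 kA_A 5500000 [⟨260, 0, 148, 126⟩] [⟨382, 195, -98, 23⟩]
    48756678366809461381 = true := by decide +kernel

theorem cA_A_4_2 : goP 40 kA_A 5500000 [⟨408, 126, 0, 43⟩] [⟨382, 195, -98, 23⟩]
    709519504 = true := by decide +kernel

theorem cA_A_4_3 : goP 40 kA_A 5500000 [⟨408, 169, -26, 26⟩] [⟨382, 195, -98, 23⟩]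
    3067813778410706640873744 = true := by decide +kernel

theorem cA_A_4_4 : goP 40 kA_A 5500000 [⟨382, 195, -98, 23⟩] [⟨382, 195, -98, 23⟩]
    4080763764616765851658212173885859388687119836911724710757441 = true := by decide +kernel

theorem cA_A_4_5 : goP 40 kA_A 5500000 [⟨284, 218, -164, 0⟩] [⟨382, 195, -98, 23⟩]
    3219150059559686786226923792657 = true := by decide +kernel

theorem cA_A_4_6 : goP 40 kA_A 5500000 [⟨120, 218, -120, -86⟩] [⟨382, 195, -98, 23⟩]
    178856159761 = true := by decide +kernel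

theorem cA_A_4_7 : goP 40 kA_A 5500000 [⟨0, 132, 0, -132⟩] [⟨382, 195, -98, 23⟩]
    40 = true := by decide +kernel

theorem cA_A_5_0 : goP 40 kA_A 5500000 [⟨0, 0, 260, 0⟩] [⟨284, 218, -164, 0⟩]
    698656401 = true := by decide +kernel

end Pool.Agent.TR8.CI
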