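import Pool.Agent.Lib_helper56.TR8.XC.K

/-!
# Tables of pairs of sides, 57
-/

set_option autoImplicit false
set_option maxRecDepth 100000

namespace Pool.Agent.TR8.CI

theorem cA_A_5_1 : goP 40 kA_A 5500000 [⟨260, 0, 148, 126⟩] [⟨284, 218, -164, 0⟩]
    11428953149835793 = true := by decide +kernel

theorem cA_A_5_2 : goP 40 kA_A 5500000 [⟨408, 126, 0, 43⟩] [⟨284, 218, -164, 0⟩]
    10400 = true := by decide +kernel

theorem cA_A_5_3 : goP 40 kA_A 5500000 [⟨408, 169, -26, 26⟩] [⟨284, 218, -164, 0⟩]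
    42608784 = true := by decide +kernel

theorem cA_A_5_4 : goP 40 kA_A 5500000 [⟨382, 195, -98, 23⟩] [⟨284, 218, -164, 0⟩]
    3299311574122801737840235980868 = true := by decide +kernel

theorem cA_A_5_5 : goP 40 kA_A 5500000 [⟨284, 218, -164, 0⟩] [⟨284, 218, -164, 0⟩]
    51506529476207655526998492161041 = true := by decide +kernel

theorem cA_A_5_6 : goP 40 kA_A 5500000 [⟨120, 218, -120, -86⟩] [⟨284, 218, -164, 0⟩]
    189611349872380433 = true := by decide +kernel

theorem cA_A_5_7 : goP 40 kA_A 5500000 [⟨0, 132, 0, -132⟩] [⟨284, 218, -164, 0⟩]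
    10656 = true := by decide +kernel

theorem cA_A_6_0 : goP 40 kA_A 5500000 [⟨0, 0, 260, 0⟩] [⟨120, 218, -120, -86⟩]
    43666065 = true := by decide +kernel

theorem cA_A_6_1 : goP 40 kA_A 5500000 [⟨260, 0, 148, 126⟩] [⟨120, 218, -120, -86⟩]
    43666065 = true := by decide +kernel

theorem cA_A_6_2 : goP 40 kA_A 5500000 [⟨408, 126, 0, 43⟩] [⟨120, 218, -120, -86⟩]
    40 = true := by decide +kernel

theorem cA_A_6_3 : goP 40 kA_A 5500000 [⟨408, 169, -26, 26⟩] [⟨120, 218, -120, -86⟩]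
    672 = true := by decide +kernel

theorem cA_A_6_4 : goP 40 kA_A 5500000 [⟨382, 195, -98, 23⟩] [⟨120, 218, -120, -86⟩]
    174510910020 = true := by decide +kernel

theorem cA_A_6_5 : goP 40 kA_A 5500000 [⟨284, 218, -164, 0⟩] [⟨120, 218, -120, -86⟩]
    715308122937924 = true := by decide +kernel

theorem cA_A_6_6 : goP 40 kA_A 5500000 [⟨120, 218, -120, -86⟩] [⟨120, 218, -120, -86⟩]
    11301718548 = true := by decide +kernel

theorem cA_A_6_7 : goP 40 kA_A 5500000 [⟨0, 132, 0, -132⟩] [⟨120, 218, -120, -86⟩]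
    40 = true := by decide +kernel

end Pool.Agent.TR8.CI
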