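import Pool.Agent.Lib_helper56.TR8.XC.K

/-!
# Tables of pairs of sides, 58
-/

set_option autoImplicit false
set_option maxRecDepth 100000

namespace Pool.Agent.TR8.CI

theorem cA_A_7_0 : goP 40 kA_A 5500000 [⟨0, 0, 260, 0⟩] [⟨0, 132, 0, -132⟩]
    41 = true := by decide +kernel

theorem cA_A_7_1 : goP 40 kA_A 5500000 [⟨260, 0, 148, 126⟩] [⟨0, 132, 0, -132⟩]
    665 = true := by decide +kernel

theorem cA_A_7_2 : goP 40 kA_A 5500000 [⟨408, 126, 0, 43⟩] [⟨0, 132, 0, -132⟩]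
    2 = true := by decide +kernel

theorem cA_A_7_3 : goP 40 kA_A 5500000 [⟨408, 169, -26, 26⟩] [⟨0, 132, 0, -132⟩]
    2 = true := by decide +kernel

theorem cA_A_7_4 : goP 40 kA_A 5500000 [⟨382, 195, -98, 23⟩] [⟨0, 132, 0, -132⟩]
    41 = true := by decide +kernel

theorem cA_A_7_5 : goP 40 kA_A 5500000 [⟨284, 218, -164, 0⟩] [⟨0, 132, 0, -132⟩]
    10401 = true := by decide +kernel

theorem cA_A_7_6 : goP 40 kA_A 5500000 [⟨120, 218, -120, -86⟩] [⟨0, 132, 0, -132⟩]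
    41 = true := by decide +kernel

theorem cA_A_7_7 : goP 40 kA_A 5500000 [⟨0, 132, 0, -132⟩] [⟨0, 132, 0, -132⟩]
    2 = true := by decide +kernel

end Pool.Agent.TR8.CI
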