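import Pool.Agent.Lib_helper56.TR8.Xn

/-!
# The coefficients of the tables
-/

set_option autoImplicit false

namespace Pool.Agent.TR8.CI

def k31_A : Cf := ⟨146, -859, 205, 0, 0, 992, -417, 0, 0⟩
def k32_A : Cf := ⟨684, -463, -235, 0, 0, 1246, -56, 0, 0⟩
def k33_A : Cf := ⟨514, -592, -189, 0, 0, 1202, -63, 0, 0⟩
def k34_A : Cf := ⟨104, -1231, -129, 0, 0, 1135, -70, 0, 0⟩
def k41_A : Cf := ⟨224, -819, 204, 0, 0, 950, -284, 0, 0⟩
def k42_A : Cf := ⟨170, -1121, -117, 0, 0, 1160, -53, 0, 0⟩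
def k5_A : Cf := ⟨105, -1931, -250, 0, 0, 1910, 222, 0, 0⟩
def k31_31 : Cf := ⟨431, -1254, 2031, -1254, 2031, 777, -564, 777, -564⟩
def k31_32 : Cf := ⟨169, -1254, 2031, -615, 646, 777, -564, 596, -594⟩
def k31_33 : Cf := ⟨297, -1254, 2031, -177, 548, 777, -564, 229, -497⟩
def k31_34 : Cf := ⟨1269, -1254, 2031, -79, 2095, 777, -564, 114, -218⟩
def k31_35 : Cf := ⟨2204, -1254, 2031, -402, 4173, 777, -564, 864, -352⟩
def k31_41 : Cf := ⟨6195, -1254, 2031, 6000, 5712, 777, -564, -213, -381⟩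
def k31_42 : Cf := ⟨2058, -1254, 2031, 683, 1472, 777, -564, 844, -24⟩
def k31_R : Cf := ⟨356, -1254, 2031, -1475, 467, 777, -564, 1644, -171⟩
def k32_32 : Cf := ⟨-93, -615, 646, -615, 646, 596, -594, 596, -594⟩
def k32_33 : Cf := ⟨35, -615, 646, -177, 548, 596, -594, 229, -497⟩
def k32_34 : Cf := ⟨1007, -615, 646, -79, 2095, 596, -594, 114, -218⟩
def k32_35 : Cf := ⟨1942, -615, 646, -402, 4173, 596, -594, 864, -352⟩
def k32_41 : Cf := ⟨5933, -615, 646, 6000, 5712, 596, -594, -213, -381⟩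
def k32_42 : Cf := ⟨1796, -615, 646, 683, 1472, 596, -594, 844, -24⟩
def k32_R : Cf := ⟨94, -615, 646, -1475, 467, 596, -594, 1644, -171⟩
def k33_33 : Cf := ⟨163, -177, 548, -177, 548, 229, -497, 229, -497⟩
def k33_34 : Cf := ⟨1135, -177, 548, -79, 2095, 229, -497, 114, -218⟩
def k33_35 : Cf := ⟨2070, -177, 548, -402, 4173, 229, -497, 864, -352⟩
def k33_41 : Cf := ⟨6061, -177, 548, 6000, 5712, 229, -497, -213, -381⟩
def k33_42 : Cf := ⟨1924, -177, 548, 683, 1472, 229, -497, 844, -24⟩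
def k33_R : Cf := ⟨222, -177, 548, -1475, 467, 229, -497, 1644, -171⟩
def k34_34 : Cf := ⟨2107, -79, 2095, -79, 2095, 114, -218, 114, -218⟩
def k34_35 : Cf := ⟨3042, -79, 2095, -402, 4173, 114, -218, 864, -352⟩
def k34_41 : Cf := ⟨7033, -79, 2095, 6000, 5712, 114, -218, -213, -381⟩
def k34_42 : Cf := ⟨2896, -79, 2095, 683, 1472, 114, -218, 844, -24⟩
def k34_R : Cf := ⟨1194, -79, 2095, -1475, 467, 114, -218, 1644, -171⟩
def k35_35 : Cf := ⟨3977, -402, 4173, -402, 4173, 864, -352, 864, -352⟩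
def k35_41 : Cf := ⟨7968, -402, 4173, 6000, 5712, 864, -352, -213, -381⟩
def k35_42 : Cf := ⟨3831, -402, 4173, 683, 1472, 864, -352, 844, -24⟩
def k35_R : Cf := ⟨2129, -402, 4173, -1475, 467, 864, -352, 1644, -171⟩
def k41_41 : Cf := ⟨11959, 6000, 5712, 6000, 5712, -213, -381, -213, -381⟩
def k41_42 : Cf := ⟨7822, 6000, 5712, 683, 1472, -213, -381, 844, -24⟩
def k41_R : Cf := ⟨6120, 6000, 5712, -1475, 467, -213, -381, 1644, -171⟩
def k42_42 : Cf := ⟨3685, 683, 1472, 683, 1472, 844, -24, 844, -24⟩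
def k42_R : Cf := ⟨1983, 683, 1472, -1475, 467, 844, -24, 1644, -171⟩
def kR_R : Cf := ⟨281, -1475, 467, -1475, 467, 1644, -171, 1644, -171⟩
def kA_A : Cf := ⟨463, 0, 0, 0, 0, 0, 0, 0, 0⟩

end Pool.Agent.TR8.CI
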