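import Pool.Agent.Lib_helper56.TR8.Xo
import Pool.Agent.Lib_helper56.TR8.XC.C00
import Pool.Agent.Lib_helper56.TR8.XC.C01
import Pool.Agent.Lib_helper56.TR8.XC.C02
import Pool.Agent.Lib_helper56.TR8.XC.C03
import Pool.Agent.Lib_helper56.TR8.XC.C04
import Pool.Agent.Lib_helper56.TR8.XC.C05
import Pool.Agent.Lib_helper56.TR8.XC.C06
import Pool.Agent.Lib_helper56.TR8.XC.C07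
import Pool.Agent.Lib_helper56.TR8.XC.C08
import Pool.Agent.Lib_helper56.TR8.XC.C09
import Pool.Agent.Lib_helper56.TR8.XC.C10
import Pool.Agent.Lib_helper56.TR8.XC.C11
import Pool.Agent.Lib_helper56.TR8.XC.C12
import Pool.Agent.Lib_helper56.TR8.XC.C13

/-!
# The inequalities of pairs of polygons, 0
-/

set_option autoImplicit false

open Complex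

namespace Pool.Agent.TR8.CI

open Pool.Agent.TR5 (AA XI)

theorem xA_31 {x v y u : ℝ} (hz : (⟨x, v⟩ : ℂ) ∈ Pg SA) (hw : (⟨y, u⟩ : ℂ) ∈ Pg S31)
    (hv : 0 < v) (hu : 0 < u) :
    (3663 - kA_31.c) / 1000 + kA_31.g1 / 1000 * x + kA_31.g2 / 1000 * v + kA_31.g3 / 1000 * y +
      kA_31.g4 / 1000 * u + kA_31.l1 / 1000 * (AA v x (-u) y).re + kA_31.l2 / 1000 * (AA v x (-u) y).im +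
      kA_31.m1 / 1000 * (AA (-u) y v x).re - kA_31.m2 / 1000 * (AA (-u) y v x).im < XI v x (-u) y := by
  refine X_of2 pA p31 iA i31 ?_ hz hw hv hu
  intro e he f hf
  simp only [SA, S31, List.mem_cons, List.not_mem_nil, or_false] at he hf
  rcases he with rfl | rfl | rfl | rfl | rfl | rfl | rfl | rfl <;> rcases hf with rfl | rfl | rfl | rfl | rfl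
  exacts [⟨_, cA_31_0_0⟩, ⟨_, cA_31_0_1⟩, ⟨_, cA_31_0_2⟩, ⟨_, cA_31_0_3⟩, ⟨_, cA_31_0_4⟩,
    ⟨_, cA_31_1_0⟩, ⟨_, cA_31_1_1⟩, ⟨_, cA_31_1_2⟩, ⟨_, cA_31_1_3⟩, ⟨_, cA_31_1_4⟩,
    ⟨_, cA_31_2_0⟩, ⟨_, cA_31_2_1⟩, ⟨_, cA_31_2_2⟩, ⟨_, cA_31_2_3⟩, ⟨_, cA_31_2_4⟩,
    ⟨_, cA_31_3_0⟩, ⟨_, cA_31_3_1⟩, ⟨_, cA_31_3_2⟩, ⟨_, cA_31_3_3⟩, ⟨_, cA_31_3_4⟩,
    ⟨_, cA_31_4_0⟩, ⟨_, cA_31_4_1⟩, ⟨_, cA_31_4_2⟩, ⟨_, cA_31_4_3⟩, ⟨_, cA_31_4_4⟩,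
    ⟨_, cA_31_5_0⟩, ⟨_, cA_31_5_1⟩, ⟨_, cA_31_5_2⟩, ⟨_, cA_31_5_3⟩, ⟨_, cA_31_5_4⟩,
    ⟨_, cA_31_6_0⟩, ⟨_, cA_31_6_1⟩, ⟨_, cA_31_6_2⟩, ⟨_, cA_31_6_3⟩, ⟨_, cA_31_6_4⟩,
    ⟨_, cA_31_7_0⟩, ⟨_, cA_31_7_1⟩, ⟨_, cA_31_7_2⟩, ⟨_, cA_31_7_3⟩, ⟨_, cA_31_7_4⟩]

theorem x32_A {x v y u : ℝ} (hz : (⟨x, v⟩ : ℂ) ∈ Pg S32) (hw : (⟨y, u⟩ : ℂ) ∈ Pg SA)
    (hv : 0 < v) (hu : 0 < u) :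
    (3663 - k32_A.c) / 1000 + k32_A.g1 / 1000 * x + k32_A.g2 / 1000 * v + k32_A.g3 / 1000 * y +
      k32_A.g4 / 1000 * u + k32_A.l1 / 1000 * (AA v x (-u) y).re + k32_A.l2 / 1000 * (AA v x (-u) y).im +
      k32_A.m1 / 1000 * (AA (-u) y v x).re - k32_A.m2 / 1000 * (AA (-u) y v x).im < XI v x (-u) y := by
  refine X_of2 p32 pA i32 iA ?_ hz hw hv hu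
  intro e he f hf
  simp only [S32, SA, List.mem_cons, List.not_mem_nil, or_false] at he hf
  rcases he with rfl | rfl | rfl | rfl | rfl <;> rcases hf with rfl | rfl | rfl | rfl | rfl | rfl | rfl | rfl
  exacts [⟨_, c32_A_0_0⟩, ⟨_, c32_A_0_1⟩, ⟨_, c32_A_0_2⟩, ⟨_, c32_A_0_3⟩, ⟨_, c32_A_0_4⟩, ⟨_, c32_A_0_5⟩, ⟨_, c32_A_0_6⟩, ⟨_, c32_A_0_7⟩,
    ⟨_, c32_A_1_0⟩, ⟨_, c32_A_1_1⟩, ⟨_, c32_A_1_2⟩, ⟨_, c32_A_1_3⟩, ⟨_, c32_A_1_4⟩, ⟨_, c32_A_1_5⟩, ⟨_, c32_A_1_6⟩, ⟨_, c32_A_1_7⟩,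
    ⟨_, c32_A_2_0⟩, ⟨_, c32_A_2_1⟩, ⟨_, c32_A_2_2⟩, ⟨_, c32_A_2_3⟩, ⟨_, c32_A_2_4⟩, ⟨_, c32_A_2_5⟩, ⟨_, c32_A_2_6⟩, ⟨_, c32_A_2_7⟩,
    ⟨_, c32_A_3_0⟩, ⟨_, c32_A_3_1⟩, ⟨_, c32_A_3_2⟩, ⟨_, c32_A_3_3⟩, ⟨_, c32_A_3_4⟩, ⟨_, c32_A_3_5⟩, ⟨_, c32_A_3_6⟩, ⟨_, c32_A_3_7⟩,
    ⟨_, c32_A_4_0⟩, ⟨_, c32_A_4_1⟩, ⟨_, c32_A_4_2⟩, ⟨_, c32_A_4_3⟩, ⟨_, c32_A_4_4⟩, ⟨_, c32_A_4_5⟩, ⟨_, c32_A_4_6⟩, ⟨_, c32_A_4_7⟩]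

theorem x33_A {x v y u : ℝ} (hz : (⟨x, v⟩ : ℂ) ∈ Pg S33) (hw : (⟨y, u⟩ : ℂ) ∈ Pg SA)
    (hv : 0 < v) (hu : 0 < u) :
    (3663 - k33_A.c) / 1000 + k33_A.g1 / 1000 * x + k33_A.g2 / 1000 * v + k33_A.g3 / 1000 * y +
      k33_A.g4 / 1000 * u + k33_A.l1 / 1000 * (AA v x (-u) y).re + k33_A.l2 / 1000 * (AA v x (-u) y).im +
      k33_A.m1 / 1000 * (AA (-u) y v x).re - k33_A.m2 / 1000 * (AA (-u) y v x).im < XI v x (-u) y := by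
  refine X_of2 p33 pA i33 iA ?_ hz hw hv hu
  intro e he f hf
  simp only [S33, SA, List.mem_cons, List.not_mem_nil, or_false] at he hf
  rcases he with rfl | rfl | rfl | rfl | rfl <;> rcases hf with rfl | rfl | rfl | rfl | rfl | rfl | rfl | rfl
  exacts [⟨_, c33_A_0_0⟩, ⟨_, c33_A_0_1⟩, ⟨_, c33_A_0_2⟩, ⟨_, c33_A_0_3⟩, ⟨_, c33_A_0_4⟩, ⟨_, c33_A_0_5⟩, ⟨_, c33_A_0_6⟩, ⟨_, c33_A_0_7⟩,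
    ⟨_, c33_A_1_0⟩, ⟨_, c33_A_1_1⟩, ⟨_, c33_A_1_2⟩, ⟨_, c33_A_1_3⟩, ⟨_, c33_A_1_4⟩, ⟨_, c33_A_1_5⟩, ⟨_, c33_A_1_6⟩, ⟨_, c33_A_1_7⟩,
    ⟨_, c33_A_2_0⟩, ⟨_, c33_A_2_1⟩, ⟨_, c33_A_2_2⟩, ⟨_, c33_A_2_3⟩, ⟨_, c33_A_2_4⟩, ⟨_, c33_A_2_5⟩, ⟨_, c33_A_2_6⟩, ⟨_, c33_A_2_7⟩,
    ⟨_, c33_A_3_0⟩, ⟨_, c33_A_3_1⟩, ⟨_, c33_A_3_2⟩, ⟨_, c33_A_3_3⟩, ⟨_, c33_A_3_4⟩, ⟨_, c33_A_3_5⟩, ⟨_, c33_A_3_6⟩, ⟨_, c33_A_3_7⟩,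
    ⟨_, c33_A_4_0⟩, ⟨_, c33_A_4_1⟩, ⟨_, c33_A_4_2⟩, ⟨_, c33_A_4_3⟩, ⟨_, c33_A_4_4⟩, ⟨_, c33_A_4_5⟩, ⟨_, c33_A_4_6⟩, ⟨_, c33_A_4_7⟩]

theorem x34_A {x v y u : ℝ} (hz : (⟨x, v⟩ : ℂ) ∈ Pg S34) (hw : (⟨y, u⟩ : ℂ) ∈ Pg SA)
    (hv : 0 < v) (hu : 0 < u) :
    (3663 - k34_A.c) / 1000 + k34_A.g1 / 1000 * x + k34_A.g2 / 1000 * v + k34_A.g3 / 1000 * y +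
      k34_A.g4 / 1000 * u + k34_A.l1 / 1000 * (AA v x (-u) y).re + k34_A.l2 / 1000 * (AA v x (-u) y).im +
      k34_A.m1 / 1000 * (AA (-u) y v x).re - k34_A.m2 / 1000 * (AA (-u) y v x).im < XI v x (-u) y := by
  refine X_of2 p34 pA i34 iA ?_ hz hw hv hu
  intro e he f hf
  simp only [S34, SA, List.mem_cons, List.not_mem_nil, or_false] at he hf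
  rcases he with rfl | rfl | rfl | rfl | rfl <;> rcases hf with rfl | rfl | rfl | rfl | rfl | rfl | rfl | rfl
  exacts [⟨_, c34_A_0_0⟩, ⟨_, c34_A_0_1⟩, ⟨_, c34_A_0_2⟩, ⟨_, c34_A_0_3⟩, ⟨_, c34_A_0_4⟩, ⟨_, c34_A_0_5⟩, ⟨_, c34_A_0_6⟩, ⟨_, c34_A_0_7⟩,
    ⟨_, c34_A_1_0⟩, ⟨_, c34_A_1_1⟩, ⟨_, c34_A_1_2⟩, ⟨_, c34_A_1_3⟩, ⟨_, c34_A_1_4⟩, ⟨_, c34_A_1_5⟩, ⟨_, c34_A_1_6⟩, ⟨_, c34_A_1_7⟩,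
    ⟨_, c34_A_2_0⟩, ⟨_, c34_A_2_1⟩, ⟨_, c34_A_2_2⟩, ⟨_, c34_A_2_3⟩, ⟨_, c34_A_2_4⟩, ⟨_, c34_A_2_5⟩, ⟨_, c34_A_2_6⟩, ⟨_, c34_A_2_7⟩,
    ⟨_, c34_A_3_0⟩, ⟨_, c34_A_3_1⟩, ⟨_, c34_A_3_2⟩, ⟨_, c34_A_3_3⟩, ⟨_, c34_A_3_4⟩, ⟨_, c34_A_3_5⟩, ⟨_, c34_A_3_6⟩, ⟨_, c34_A_3_7⟩,
    ⟨_, c34_A_4_0⟩, ⟨_, c34_A_4_1⟩, ⟨_, c34_A_4_2⟩, ⟨_, c34_A_4_3⟩, ⟨_, c34_A_4_4⟩, ⟨_, c34_A_4_5⟩, ⟨_, c34_A_4_6⟩, ⟨_, c34_A_4_7⟩]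

theorem x41_A {x v y u : ℝ} (hz : (⟨x, v⟩ : ℂ) ∈ Pg S41) (hw : (⟨y, u⟩ : ℂ) ∈ Pg SA)
    (hv : 0 < v) (hu : 0 < u) :
    (3663 - k41_A.c) / 1000 + k41_A.g1 / 1000 * x + k41_A.g2 / 1000 * v + k41_A.g3 / 1000 * y +
      k41_A.g4 / 1000 * u + k41_A.l1 / 1000 * (AA v x (-u) y).re + k41_A.l2 / 1000 * (AA v x (-u) y).im +
      k41_A.m1 / 1000 * (AA (-u) y v x).re - k41_A.m2 / 1000 * (AA (-u) y v x).im < XI v x (-u) y := by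
  refine X_of2 p41 pA i41 iA ?_ hz hw hv hu
  intro e he f hf
  simp only [S41, SA, List.mem_cons, List.not_mem_nil, or_false] at he hf
  rcases he with rfl | rfl | rfl | rfl | rfl <;> rcases hf with rfl | rfl | rfl | rfl | rfl | rfl | rfl | rfl
  exacts [⟨_, c41_A_0_0⟩, ⟨_, c41_A_0_1⟩, ⟨_, c41_A_0_2⟩, ⟨_, c41_A_0_3⟩, ⟨_, c41_A_0_4⟩, ⟨_, c41_A_0_5⟩, ⟨_, c41_A_0_6⟩, ⟨_, c41_A_0_7⟩,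
    ⟨_, c41_A_1_0⟩, ⟨_, c41_A_1_1⟩, ⟨_, c41_A_1_2⟩, ⟨_, c41_A_1_3⟩, ⟨_, c41_A_1_4⟩, ⟨_, c41_A_1_5⟩, ⟨_, c41_A_1_6⟩, ⟨_, c41_A_1_7⟩,
    ⟨_, c41_A_2_0⟩, ⟨_, c41_A_2_1⟩, ⟨_, c41_A_2_2⟩, ⟨_, c41_A_2_3⟩, ⟨_, c41_A_2_4⟩, ⟨_, c41_A_2_5⟩, ⟨_, c41_A_2_6⟩, ⟨_, c41_A_2_7⟩,
    ⟨_, c41_A_3_0⟩, ⟨_, c41_A_3_1⟩, ⟨_, c41_A_3_2⟩, ⟨_, c41_A_3_3⟩, ⟨_, c41_A_3_4⟩, ⟨_, c41_A_3_5⟩, ⟨_, c41_A_3_6⟩, ⟨_, c41_A_3_7⟩,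
    ⟨_, c41_A_4_0⟩, ⟨_, c41_A_4_1⟩, ⟨_, c41_A_4_2⟩, ⟨_, c41_A_4_3⟩, ⟨_, c41_A_4_4⟩, ⟨_, c41_A_4_5⟩, ⟨_, c41_A_4_6⟩, ⟨_, c41_A_4_7⟩]

theorem x42_A {x v y u : ℝ} (hz : (⟨x, v⟩ : ℂ) ∈ Pg S42) (hw : (⟨y, u⟩ : ℂ) ∈ Pg SA)
    (hv : 0 < v) (hu : 0 < u) :
    (3663 - k42_A.c) / 1000 + k42_A.g1 / 1000 * x + k42_A.g2 / 1000 * v + k42_A.g3 / 1000 * y +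
      k42_A.g4 / 1000 * u + k42_A.l1 / 1000 * (AA v x (-u) y).re + k42_A.l2 / 1000 * (AA v x (-u) y).im +
      k42_A.m1 / 1000 * (AA (-u) y v x).re - k42_A.m2 / 1000 * (AA (-u) y v x).im < XI v x (-u) y := by
  refine X_of2 p42 pA i42 iA ?_ hz hw hv hu
  intro e he f hf
  simp only [S42, SA, List.mem_cons, List.not_mem_nil, or_false] at he hf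
  rcases he with rfl | rfl | rfl | rfl | rfl <;> rcases hf with rfl | rfl | rfl | rfl | rfl | rfl | rfl | rfl
  exacts [⟨_, c42_A_0_0⟩, ⟨_, c42_A_0_1⟩, ⟨_, c42_A_0_2⟩, ⟨_, c42_A_0_3⟩, ⟨_, c42_A_0_4⟩, ⟨_, c42_A_0_5⟩, ⟨_, c42_A_0_6⟩, ⟨_, c42_A_0_7⟩,
    ⟨_, c42_A_1_0⟩, ⟨_, c42_A_1_1⟩, ⟨_, c42_A_1_2⟩, ⟨_, c42_A_1_3⟩, ⟨_, c42_A_1_4⟩, ⟨_, c42_A_1_5⟩, ⟨_, c42_A_1_6⟩, ⟨_, c42_A_1_7⟩,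
    ⟨_, c42_A_2_0⟩, ⟨_, c42_A_2_1⟩, ⟨_, c42_A_2_2⟩, ⟨_, c42_A_2_3⟩, ⟨_, c42_A_2_4⟩, ⟨_, c42_A_2_5⟩, ⟨_, c42_A_2_6⟩, ⟨_, c42_A_2_7⟩,
    ⟨_, c42_A_3_0⟩, ⟨_, c42_A_3_1⟩, ⟨_, c42_A_3_2⟩, ⟨_, c42_A_3_3⟩, ⟨_, c42_A_3_4⟩, ⟨_, c42_A_3_5⟩, ⟨_, c42_A_3_6⟩, ⟨_, c42_A_3_7⟩,
    ⟨_, c42_A_4_0⟩, ⟨_, c42_A_4_1⟩, ⟨_, c42_A_4_2⟩, ⟨_, c42_A_4_3⟩, ⟨_, c42_A_4_4⟩, ⟨_, c42_A_4_5⟩, ⟨_, c42_A_4_6⟩, ⟨_, c42_A_4_7⟩]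

theorem x5_A {x v y u : ℝ} (hz : (⟨x, v⟩ : ℂ) ∈ Pg S5) (hw : (⟨y, u⟩ : ℂ) ∈ Pg SA)
    (hv : 0 < v) (hu : 0 < u) :
    (3663 - k5_A.c) / 1000 + k5_A.g1 / 1000 * x + k5_A.g2 / 1000 * v + k5_A.g3 / 1000 * y +
      k5_A.g4 / 1000 * u + k5_A.l1 / 1000 * (AA v x (-u) y).re + k5_A.l2 / 1000 * (AA v x (-u) y).im +
      k5_A.m1 / 1000 * (AA (-u) y v x).re - k5_A.m2 / 1000 * (AA (-u) y v x).im < XI v x (-u) y := by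
  refine X_of2 p5 pA i5 iA ?_ hz hw hv hu
  intro e he f hf
  simp only [S5, SA, List.mem_cons, List.not_mem_nil, or_false] at he hf
  rcases he with rfl | rfl | rfl | rfl | rfl | rfl <;> rcases hf with rfl | rfl | rfl | rfl | rfl | rfl | rfl | rfl
  exacts [⟨_, c5_A_0_0⟩, ⟨_, c5_A_0_1⟩, ⟨_, c5_A_0_2⟩, ⟨_, c5_A_0_3⟩, ⟨_, c5_A_0_4⟩, ⟨_, c5_A_0_5⟩, ⟨_, c5_A_0_6⟩, ⟨_, c5_A_0_7⟩,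
    ⟨_, c5_A_1_0⟩, ⟨_, c5_A_1_1⟩, ⟨_, c5_A_1_2⟩, ⟨_, c5_A_1_3⟩, ⟨_, c5_A_1_4⟩, ⟨_, c5_A_1_5⟩, ⟨_, c5_A_1_6⟩, ⟨_, c5_A_1_7⟩,
    ⟨_, c5_A_2_0⟩, ⟨_, c5_A_2_1⟩, ⟨_, c5_A_2_2⟩, ⟨_, c5_A_2_3⟩, ⟨_, c5_A_2_4⟩, ⟨_, c5_A_2_5⟩, ⟨_, c5_A_2_6⟩, ⟨_, c5_A_2_7⟩,
    ⟨_, c5_A_3_0⟩, ⟨_, c5_A_3_1⟩, ⟨_, c5_A_3_2⟩, ⟨_, c5_A_3_3⟩, ⟨_, c5_A_3_4⟩, ⟨_, c5_A_3_5⟩, ⟨_, c5_A_3_6⟩, ⟨_, c5_A_3_7⟩,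
    ⟨_, c5_A_4_0⟩, ⟨_, c5_A_4_1⟩, ⟨_, c5_A_4_2⟩, ⟨_, c5_A_4_3⟩, ⟨_, c5_A_4_4⟩, ⟨_, c5_A_4_5⟩, ⟨_, c5_A_4_6⟩, ⟨_, c5_A_4_7⟩,
    ⟨_, c5_A_5_0⟩, ⟨_, c5_A_5_1⟩, ⟨_, c5_A_5_2⟩, ⟨_, c5_A_5_3⟩, ⟨_, c5_A_5_4⟩, ⟨_, c5_A_5_5⟩, ⟨_, c5_A_5_6⟩, ⟨_, c5_A_5_7⟩]

end Pool.Agent.TR8.CI
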