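import Pool.Agent.Lib_helper56.TR8.Xo
import Pool.Agent.Lib_helper56.TR8.XC.C13
import Pool.Agent.Lib_helper56.TR8.XC.C14
import Pool.Agent.Lib_helper56.TR8.XC.C15
import Pool.Agent.Lib_helper56.TR8.XC.C16
import Pool.Agent.Lib_helper56.TR8.XC.C17
import Pool.Agent.Lib_helper56.TR8.XC.C18

/-!
# The inequalities of pairs of polygons, 1
-/

set_option autoImplicit false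

open Complex

namespace Pool.Agent.TR8.CI

open Pool.Agent.TR5 (AA XI)

theorem x31_31 {x v y u : ℝ} (hz : (⟨x, v⟩ : ℂ) ∈ Pg S31) (hw : (⟨y, u⟩ : ℂ) ∈ Pg S31)
    (hv : 0 < v) (hu : 0 < u) :
    (3663 - k31_31.c) / 1000 + k31_31.g1 / 1000 * x + k31_31.g2 / 1000 * v + k31_31.g3 / 1000 * y +
      k31_31.g4 / 1000 * u + k31_31.l1 / 1000 * (AA v x (-u) y).re + k31_31.l2 / 1000 * (AA v x (-u) y).im +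
      k31_31.m1 / 1000 * (AA (-u) y v x).re - k31_31.m2 / 1000 * (AA (-u) y v x).im < XI v x (-u) y := by
  refine X_of2 p31 p31 i31 i31 ?_ hz hw hv hu
  intro e he f hf
  simp only [S31, List.mem_cons, List.not_mem_nil, or_false] at he hf
  rcases he with rfl | rfl | rfl | rfl | rfl <;> rcases hf with rfl | rfl | rfl | rfl | rfl
  exacts [⟨_, c31_31_0_0⟩, ⟨_, c31_31_0_1⟩, ⟨_, c31_31_0_2⟩, ⟨_, c31_31_0_3⟩, ⟨_, c31_31_0_4⟩,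
    ⟨_, c31_31_1_0⟩, ⟨_, c31_31_1_1⟩, ⟨_, c31_31_1_2⟩, ⟨_, c31_31_1_3⟩, ⟨_, c31_31_1_4⟩,
    ⟨_, c31_31_2_0⟩, ⟨_, c31_31_2_1⟩, ⟨_, c31_31_2_2⟩, ⟨_, c31_31_2_3⟩, ⟨_, c31_31_2_4⟩,
    ⟨_, c31_31_3_0⟩, ⟨_, c31_31_3_1⟩, ⟨_, c31_31_3_2⟩, ⟨_, c31_31_3_3⟩, ⟨_, c31_31_3_4⟩,
    ⟨_, c31_31_4_0⟩, ⟨_, c31_31_4_1⟩, ⟨_, c31_31_4_2⟩, ⟨_, c31_31_4_3⟩, ⟨_, c31_31_4_4⟩]

theorem x31_32 {x v y u : ℝ} (hz : (⟨x, v⟩ : ℂ) ∈ Pg S31) (hw : (⟨y, u⟩ : ℂ) ∈ Pg S32)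
    (hv : 0 < v) (hu : 0 < u) :
    (3663 - k31_32.c) / 1000 + k31_32.g1 / 1000 * x + k31_32.g2 / 1000 * v + k31_32.g3 / 1000 * y +
      k31_32.g4 / 1000 * u + k31_32.l1 / 1000 * (AA v x (-u) y).re + k31_32.l2 / 1000 * (AA v x (-u) y).im +
      k31_32.m1 / 1000 * (AA (-u) y v x).re - k31_32.m2 / 1000 * (AA (-u) y v x).im < XI v x (-u) y := by
  refine X_of2 p31 p32 i31 i32 ?_ hz hw hv hu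
  intro e he f hf
  simp only [S31, S32, List.mem_cons, List.not_mem_nil, or_false] at he hf
  rcases he with rfl | rfl | rfl | rfl | rfl <;> rcases hf with rfl | rfl | rfl | rfl | rfl
  exacts [⟨_, c31_32_0_0⟩, ⟨_, c31_32_0_1⟩, ⟨_, c31_32_0_2⟩, ⟨_, c31_32_0_3⟩, ⟨_, c31_32_0_4⟩,
    ⟨_, c31_32_1_0⟩, ⟨_, c31_32_1_1⟩, ⟨_, c31_32_1_2⟩, ⟨_, c31_32_1_3⟩, ⟨_, c31_32_1_4⟩,
    ⟨_, c31_32_2_0⟩, ⟨_, c31_32_2_1⟩, ⟨_, c31_32_2_2⟩, ⟨_, c31_32_2_3⟩, ⟨_, c31_32_2_4⟩,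
    ⟨_, c31_32_3_0⟩, ⟨_, c31_32_3_1⟩, ⟨_, c31_32_3_2⟩, ⟨_, c31_32_3_3⟩, ⟨_, c31_32_3_4⟩,
    ⟨_, c31_32_4_0⟩, ⟨_, c31_32_4_1⟩, ⟨_, c31_32_4_2⟩, ⟨_, c31_32_4_3⟩, ⟨_, c31_32_4_4⟩]

theorem x31_33 {x v y u : ℝ} (hz : (⟨x, v⟩ : ℂ) ∈ Pg S31) (hw : (⟨y, u⟩ : ℂ) ∈ Pg S33)
    (hv : 0 < v) (hu : 0 < u) :
    (3663 - k31_33.c) / 1000 + k31_33.g1 / 1000 * x + k31_33.g2 / 1000 * v + k31_33.g3 / 1000 * y +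
      k31_33.g4 / 1000 * u + k31_33.l1 / 1000 * (AA v x (-u) y).re + k31_33.l2 / 1000 * (AA v x (-u) y).im +
      k31_33.m1 / 1000 * (AA (-u) y v x).re - k31_33.m2 / 1000 * (AA (-u) y v x).im < XI v x (-u) y := by
  refine X_of2 p31 p33 i31 i33 ?_ hz hw hv hu
  intro e he f hf
  simp only [S31, S33, List.mem_cons, List.not_mem_nil, or_false] at he hf
  rcases he with rfl | rfl | rfl | rfl | rfl <;> rcases hf with rfl | rfl | rfl | rfl | rfl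
  exacts [⟨_, c31_33_0_0⟩, ⟨_, c31_33_0_1⟩, ⟨_, c31_33_0_2⟩, ⟨_, c31_33_0_3⟩, ⟨_, c31_33_0_4⟩,
    ⟨_, c31_33_1_0⟩, ⟨_, c31_33_1_1⟩, ⟨_, c31_33_1_2⟩, ⟨_, c31_33_1_3⟩, ⟨_, c31_33_1_4⟩,
    ⟨_, c31_33_2_0⟩, ⟨_, c31_33_2_1⟩, ⟨_, c31_33_2_2⟩, ⟨_, c31_33_2_3⟩, ⟨_, c31_33_2_4⟩,
    ⟨_, c31_33_3_0⟩, ⟨_, c31_33_3_1⟩, ⟨_, c31_33_3_2⟩, ⟨_, c31_33_3_3⟩, ⟨_, c31_33_3_4⟩,
    ⟨_, c31_33_4_0⟩, ⟨_, c31_33_4_1⟩, ⟨_, c31_33_4_2⟩, ⟨_, c31_33_4_3⟩, ⟨_, c31_33_4_4⟩]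

theorem x31_34 {x v y u : ℝ} (hz : (⟨x, v⟩ : ℂ) ∈ Pg S31) (hw : (⟨y, u⟩ : ℂ) ∈ Pg S34)
    (hv : 0 < v) (hu : 0 < u) :
    (3663 - k31_34.c) / 1000 + k31_34.g1 / 1000 * x + k31_34.g2 / 1000 * v + k31_34.g3 / 1000 * y +
      k31_34.g4 / 1000 * u + k31_34.l1 / 1000 * (AA v x (-u) y).re + k31_34.l2 / 1000 * (AA v x (-u) y).im +
      k31_34.m1 / 1000 * (AA (-u) y v x).re - k31_34.m2 / 1000 * (AA (-u) y v x).im < XI v x (-u) y := by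
  refine X_of2 p31 p34 i31 i34 ?_ hz hw hv hu
  intro e he f hf
  simp only [S31, S34, List.mem_cons, List.not_mem_nil, or_false] at he hf
  rcases he with rfl | rfl | rfl | rfl | rfl <;> rcases hf with rfl | rfl | rfl | rfl | rfl
  exacts [⟨_, c31_34_0_0⟩, ⟨_, c31_34_0_1⟩, ⟨_, c31_34_0_2⟩, ⟨_, c31_34_0_3⟩, ⟨_, c31_34_0_4⟩,
    ⟨_, c31_34_1_0⟩, ⟨_, c31_34_1_1⟩, ⟨_, c31_34_1_2⟩, ⟨_, c31_34_1_3⟩, ⟨_, c31_34_1_4⟩,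
    ⟨_, c31_34_2_0⟩, ⟨_, c31_34_2_1⟩, ⟨_, c31_34_2_2⟩, ⟨_, c31_34_2_3⟩, ⟨_, c31_34_2_4⟩,
    ⟨_, c31_34_3_0⟩, ⟨_, c31_34_3_1⟩, ⟨_, c31_34_3_2⟩, ⟨_, c31_34_3_3⟩, ⟨_, c31_34_3_4⟩,
    ⟨_, c31_34_4_0⟩, ⟨_, c31_34_4_1⟩, ⟨_, c31_34_4_2⟩, ⟨_, c31_34_4_3⟩, ⟨_, c31_34_4_4⟩]

theorem x31_35 {x v y u : ℝ} (hz : (⟨x, v⟩ : ℂ) ∈ Pg S31) (hw : (⟨y, u⟩ : ℂ) ∈ Pg S35)
    (hv : 0 < v) (hu : 0 < u) :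
    (3663 - k31_35.c) / 1000 + k31_35.g1 / 1000 * x + k31_35.g2 / 1000 * v + k31_35.g3 / 1000 * y +
      k31_35.g4 / 1000 * u + k31_35.l1 / 1000 * (AA v x (-u) y).re + k31_35.l2 / 1000 * (AA v x (-u) y).im +
      k31_35.m1 / 1000 * (AA (-u) y v x).re - k31_35.m2 / 1000 * (AA (-u) y v x).im < XI v x (-u) y := by
  refine X_of2 p31 p35 i31 i35 ?_ hz hw hv hu
  intro e he f hf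
  simp only [S31, S35, List.mem_cons, List.not_mem_nil, or_false] at he hf
  rcases he with rfl | rfl | rfl | rfl | rfl <;> rcases hf with rfl | rfl | rfl | rfl | rfl
  exacts [⟨_, c31_35_0_0⟩, ⟨_, c31_35_0_1⟩, ⟨_, c31_35_0_2⟩, ⟨_, c31_35_0_3⟩, ⟨_, c31_35_0_4⟩,
    ⟨_, c31_35_1_0⟩, ⟨_, c31_35_1_1⟩, ⟨_, c31_35_1_2⟩, ⟨_, c31_35_1_3⟩, ⟨_, c31_35_1_4⟩,
    ⟨_, c31_35_2_0⟩, ⟨_, c31_35_2_1⟩, ⟨_, c31_35_2_2⟩, ⟨_, c31_35_2_3⟩, ⟨_, c31_35_2_4⟩,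
    ⟨_, c31_35_3_0⟩, ⟨_, c31_35_3_1⟩, ⟨_, c31_35_3_2⟩, ⟨_, c31_35_3_3⟩, ⟨_, c31_35_3_4⟩,
    ⟨_, c31_35_4_0⟩, ⟨_, c31_35_4_1⟩, ⟨_, c31_35_4_2⟩, ⟨_, c31_35_4_3⟩, ⟨_, c31_35_4_4⟩]

theorem x31_41 {x v y u : ℝ} (hz : (⟨x, v⟩ : ℂ) ∈ Pg S31) (hw : (⟨y, u⟩ : ℂ) ∈ Pg S41)
    (hv : 0 < v) (hu : 0 < u) :
    (3663 - k31_41.c) / 1000 + k31_41.g1 / 1000 * x + k31_41.g2 / 1000 * v + k31_41.g3 / 1000 * y +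
      k31_41.g4 / 1000 * u + k31_41.l1 / 1000 * (AA v x (-u) y).re + k31_41.l2 / 1000 * (AA v x (-u) y).im +
      k31_41.m1 / 1000 * (AA (-u) y v x).re - k31_41.m2 / 1000 * (AA (-u) y v x).im < XI v x (-u) y := by
  refine X_of2 p31 p41 i31 i41 ?_ hz hw hv hu
  intro e he f hf
  simp only [S31, S41, List.mem_cons, List.not_mem_nil, or_false] at he hf
  rcases he with rfl | rfl | rfl | rfl | rfl <;> rcases hf with rfl | rfl | rfl | rfl | rfl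
  exacts [⟨_, c31_41_0_0⟩, ⟨_, c31_41_0_1⟩, ⟨_, c31_41_0_2⟩, ⟨_, c31_41_0_3⟩, ⟨_, c31_41_0_4⟩,
    ⟨_, c31_41_1_0⟩, ⟨_, c31_41_1_1⟩, ⟨_, c31_41_1_2⟩, ⟨_, c31_41_1_3⟩, ⟨_, c31_41_1_4⟩,
    ⟨_, c31_41_2_0⟩, ⟨_, c31_41_2_1⟩, ⟨_, c31_41_2_2⟩, ⟨_, c31_41_2_3⟩, ⟨_, c31_41_2_4⟩,
    ⟨_, c31_41_3_0⟩, ⟨_, c31_41_3_1⟩, ⟨_, c31_41_3_2⟩, ⟨_, c31_41_3_3⟩, ⟨_, c31_41_3_4⟩,
    ⟨_, c31_41_4_0⟩, ⟨_, c31_41_4_1⟩, ⟨_, c31_41_4_2⟩, ⟨_, c31_41_4_3⟩, ⟨_, c31_41_4_4⟩]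

theorem x31_42 {x v y u : ℝ} (hz : (⟨x, v⟩ : ℂ) ∈ Pg S31) (hw : (⟨y, u⟩ : ℂ) ∈ Pg S42)
    (hv : 0 < v) (hu : 0 < u) :
    (3663 - k31_42.c) / 1000 + k31_42.g1 / 1000 * x + k31_42.g2 / 1000 * v + k31_42.g3 / 1000 * y +
      k31_42.g4 / 1000 * u + k31_42.l1 / 1000 * (AA v x (-u) y).re + k31_42.l2 / 1000 * (AA v x (-u) y).im +
      k31_42.m1 / 1000 * (AA (-u) y v x).re - k31_42.m2 / 1000 * (AA (-u) y v x).im < XI v x (-u) y := by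
  refine X_of2 p31 p42 i31 i42 ?_ hz hw hv hu
  intro e he f hf
  simp only [S31, S42, List.mem_cons, List.not_mem_nil, or_false] at he hf
  rcases he with rfl | rfl | rfl | rfl | rfl <;> rcases hf with rfl | rfl | rfl | rfl | rfl
  exacts [⟨_, c31_42_0_0⟩, ⟨_, c31_42_0_1⟩, ⟨_, c31_42_0_2⟩, ⟨_, c31_42_0_3⟩, ⟨_, c31_42_0_4⟩,
    ⟨_, c31_42_1_0⟩, ⟨_, c31_42_1_1⟩, ⟨_, c31_42_1_2⟩, ⟨_, c31_42_1_3⟩, ⟨_, c31_42_1_4⟩,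
    ⟨_, c31_42_2_0⟩, ⟨_, c31_42_2_1⟩, ⟨_, c31_42_2_2⟩, ⟨_, c31_42_2_3⟩, ⟨_, c31_42_2_4⟩,
    ⟨_, c31_42_3_0⟩, ⟨_, c31_42_3_1⟩, ⟨_, c31_42_3_2⟩, ⟨_, c31_42_3_3⟩, ⟨_, c31_42_3_4⟩,
    ⟨_, c31_42_4_0⟩, ⟨_, c31_42_4_1⟩, ⟨_, c31_42_4_2⟩, ⟨_, c31_42_4_3⟩, ⟨_, c31_42_4_4⟩]

theorem x31_R {x v y u : ℝ} (hz : (⟨x, v⟩ : ℂ) ∈ Pg S31) (hw : (⟨y, u⟩ : ℂ) ∈ Pg SR)
    (hv : 0 < v) (hu : 0 < u) :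
    (3663 - k31_R.c) / 1000 + k31_R.g1 / 1000 * x + k31_R.g2 / 1000 * v + k31_R.g3 / 1000 * y +
      k31_R.g4 / 1000 * u + k31_R.l1 / 1000 * (AA v x (-u) y).re + k31_R.l2 / 1000 * (AA v x (-u) y).im +
      k31_R.m1 / 1000 * (AA (-u) y v x).re - k31_R.m2 / 1000 * (AA (-u) y v x).im < XI v x (-u) y := by
  refine X_of2 p31 pR i31 iR ?_ hz hw hv hu
  intro e he f hf
  simp only [S31, SR, List.mem_cons, List.not_mem_nil, or_false] at he hf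
  rcases he with rfl | rfl | rfl | rfl | rfl <;> rcases hf with rfl | rfl | rfl | rfl | rfl | rfl
  exacts [⟨_, c31_R_0_0⟩, ⟨_, c31_R_0_1⟩, ⟨_, c31_R_0_2⟩, ⟨_, c31_R_0_3⟩, ⟨_, c31_R_0_4⟩, ⟨_, c31_R_0_5⟩,
    ⟨_, c31_R_1_0⟩, ⟨_, c31_R_1_1⟩, ⟨_, c31_R_1_2⟩, ⟨_, c31_R_1_3⟩, ⟨_, c31_R_1_4⟩, ⟨_, c31_R_1_5⟩,
    ⟨_, c31_R_2_0⟩, ⟨_, c31_R_2_1⟩, ⟨_, c31_R_2_2⟩, ⟨_, c31_R_2_3⟩, ⟨_, c31_R_2_4⟩, ⟨_, c31_R_2_5⟩,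
    ⟨_, c31_R_3_0⟩, ⟨_, c31_R_3_1⟩, ⟨_, c31_R_3_2⟩, ⟨_, c31_R_3_3⟩, ⟨_, c31_R_3_4⟩, ⟨_, c31_R_3_5⟩,
    ⟨_, c31_R_4_0⟩, ⟨_, c31_R_4_1⟩, ⟨_, c31_R_4_2⟩, ⟨_, c31_R_4_3⟩, ⟨_, c31_R_4_4⟩, ⟨_, c31_R_4_5⟩]

end Pool.Agent.TR8.CI
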