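import Pool.Agent.Lib_helper56.TR8.Xo
import Pool.Agent.Lib_helper56.TR8.XC.C31
import Pool.Agent.Lib_helper56.TR8.XC.C32
import Pool.Agent.Lib_helper56.TR8.XC.C33
import Pool.Agent.Lib_helper56.TR8.XC.C34
import Pool.Agent.Lib_helper56.TR8.XC.C35
import Pool.Agent.Lib_helper56.TR8.XC.C36
import Pool.Agent.Lib_helper56.TR8.XC.C37

/-!
# The inequalities of pairs of polygons, 3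
-/

set_option autoImplicit false

open Complex

namespace Pool.Agent.TR8.CI

open Pool.Agent.TR5 (AA XI)

theorem x33_33 {x v y u : ℝ} (hz : (⟨x, v⟩ : ℂ) ∈ Pg S33) (hw : (⟨y, u⟩ : ℂ) ∈ Pg S33)
    (hv : 0 < v) (hu : 0 < u) :
    (3663 - k33_33.c) / 1000 + k33_33.g1 / 1000 * x + k33_33.g2 / 1000 * v + k33_33.g3 / 1000 * y +
      k33_33.g4 / 1000 * u + k33_33.l1 / 1000 * (AA v x (-u) y).re + k33_33.l2 / 1000 * (AA v x (-u) y).im +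
      k33_33.m1 / 1000 * (AA (-u) y v x).re - k33_33.m2 / 1000 * (AA (-u) y v x).im < XI v x (-u) y := by
  refine X_of2 p33 p33 i33 i33 ?_ hz hw hv hu
  intro e he f hf
  simp only [S33, List.mem_cons, List.not_mem_nil, or_false] at he hf
  rcases he with rfl | rfl | rfl | rfl | rfl <;> rcases hf with rfl | rfl | rfl | rfl | rfl
  exacts [⟨_, c33_33_0_0⟩, ⟨_, c33_33_0_1⟩, ⟨_, c33_33_0_2⟩, ⟨_, c33_33_0_3⟩, ⟨_, c33_33_0_4⟩,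
    ⟨_, c33_33_1_0⟩, ⟨_, c33_33_1_1⟩, ⟨_, c33_33_1_2⟩, ⟨_, c33_33_1_3⟩, ⟨_, c33_33_1_4⟩,
    ⟨_, c33_33_2_0⟩, ⟨_, c33_33_2_1⟩, ⟨_, c33_33_2_2⟩, ⟨_, c33_33_2_3⟩, ⟨_, c33_33_2_4⟩,
    ⟨_, c33_33_3_0⟩, ⟨_, c33_33_3_1⟩, ⟨_, c33_33_3_2⟩, ⟨_, c33_33_3_3⟩, ⟨_, c33_33_3_4⟩,
    ⟨_, c33_33_4_0⟩, ⟨_, c33_33_4_1⟩, ⟨_, c33_33_4_2⟩, ⟨_, c33_33_4_3⟩, ⟨_, c33_33_4_4⟩]

theorem x33_34 {x v y u : ℝ} (hz : (⟨x, v⟩ : ℂ) ∈ Pg S33) (hw : (⟨y, u⟩ : ℂ) ∈ Pg S34)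
    (hv : 0 < v) (hu : 0 < u) :
    (3663 - k33_34.c) / 1000 + k33_34.g1 / 1000 * x + k33_34.g2 / 1000 * v + k33_34.g3 / 1000 * y +
      k33_34.g4 / 1000 * u + k33_34.l1 / 1000 * (AA v x (-u) y).re + k33_34.l2 / 1000 * (AA v x (-u) y).im +
      k33_34.m1 / 1000 * (AA (-u) y v x).re - k33_34.m2 / 1000 * (AA (-u) y v x).im < XI v x (-u) y := by
  refine X_of2 p33 p34 i33 i34 ?_ hz hw hv hu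
  intro e he f hf
  simp only [S33, S34, List.mem_cons, List.not_mem_nil, or_false] at he hf
  rcases he with rfl | rfl | rfl | rfl | rfl <;> rcases hf with rfl | rfl | rfl | rfl | rfl
  exacts [⟨_, c33_34_0_0⟩, ⟨_, c33_34_0_1⟩, ⟨_, c33_34_0_2⟩, ⟨_, c33_34_0_3⟩, ⟨_, c33_34_0_4⟩,
    ⟨_, c33_34_1_0⟩, ⟨_, c33_34_1_1⟩, ⟨_, c33_34_1_2⟩, ⟨_, c33_34_1_3⟩, ⟨_, c33_34_1_4⟩,
    ⟨_, c33_34_2_0⟩, ⟨_, c33_34_2_1⟩, ⟨_, c33_34_2_2⟩, ⟨_, c33_34_2_3⟩, ⟨_, c33_34_2_4⟩,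
    ⟨_, c33_34_3_0⟩, ⟨_, c33_34_3_1⟩, ⟨_, c33_34_3_2⟩, ⟨_, c33_34_3_3⟩, ⟨_, c33_34_3_4⟩,
    ⟨_, c33_34_4_0⟩, ⟨_, c33_34_4_1⟩, ⟨_, c33_34_4_2⟩, ⟨_, c33_34_4_3⟩, ⟨_, c33_34_4_4⟩]

theorem x33_35 {x v y u : ℝ} (hz : (⟨x, v⟩ : ℂ) ∈ Pg S33) (hw : (⟨y, u⟩ : ℂ) ∈ Pg S35)
    (hv : 0 < v) (hu : 0 < u) :
    (3663 - k33_35.c) / 1000 + k33_35.g1 / 1000 * x + k33_35.g2 / 1000 * v + k33_35.g3 / 1000 * y +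
      k33_35.g4 / 1000 * u + k33_35.l1 / 1000 * (AA v x (-u) y).re + k33_35.l2 / 1000 * (AA v x (-u) y).im +
      k33_35.m1 / 1000 * (AA (-u) y v x).re - k33_35.m2 / 1000 * (AA (-u) y v x).im < XI v x (-u) y := by
  refine X_of2 p33 p35 i33 i35 ?_ hz hw hv hu
  intro e he f hf
  simp only [S33, S35, List.mem_cons, List.not_mem_nil, or_false] at he hf
  rcases he with rfl | rfl | rfl | rfl | rfl <;> rcases hf with rfl | rfl | rfl | rfl | rfl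
  exacts [⟨_, c33_35_0_0⟩, ⟨_, c33_35_0_1⟩, ⟨_, c33_35_0_2⟩, ⟨_, c33_35_0_3⟩, ⟨_, c33_35_0_4⟩,
    ⟨_, c33_35_1_0⟩, ⟨_, c33_35_1_1⟩, ⟨_, c33_35_1_2⟩, ⟨_, c33_35_1_3⟩, ⟨_, c33_35_1_4⟩,
    ⟨_, c33_35_2_0⟩, ⟨_, c33_35_2_1⟩, ⟨_, c33_35_2_2⟩, ⟨_, c33_35_2_3⟩, ⟨_, c33_35_2_4⟩,
    ⟨_, c33_35_3_0⟩, ⟨_, c33_35_3_1⟩, ⟨_, c33_35_3_2⟩, ⟨_, c33_35_3_3⟩, ⟨_, c33_35_3_4⟩,
    ⟨_, c33_35_4_0⟩, ⟨_, c33_35_4_1⟩, ⟨_, c33_35_4_2⟩, ⟨_, c33_35_4_3⟩, ⟨_, c33_35_4_4⟩]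

theorem x33_41 {x v y u : ℝ} (hz : (⟨x, v⟩ : ℂ) ∈ Pg S33) (hw : (⟨y, u⟩ : ℂ) ∈ Pg S41)
    (hv : 0 < v) (hu : 0 < u) :
    (3663 - k33_41.c) / 1000 + k33_41.g1 / 1000 * x + k33_41.g2 / 1000 * v + k33_41.g3 / 1000 * y +
      k33_41.g4 / 1000 * u + k33_41.l1 / 1000 * (AA v x (-u) y).re + k33_41.l2 / 1000 * (AA v x (-u) y).im +
      k33_41.m1 / 1000 * (AA (-u) y v x).re - k33_41.m2 / 1000 * (AA (-u) y v x).im < XI v x (-u) y := by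
  refine X_of2 p33 p41 i33 i41 ?_ hz hw hv hu
  intro e he f hf
  simp only [S33, S41, List.mem_cons, List.not_mem_nil, or_false] at he hf
  rcases he with rfl | rfl | rfl | rfl | rfl <;> rcases hf with rfl | rfl | rfl | rfl | rfl
  exacts [⟨_, c33_41_0_0⟩, ⟨_, c33_41_0_1⟩, ⟨_, c33_41_0_2⟩, ⟨_, c33_41_0_3⟩, ⟨_, c33_41_0_4⟩,
    ⟨_, c33_41_1_0⟩, ⟨_, c33_41_1_1⟩, ⟨_, c33_41_1_2⟩, ⟨_, c33_41_1_3⟩, ⟨_, c33_41_1_4⟩,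
    ⟨_, c33_41_2_0⟩, ⟨_, c33_41_2_1⟩, ⟨_, c33_41_2_2⟩, ⟨_, c33_41_2_3⟩, ⟨_, c33_41_2_4⟩,
    ⟨_, c33_41_3_0⟩, ⟨_, c33_41_3_1⟩, ⟨_, c33_41_3_2⟩, ⟨_, c33_41_3_3⟩, ⟨_, c33_41_3_4⟩,
    ⟨_, c33_41_4_0⟩, ⟨_, c33_41_4_1⟩, ⟨_, c33_41_4_2⟩, ⟨_, c33_41_4_3⟩, ⟨_, c33_41_4_4⟩]

theorem x33_42 {x v y u : ℝ} (hz : (⟨x, v⟩ : ℂ) ∈ Pg S33) (hw : (⟨y, u⟩ : ℂ) ∈ Pg S42)
    (hv : 0 < v) (hu : 0 < u) :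
    (3663 - k33_42.c) / 1000 + k33_42.g1 / 1000 * x + k33_42.g2 / 1000 * v + k33_42.g3 / 1000 * y +
      k33_42.g4 / 1000 * u + k33_42.l1 / 1000 * (AA v x (-u) y).re + k33_42.l2 / 1000 * (AA v x (-u) y).im +
      k33_42.m1 / 1000 * (AA (-u) y v x).re - k33_42.m2 / 1000 * (AA (-u) y v x).im < XI v x (-u) y := by
  refine X_of2 p33 p42 i33 i42 ?_ hz hw hv hu
  intro e he f hf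
  simp only [S33, S42, List.mem_cons, List.not_mem_nil, or_false] at he hf
  rcases he with rfl | rfl | rfl | rfl | rfl <;> rcases hf with rfl | rfl | rfl | rfl | rfl
  exacts [⟨_, c33_42_0_0⟩, ⟨_, c33_42_0_1⟩, ⟨_, c33_42_0_2⟩, ⟨_, c33_42_0_3⟩, ⟨_, c33_42_0_4⟩,
    ⟨_, c33_42_1_0⟩, ⟨_, c33_42_1_1⟩, ⟨_, c33_42_1_2⟩, ⟨_, c33_42_1_3⟩, ⟨_, c33_42_1_4⟩,
    ⟨_, c33_42_2_0⟩, ⟨_, c33_42_2_1⟩, ⟨_, c33_42_2_2⟩, ⟨_, c33_42_2_3⟩, ⟨_, c33_42_2_4⟩,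
    ⟨_, c33_42_3_0⟩, ⟨_, c33_42_3_1⟩, ⟨_, c33_42_3_2⟩, ⟨_, c33_42_3_3⟩, ⟨_, c33_42_3_4⟩,
    ⟨_, c33_42_4_0⟩, ⟨_, c33_42_4_1⟩, ⟨_, c33_42_4_2⟩, ⟨_, c33_42_4_3⟩, ⟨_, c33_42_4_4⟩]

theorem x33_R {x v y u : ℝ} (hz : (⟨x, v⟩ : ℂ) ∈ Pg S33) (hw : (⟨y, u⟩ : ℂ) ∈ Pg SR)
    (hv : 0 < v) (hu : 0 < u) :
    (3663 - k33_R.c) / 1000 + k33_R.g1 / 1000 * x + k33_R.g2 / 1000 * v + k33_R.g3 / 1000 * y +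
      k33_R.g4 / 1000 * u + k33_R.l1 / 1000 * (AA v x (-u) y).re + k33_R.l2 / 1000 * (AA v x (-u) y).im +
      k33_R.m1 / 1000 * (AA (-u) y v x).re - k33_R.m2 / 1000 * (AA (-u) y v x).im < XI v x (-u) y := by
  refine X_of2 p33 pR i33 iR ?_ hz hw hv hu
  intro e he f hf
  simp only [S33, SR, List.mem_cons, List.not_mem_nil, or_false] at he hf
  rcases he with rfl | rfl | rfl | rfl | rfl <;> rcases hf with rfl | rfl | rfl | rfl | rfl | rfl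
  exacts [⟨_, c33_R_0_0⟩, ⟨_, c33_R_0_1⟩, ⟨_, c33_R_0_2⟩, ⟨_, c33_R_0_3⟩, ⟨_, c33_R_0_4⟩, ⟨_, c33_R_0_5⟩,
    ⟨_, c33_R_1_0⟩, ⟨_, c33_R_1_1⟩, ⟨_, c33_R_1_2⟩, ⟨_, c33_R_1_3⟩, ⟨_, c33_R_1_4⟩, ⟨_, c33_R_1_5⟩,
    ⟨_, c33_R_2_0⟩, ⟨_, c33_R_2_1⟩, ⟨_, c33_R_2_2⟩, ⟨_, c33_R_2_3⟩, ⟨_, c33_R_2_4⟩, ⟨_, c33_R_2_5⟩,
    ⟨_, c33_R_3_0⟩, ⟨_, c33_R_3_1⟩, ⟨_, c33_R_3_2⟩, ⟨_, c33_R_3_3⟩, ⟨_, c33_R_3_4⟩, ⟨_, c33_R_3_5⟩,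
    ⟨_, c33_R_4_0⟩, ⟨_, c33_R_4_1⟩, ⟨_, c33_R_4_2⟩, ⟨_, c33_R_4_3⟩, ⟨_, c33_R_4_4⟩, ⟨_, c33_R_4_5⟩]

end Pool.Agent.TR8.CI
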