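import Pool.Agent.Lib_helper56.TR8.Xo
import Pool.Agent.Lib_helper56.TR8.XC.C37
import Pool.Agent.Lib_helper56.TR8.XC.C38
import Pool.Agent.Lib_helper56.TR8.XC.C39
import Pool.Agent.Lib_helper56.TR8.XC.C40

/-!
# The inequalities of pairs of polygons, 4
-/

set_option autoImplicit false

open Complex

namespace Pool.Agent.TR8.CI

open Pool.Agent.TR5 (AA XI)

theorem x34_34 {x v y u : ℝ} (hz : (⟨x, v⟩ : ℂ) ∈ Pg S34) (hw : (⟨y, u⟩ : ℂ) ∈ Pg S34)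
    (hv : 0 < v) (hu : 0 < u) :
    (3663 - k34_34.c) / 1000 + k34_34.g1 / 1000 * x + k34_34.g2 / 1000 * v + k34_34.g3 / 1000 * y +
      k34_34.g4 / 1000 * u + k34_34.l1 / 1000 * (AA v x (-u) y).re + k34_34.l2 / 1000 * (AA v x (-u) y).im +
      k34_34.m1 / 1000 * (AA (-u) y v x).re - k34_34.m2 / 1000 * (AA (-u) y v x).im < XI v x (-u) y := by
  refine X_of2 p34 p34 i34 i34 ?_ hz hw hv hu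
  intro e he f hf
  simp only [S34, List.mem_cons, List.not_mem_nil, or_false] at he hf
  rcases he with rfl | rfl | rfl | rfl | rfl <;> rcases hf with rfl | rfl | rfl | rfl | rfl
  exacts [⟨_, c34_34_0_0⟩, ⟨_, c34_34_0_1⟩, ⟨_, c34_34_0_2⟩, ⟨_, c34_34_0_3⟩, ⟨_, c34_34_0_4⟩,
    ⟨_, c34_34_1_0⟩, ⟨_, c34_34_1_1⟩, ⟨_, c34_34_1_2⟩, ⟨_, c34_34_1_3⟩, ⟨_, c34_34_1_4⟩,
    ⟨_, c34_34_2_0⟩, ⟨_, c34_34_2_1⟩, ⟨_, c34_34_2_2⟩, ⟨_, c34_34_2_3⟩, ⟨_, c34_34_2_4⟩,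
    ⟨_, c34_34_3_0⟩, ⟨_, c34_34_3_1⟩, ⟨_, c34_34_3_2⟩, ⟨_, c34_34_3_3⟩, ⟨_, c34_34_3_4⟩,
    ⟨_, c34_34_4_0⟩, ⟨_, c34_34_4_1⟩, ⟨_, c34_34_4_2⟩, ⟨_, c34_34_4_3⟩, ⟨_, c34_34_4_4⟩]

theorem x34_35 {x v y u : ℝ} (hz : (⟨x, v⟩ : ℂ) ∈ Pg S34) (hw : (⟨y, u⟩ : ℂ) ∈ Pg S35)
    (hv : 0 < v) (hu : 0 < u) :
    (3663 - k34_35.c) / 1000 + k34_35.g1 / 1000 * x + k34_35.g2 / 1000 * v + k34_35.g3 / 1000 * y +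
      k34_35.g4 / 1000 * u + k34_35.l1 / 1000 * (AA v x (-u) y).re + k34_35.l2 / 1000 * (AA v x (-u) y).im +
      k34_35.m1 / 1000 * (AA (-u) y v x).re - k34_35.m2 / 1000 * (AA (-u) y v x).im < XI v x (-u) y := by
  refine X_of2 p34 p35 i34 i35 ?_ hz hw hv hu
  intro e he f hf
  simp only [S34, S35, List.mem_cons, List.not_mem_nil, or_false] at he hf
  rcases he with rfl | rfl | rfl | rfl | rfl <;> rcases hf with rfl | rfl | rfl | rfl | rfl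
  exacts [⟨_, c34_35_0_0⟩, ⟨_, c34_35_0_1⟩, ⟨_, c34_35_0_2⟩, ⟨_, c34_35_0_3⟩, ⟨_, c34_35_0_4⟩,
    ⟨_, c34_35_1_0⟩, ⟨_, c34_35_1_1⟩, ⟨_, c34_35_1_2⟩, ⟨_, c34_35_1_3⟩, ⟨_, c34_35_1_4⟩,
    ⟨_, c34_35_2_0⟩, ⟨_, c34_35_2_1⟩, ⟨_, c34_35_2_2⟩, ⟨_, c34_35_2_3⟩, ⟨_, c34_35_2_4⟩,
    ⟨_, c34_35_3_0⟩, ⟨_, c34_35_3_1⟩, ⟨_, c34_35_3_2⟩, ⟨_, c34_35_3_3⟩, ⟨_, c34_35_3_4⟩,
    ⟨_, c34_35_4_0⟩, ⟨_, c34_35_4_1⟩, ⟨_, c34_35_4_2⟩, ⟨_, c34_35_4_3⟩, ⟨_, c34_35_4_4⟩]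

theorem x34_41 {x v y u : ℝ} (hz : (⟨x, v⟩ : ℂ) ∈ Pg S34) (hw : (⟨y, u⟩ : ℂ) ∈ Pg S41)
    (hv : 0 < v) (hu : 0 < u) :
    (3663 - k34_41.c) / 1000 + k34_41.g1 / 1000 * x + k34_41.g2 / 1000 * v + k34_41.g3 / 1000 * y +
      k34_41.g4 / 1000 * u + k34_41.l1 / 1000 * (AA v x (-u) y).re + k34_41.l2 / 1000 * (AA v x (-u) y).im +
      k34_41.m1 / 1000 * (AA (-u) y v x).re - k34_41.m2 / 1000 * (AA (-u) y v x).im < XI v x (-u) y := by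
  refine X_of2 p34 p41 i34 i41 ?_ hz hw hv hu
  intro e he f hf
  simp only [S34, S41, List.mem_cons, List.not_mem_nil, or_false] at he hf
  rcases he with rfl | rfl | rfl | rfl | rfl <;> rcases hf with rfl | rfl | rfl | rfl | rfl
  exacts [⟨_, c34_41_0_0⟩, ⟨_, c34_41_0_1⟩, ⟨_, c34_41_0_2⟩, ⟨_, c34_41_0_3⟩, ⟨_, c34_41_0_4⟩,
    ⟨_, c34_41_1_0⟩, ⟨_, c34_41_1_1⟩, ⟨_, c34_41_1_2⟩, ⟨_, c34_41_1_3⟩, ⟨_, c34_41_1_4⟩,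
    ⟨_, c34_41_2_0⟩, ⟨_, c34_41_2_1⟩, ⟨_, c34_41_2_2⟩, ⟨_, c34_41_2_3⟩, ⟨_, c34_41_2_4⟩,
    ⟨_, c34_41_3_0⟩, ⟨_, c34_41_3_1⟩, ⟨_, c34_41_3_2⟩, ⟨_, c34_41_3_3⟩, ⟨_, c34_41_3_4⟩,
    ⟨_, c34_41_4_0⟩, ⟨_, c34_41_4_1⟩, ⟨_, c34_41_4_2⟩, ⟨_, c34_41_4_3⟩, ⟨_, c34_41_4_4⟩]

theorem x34_42 {x v y u : ℝ} (hz : (⟨x, v⟩ : ℂ) ∈ Pg S34) (hw : (⟨y, u⟩ : ℂ) ∈ Pg S42)
    (hv : 0 < v) (hu : 0 < u) :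
    (3663 - k34_42.c) / 1000 + k34_42.g1 / 1000 * x + k34_42.g2 / 1000 * v + k34_42.g3 / 1000 * y +
      k34_42.g4 / 1000 * u + k34_42.l1 / 1000 * (AA v x (-u) y).re + k34_42.l2 / 1000 * (AA v x (-u) y).im +
      k34_42.m1 / 1000 * (AA (-u) y v x).re - k34_42.m2 / 1000 * (AA (-u) y v x).im < XI v x (-u) y := by
  refine X_of2 p34 p42 i34 i42 ?_ hz hw hv hu
  intro e he f hf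
  simp only [S34, S42, List.mem_cons, List.not_mem_nil, or_false] at he hf
  rcases he with rfl | rfl | rfl | rfl | rfl <;> rcases hf with rfl | rfl | rfl | rfl | rfl
  exacts [⟨_, c34_42_0_0⟩, ⟨_, c34_42_0_1⟩, ⟨_, c34_42_0_2⟩, ⟨_, c34_42_0_3⟩, ⟨_, c34_42_0_4⟩,
    ⟨_, c34_42_1_0⟩, ⟨_, c34_42_1_1⟩, ⟨_, c34_42_1_2⟩, ⟨_, c34_42_1_3⟩, ⟨_, c34_42_1_4⟩,
    ⟨_, c34_42_2_0⟩, ⟨_, c34_42_2_1⟩, ⟨_, c34_42_2_2⟩, ⟨_, c34_42_2_3⟩, ⟨_, c34_42_2_4⟩,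
    ⟨_, c34_42_3_0⟩, ⟨_, c34_42_3_1⟩, ⟨_, c34_42_3_2⟩, ⟨_, c34_42_3_3⟩, ⟨_, c34_42_3_4⟩,
    ⟨_, c34_42_4_0⟩, ⟨_, c34_42_4_1⟩, ⟨_, c34_42_4_2⟩, ⟨_, c34_42_4_3⟩, ⟨_, c34_42_4_4⟩]

theorem x34_R {x v y u : ℝ} (hz : (⟨x, v⟩ : ℂ) ∈ Pg S34) (hw : (⟨y, u⟩ : ℂ) ∈ Pg SR)
    (hv : 0 < v) (hu : 0 < u) :
    (3663 - k34_R.c) / 1000 + k34_R.g1 / 1000 * x + k34_R.g2 / 1000 * v + k34_R.g3 / 1000 * y +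
      k34_R.g4 / 1000 * u + k34_R.l1 / 1000 * (AA v x (-u) y).re + k34_R.l2 / 1000 * (AA v x (-u) y).im +
      k34_R.m1 / 1000 * (AA (-u) y v x).re - k34_R.m2 / 1000 * (AA (-u) y v x).im < XI v x (-u) y := by
  refine X_of2 p34 pR i34 iR ?_ hz hw hv hu
  intro e he f hf
  simp only [S34, SR, List.mem_cons, List.not_mem_nil, or_false] at he hf
  rcases he with rfl | rfl | rfl | rfl | rfl <;> rcases hf with rfl | rfl | rfl | rfl | rfl | rfl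
  exacts [⟨_, c34_R_0_0⟩, ⟨_, c34_R_0_1⟩, ⟨_, c34_R_0_2⟩, ⟨_, c34_R_0_3⟩, ⟨_, c34_R_0_4⟩, ⟨_, c34_R_0_5⟩,
    ⟨_, c34_R_1_0⟩, ⟨_, c34_R_1_1⟩, ⟨_, c34_R_1_2⟩, ⟨_, c34_R_1_3⟩, ⟨_, c34_R_1_4⟩, ⟨_, c34_R_1_5⟩,
    ⟨_, c34_R_2_0⟩, ⟨_, c34_R_2_1⟩, ⟨_, c34_R_2_2⟩, ⟨_, c34_R_2_3⟩, ⟨_, c34_R_2_4⟩, ⟨_, c34_R_2_5⟩,
    ⟨_, c34_R_3_0⟩, ⟨_, c34_R_3_1⟩, ⟨_, c34_R_3_2⟩, ⟨_, c34_R_3_3⟩, ⟨_, c34_R_3_4⟩, ⟨_, c34_R_3_5⟩,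
    ⟨_, c34_R_4_0⟩, ⟨_, c34_R_4_1⟩, ⟨_, c34_R_4_2⟩, ⟨_, c34_R_4_3⟩, ⟨_, c34_R_4_4⟩, ⟨_, c34_R_4_5⟩]

end Pool.Agent.TR8.CI
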