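import Pool.Agent.Lib_helper56.TR8.Xo
import Pool.Agent.Lib_helper56.TR8.XC.C40
import Pool.Agent.Lib_helper56.TR8.XC.C41
import Pool.Agent.Lib_helper56.TR8.XC.C42
import Pool.Agent.Lib_helper56.TR8.XC.C43
import Pool.Agent.Lib_helper56.TR8.XC.C44

/-!
# The inequalities of pairs of polygons, 5
-/

set_option autoImplicit false

open Complex

namespace Pool.Agent.TR8.CI

open Pool.Agent.TR5 (AA XI)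

theorem x35_35 {x v y u : ℝ} (hz : (⟨x, v⟩ : ℂ) ∈ Pg S35) (hw : (⟨y, u⟩ : ℂ) ∈ Pg S35)
    (hv : 0 < v) (hu : 0 < u) :
    (3663 - k35_35.c) / 1000 + k35_35.g1 / 1000 * x + k35_35.g2 / 1000 * v + k35_35.g3 / 1000 * y +
      k35_35.g4 / 1000 * u + k35_35.l1 / 1000 * (AA v x (-u) y).re + k35_35.l2 / 1000 * (AA v x (-u) y).im +
      k35_35.m1 / 1000 * (AA (-u) y v x).re - k35_35.m2 / 1000 * (AA (-u) y v x).im < XI v x (-u) y := by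
  refine X_of2 p35 p35 i35 i35 ?_ hz hw hv hu
  intro e he f hf
  simp only [S35, List.mem_cons, List.not_mem_nil, or_false] at he hf
  rcases he with rfl | rfl | rfl | rfl | rfl <;> rcases hf with rfl | rfl | rfl | rfl | rfl
  exacts [⟨_, c35_35_0_0⟩, ⟨_, c35_35_0_1⟩, ⟨_, c35_35_0_2⟩, ⟨_, c35_35_0_3⟩, ⟨_, c35_35_0_4⟩,
    ⟨_, c35_35_1_0⟩, ⟨_, c35_35_1_1⟩, ⟨_, c35_35_1_2⟩, ⟨_, c35_35_1_3⟩, ⟨_, c35_35_1_4⟩,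
    ⟨_, c35_35_2_0⟩, ⟨_, c35_35_2_1⟩, ⟨_, c35_35_2_2⟩, ⟨_, c35_35_2_3⟩, ⟨_, c35_35_2_4⟩,
    ⟨_, c35_35_3_0⟩, ⟨_, c35_35_3_1⟩, ⟨_, c35_35_3_2⟩, ⟨_, c35_35_3_3⟩, ⟨_, c35_35_3_4⟩,
    ⟨_, c35_35_4_0⟩, ⟨_, c35_35_4_1⟩, ⟨_, c35_35_4_2⟩, ⟨_, c35_35_4_3⟩, ⟨_, c35_35_4_4⟩]

theorem x35_41 {x v y u : ℝ} (hz : (⟨x, v⟩ : ℂ) ∈ Pg S35) (hw : (⟨y, u⟩ : ℂ) ∈ Pg S41)
    (hv : 0 < v) (hu : 0 < u) :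
    (3663 - k35_41.c) / 1000 + k35_41.g1 / 1000 * x + k35_41.g2 / 1000 * v + k35_41.g3 / 1000 * y +
      k35_41.g4 / 1000 * u + k35_41.l1 / 1000 * (AA v x (-u) y).re + k35_41.l2 / 1000 * (AA v x (-u) y).im +
      k35_41.m1 / 1000 * (AA (-u) y v x).re - k35_41.m2 / 1000 * (AA (-u) y v x).im < XI v x (-u) y := by
  refine X_of2 p35 p41 i35 i41 ?_ hz hw hv hu
  intro e he f hf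
  simp only [S35, S41, List.mem_cons, List.not_mem_nil, or_false] at he hf
  rcases he with rfl | rfl | rfl | rfl | rfl <;> rcases hf with rfl | rfl | rfl | rfl | rfl
  exacts [⟨_, c35_41_0_0⟩, ⟨_, c35_41_0_1⟩, ⟨_, c35_41_0_2⟩, ⟨_, c35_41_0_3⟩, ⟨_, c35_41_0_4⟩,
    ⟨_, c35_41_1_0⟩, ⟨_, c35_41_1_1⟩, ⟨_, c35_41_1_2⟩, ⟨_, c35_41_1_3⟩, ⟨_, c35_41_1_4⟩,
    ⟨_, c35_41_2_0⟩, ⟨_, c35_41_2_1⟩, ⟨_, c35_41_2_2⟩, ⟨_, c35_41_2_3⟩, ⟨_, c35_41_2_4⟩,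
    ⟨_, c35_41_3_0⟩, ⟨_, c35_41_3_1⟩, ⟨_, c35_41_3_2⟩, ⟨_, c35_41_3_3⟩, ⟨_, c35_41_3_4⟩,
    ⟨_, c35_41_4_0⟩, ⟨_, c35_41_4_1⟩, ⟨_, c35_41_4_2⟩, ⟨_, c35_41_4_3⟩, ⟨_, c35_41_4_4⟩]

theorem x35_42 {x v y u : ℝ} (hz : (⟨x, v⟩ : ℂ) ∈ Pg S35) (hw : (⟨y, u⟩ : ℂ) ∈ Pg S42)
    (hv : 0 < v) (hu : 0 < u) :
    (3663 - k35_42.c) / 1000 + k35_42.g1 / 1000 * x + k35_42.g2 / 1000 * v + k35_42.g3 / 1000 * y +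
      k35_42.g4 / 1000 * u + k35_42.l1 / 1000 * (AA v x (-u) y).re + k35_42.l2 / 1000 * (AA v x (-u) y).im +
      k35_42.m1 / 1000 * (AA (-u) y v x).re - k35_42.m2 / 1000 * (AA (-u) y v x).im < XI v x (-u) y := by
  refine X_of2 p35 p42 i35 i42 ?_ hz hw hv hu
  intro e he f hf
  simp only [S35, S42, List.mem_cons, List.not_mem_nil, or_false] at he hf
  rcases he with rfl | rfl | rfl | rfl | rfl <;> rcases hf with rfl | rfl | rfl | rfl | rfl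
  exacts [⟨_, c35_42_0_0⟩, ⟨_, c35_42_0_1⟩, ⟨_, c35_42_0_2⟩, ⟨_, c35_42_0_3⟩, ⟨_, c35_42_0_4⟩,
    ⟨_, c35_42_1_0⟩, ⟨_, c35_42_1_1⟩, ⟨_, c35_42_1_2⟩, ⟨_, c35_42_1_3⟩, ⟨_, c35_42_1_4⟩,
    ⟨_, c35_42_2_0⟩, ⟨_, c35_42_2_1⟩, ⟨_, c35_42_2_2⟩, ⟨_, c35_42_2_3⟩, ⟨_, c35_42_2_4⟩,
    ⟨_, c35_42_3_0⟩, ⟨_, c35_42_3_1⟩, ⟨_, c35_42_3_2⟩, ⟨_, c35_42_3_3⟩, ⟨_, c35_42_3_4⟩,
    ⟨_, c35_42_4_0⟩, ⟨_, c35_42_4_1⟩, ⟨_, c35_42_4_2⟩, ⟨_, c35_42_4_3⟩, ⟨_, c35_42_4_4⟩]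

theorem x35_R {x v y u : ℝ} (hz : (⟨x, v⟩ : ℂ) ∈ Pg S35) (hw : (⟨y, u⟩ : ℂ) ∈ Pg SR)
    (hv : 0 < v) (hu : 0 < u) :
    (3663 - k35_R.c) / 1000 + k35_R.g1 / 1000 * x + k35_R.g2 / 1000 * v + k35_R.g3 / 1000 * y +
      k35_R.g4 / 1000 * u + k35_R.l1 / 1000 * (AA v x (-u) y).re + k35_R.l2 / 1000 * (AA v x (-u) y).im +
      k35_R.m1 / 1000 * (AA (-u) y v x).re - k35_R.m2 / 1000 * (AA (-u) y v x).im < XI v x (-u) y := by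
  refine X_of2 p35 pR i35 iR ?_ hz hw hv hu
  intro e he f hf
  simp only [S35, SR, List.mem_cons, List.not_mem_nil, or_false] at he hf
  rcases he with rfl | rfl | rfl | rfl | rfl <;> rcases hf with rfl | rfl | rfl | rfl | rfl | rfl
  exacts [⟨_, c35_R_0_0⟩, ⟨_, c35_R_0_1⟩, ⟨_, c35_R_0_2⟩, ⟨_, c35_R_0_3⟩, ⟨_, c35_R_0_4⟩, ⟨_, c35_R_0_5⟩,
    ⟨_, c35_R_1_0⟩, ⟨_, c35_R_1_1⟩, ⟨_, c35_R_1_2⟩, ⟨_, c35_R_1_3⟩, ⟨_, c35_R_1_4⟩, ⟨_, c35_R_1_5⟩,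
    ⟨_, c35_R_2_0⟩, ⟨_, c35_R_2_1⟩, ⟨_, c35_R_2_2⟩, ⟨_, c35_R_2_3⟩, ⟨_, c35_R_2_4⟩, ⟨_, c35_R_2_5⟩,
    ⟨_, c35_R_3_0⟩, ⟨_, c35_R_3_1⟩, ⟨_, c35_R_3_2⟩, ⟨_, c35_R_3_3⟩, ⟨_, c35_R_3_4⟩, ⟨_, c35_R_3_5⟩,
    ⟨_, c35_R_4_0⟩, ⟨_, c35_R_4_1⟩, ⟨_, c35_R_4_2⟩, ⟨_, c35_R_4_3⟩, ⟨_, c35_R_4_4⟩, ⟨_, c35_R_4_5⟩]

end Pool.Agent.TR8.CI
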