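import Pool.Agent.Lib_helper56.TR8.Xo
import Pool.Agent.Lib_helper56.TR8.XC.C44
import Pool.Agent.Lib_helper56.TR8.XC.C45
import Pool.Agent.Lib_helper56.TR8.XC.C46
import Pool.Agent.Lib_helper56.TR8.XC.C47
import Pool.Agent.Lib_helper56.TR8.XC.C48
import Pool.Agent.Lib_helper56.TR8.XC.C49
import Pool.Agent.Lib_helper56.TR8.XC.C50
import Pool.Agent.Lib_helper56.TR8.XC.C51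
import Pool.Agent.Lib_helper56.TR8.XC.C52
import Pool.Agent.Lib_helper56.TR8.XC.C53
import Pool.Agent.Lib_helper56.TR8.XC.C54

/-!
# The inequalities of pairs of polygons, 6
-/

set_option autoImplicit false

open Complex

namespace Pool.Agent.TR8.CI

open Pool.Agent.TR5 (AA XI)

theorem x41_41 {x v y u : ℝ} (hz : (⟨x, v⟩ : ℂ) ∈ Pg S41) (hw : (⟨y, u⟩ : ℂ) ∈ Pg S41)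
    (hv : 0 < v) (hu : 0 < u) :
    (3663 - k41_41.c) / 1000 + k41_41.g1 / 1000 * x + k41_41.g2 / 1000 * v + k41_41.g3 / 1000 * y +
      k41_41.g4 / 1000 * u + k41_41.l1 / 1000 * (AA v x (-u) y).re + k41_41.l2 / 1000 * (AA v x (-u) y).im +
      k41_41.m1 / 1000 * (AA (-u) y v x).re - k41_41.m2 / 1000 * (AA (-u) y v x).im < XI v x (-u) y := by
  refine X_of2 p41 p41 i41 i41 ?_ hz hw hv hu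
  intro e he f hf
  simp only [S41, List.mem_cons, List.not_mem_nil, or_false] at he hf
  rcases he with rfl | rfl | rfl | rfl | rfl <;> rcases hf with rfl | rfl | rfl | rfl | rfl
  exacts [⟨_, c41_41_0_0⟩, ⟨_, c41_41_0_1⟩, ⟨_, c41_41_0_2⟩, ⟨_, c41_41_0_3⟩, ⟨_, c41_41_0_4⟩,
    ⟨_, c41_41_1_0⟩, ⟨_, c41_41_1_1⟩, ⟨_, c41_41_1_2⟩, ⟨_, c41_41_1_3⟩, ⟨_, c41_41_1_4⟩,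
    ⟨_, c41_41_2_0⟩, ⟨_, c41_41_2_1⟩, ⟨_, c41_41_2_2⟩, ⟨_, c41_41_2_3⟩, ⟨_, c41_41_2_4⟩,
    ⟨_, c41_41_3_0⟩, ⟨_, c41_41_3_1⟩, ⟨_, c41_41_3_2⟩, ⟨_, c41_41_3_3⟩, ⟨_, c41_41_3_4⟩,
    ⟨_, c41_41_4_0⟩, ⟨_, c41_41_4_1⟩, ⟨_, c41_41_4_2⟩, ⟨_, c41_41_4_3⟩, ⟨_, c41_41_4_4⟩]

theorem x41_42 {x v y u : ℝ} (hz : (⟨x, v⟩ : ℂ) ∈ Pg S41) (hw : (⟨y, u⟩ : ℂ) ∈ Pg S42)
    (hv : 0 < v) (hu : 0 < u) :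
    (3663 - k41_42.c) / 1000 + k41_42.g1 / 1000 * x + k41_42.g2 / 1000 * v + k41_42.g3 / 1000 * y +
      k41_42.g4 / 1000 * u + k41_42.l1 / 1000 * (AA v x (-u) y).re + k41_42.l2 / 1000 * (AA v x (-u) y).im +
      k41_42.m1 / 1000 * (AA (-u) y v x).re - k41_42.m2 / 1000 * (AA (-u) y v x).im < XI v x (-u) y := by
  refine X_of2 p41 p42 i41 i42 ?_ hz hw hv hu
  intro e he f hf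
  simp only [S41, S42, List.mem_cons, List.not_mem_nil, or_false] at he hf
  rcases he with rfl | rfl | rfl | rfl | rfl <;> rcases hf with rfl | rfl | rfl | rfl | rfl
  exacts [⟨_, c41_42_0_0⟩, ⟨_, c41_42_0_1⟩, ⟨_, c41_42_0_2⟩, ⟨_, c41_42_0_3⟩, ⟨_, c41_42_0_4⟩,
    ⟨_, c41_42_1_0⟩, ⟨_, c41_42_1_1⟩, ⟨_, c41_42_1_2⟩, ⟨_, c41_42_1_3⟩, ⟨_, c41_42_1_4⟩,
    ⟨_, c41_42_2_0⟩, ⟨_, c41_42_2_1⟩, ⟨_, c41_42_2_2⟩, ⟨_, c41_42_2_3⟩, ⟨_, c41_42_2_4⟩,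
    ⟨_, c41_42_3_0⟩, ⟨_, c41_42_3_1⟩, ⟨_, c41_42_3_2⟩, ⟨_, c41_42_3_3⟩, ⟨_, c41_42_3_4⟩,
    ⟨_, c41_42_4_0⟩, ⟨_, c41_42_4_1⟩, ⟨_, c41_42_4_2⟩, ⟨_, c41_42_4_3⟩, ⟨_, c41_42_4_4⟩]

theorem x41_R {x v y u : ℝ} (hz : (⟨x, v⟩ : ℂ) ∈ Pg S41) (hw : (⟨y, u⟩ : ℂ) ∈ Pg SR)
    (hv : 0 < v) (hu : 0 < u) :
    (3663 - k41_R.c) / 1000 + k41_R.g1 / 1000 * x + k41_R.g2 / 1000 * v + k41_R.g3 / 1000 * y +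
      k41_R.g4 / 1000 * u + k41_R.l1 / 1000 * (AA v x (-u) y).re + k41_R.l2 / 1000 * (AA v x (-u) y).im +
      k41_R.m1 / 1000 * (AA (-u) y v x).re - k41_R.m2 / 1000 * (AA (-u) y v x).im < XI v x (-u) y := by
  refine X_of2 p41 pR i41 iR ?_ hz hw hv hu
  intro e he f hf
  simp only [S41, SR, List.mem_cons, List.not_mem_nil, or_false] at he hf
  rcases he with rfl | rfl | rfl | rfl | rfl <;> rcases hf with rfl | rfl | rfl | rfl | rfl | rfl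
  exacts [⟨_, c41_R_0_0⟩, ⟨_, c41_R_0_1⟩, ⟨_, c41_R_0_2⟩, ⟨_, c41_R_0_3⟩, ⟨_, c41_R_0_4⟩, ⟨_, c41_R_0_5⟩,
    ⟨_, c41_R_1_0⟩, ⟨_, c41_R_1_1⟩, ⟨_, c41_R_1_2⟩, ⟨_, c41_R_1_3⟩, ⟨_, c41_R_1_4⟩, ⟨_, c41_R_1_5⟩,
    ⟨_, c41_R_2_0⟩, ⟨_, c41_R_2_1⟩, ⟨_, c41_R_2_2⟩, ⟨_, c41_R_2_3⟩, ⟨_, c41_R_2_4⟩, ⟨_, c41_R_2_5⟩,
    ⟨_, c41_R_3_0⟩, ⟨_, c41_R_3_1⟩, ⟨_, c41_R_3_2⟩, ⟨_, c41_R_3_3⟩, ⟨_, c41_R_3_4⟩, ⟨_, c41_R_3_5⟩,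
    ⟨_, c41_R_4_0⟩, ⟨_, c41_R_4_1⟩, ⟨_, c41_R_4_2⟩, ⟨_, c41_R_4_3⟩, ⟨_, c41_R_4_4⟩, ⟨_, c41_R_4_5⟩]

theorem x42_42 {x v y u : ℝ} (hz : (⟨x, v⟩ : ℂ) ∈ Pg S42) (hw : (⟨y, u⟩ : ℂ) ∈ Pg S42)
    (hv : 0 < v) (hu : 0 < u) :
    (3663 - k42_42.c) / 1000 + k42_42.g1 / 1000 * x + k42_42.g2 / 1000 * v + k42_42.g3 / 1000 * y +
      k42_42.g4 / 1000 * u + k42_42.l1 / 1000 * (AA v x (-u) y).re + k42_42.l2 / 1000 * (AA v x (-u) y).im +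
      k42_42.m1 / 1000 * (AA (-u) y v x).re - k42_42.m2 / 1000 * (AA (-u) y v x).im < XI v x (-u) y := by
  refine X_of2 p42 p42 i42 i42 ?_ hz hw hv hu
  intro e he f hf
  simp only [S42, List.mem_cons, List.not_mem_nil, or_false] at he hf
  rcases he with rfl | rfl | rfl | rfl | rfl <;> rcases hf with rfl | rfl | rfl | rfl | rfl
  exacts [⟨_, c42_42_0_0⟩, ⟨_, c42_42_0_1⟩, ⟨_, c42_42_0_2⟩, ⟨_, c42_42_0_3⟩, ⟨_, c42_42_0_4⟩,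
    ⟨_, c42_42_1_0⟩, ⟨_, c42_42_1_1⟩, ⟨_, c42_42_1_2⟩, ⟨_, c42_42_1_3⟩, ⟨_, c42_42_1_4⟩,
    ⟨_, c42_42_2_0⟩, ⟨_, c42_42_2_1⟩, ⟨_, c42_42_2_2⟩, ⟨_, c42_42_2_3⟩, ⟨_, c42_42_2_4⟩,
    ⟨_, c42_42_3_0⟩, ⟨_, c42_42_3_1⟩, ⟨_, c42_42_3_2⟩, ⟨_, c42_42_3_3⟩, ⟨_, c42_42_3_4⟩,
    ⟨_, c42_42_4_0⟩, ⟨_, c42_42_4_1⟩, ⟨_, c42_42_4_2⟩, ⟨_, c42_42_4_3⟩, ⟨_, c42_42_4_4⟩]

theorem x42_R {x v y u : ℝ} (hz : (⟨x, v⟩ : ℂ) ∈ Pg S42) (hw : (⟨y, u⟩ : ℂ) ∈ Pg SR)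
    (hv : 0 < v) (hu : 0 < u) :
    (3663 - k42_R.c) / 1000 + k42_R.g1 / 1000 * x + k42_R.g2 / 1000 * v + k42_R.g3 / 1000 * y +
      k42_R.g4 / 1000 * u + k42_R.l1 / 1000 * (AA v x (-u) y).re + k42_R.l2 / 1000 * (AA v x (-u) y).im +
      k42_R.m1 / 1000 * (AA (-u) y v x).re - k42_R.m2 / 1000 * (AA (-u) y v x).im < XI v x (-u) y := by
  refine X_of2 p42 pR i42 iR ?_ hz hw hv hu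
  intro e he f hf
  simp only [S42, SR, List.mem_cons, List.not_mem_nil, or_false] at he hf
  rcases he with rfl | rfl | rfl | rfl | rfl <;> rcases hf with rfl | rfl | rfl | rfl | rfl | rfl
  exacts [⟨_, c42_R_0_0⟩, ⟨_, c42_R_0_1⟩, ⟨_, c42_R_0_2⟩, ⟨_, c42_R_0_3⟩, ⟨_, c42_R_0_4⟩, ⟨_, c42_R_0_5⟩,
    ⟨_, c42_R_1_0⟩, ⟨_, c42_R_1_1⟩, ⟨_, c42_R_1_2⟩, ⟨_, c42_R_1_3⟩, ⟨_, c42_R_1_4⟩, ⟨_, c42_R_1_5⟩,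
    ⟨_, c42_R_2_0⟩, ⟨_, c42_R_2_1⟩, ⟨_, c42_R_2_2⟩, ⟨_, c42_R_2_3⟩, ⟨_, c42_R_2_4⟩, ⟨_, c42_R_2_5⟩,
    ⟨_, c42_R_3_0⟩, ⟨_, c42_R_3_1⟩, ⟨_, c42_R_3_2⟩, ⟨_, c42_R_3_3⟩, ⟨_, c42_R_3_4⟩, ⟨_, c42_R_3_5⟩,
    ⟨_, c42_R_4_0⟩, ⟨_, c42_R_4_1⟩, ⟨_, c42_R_4_2⟩, ⟨_, c42_R_4_3⟩, ⟨_, c42_R_4_4⟩, ⟨_, c42_R_4_5⟩]

theorem xR_R {x v y u : ℝ} (hz : (⟨x, v⟩ : ℂ) ∈ Pg SR) (hw : (⟨y, u⟩ : ℂ) ∈ Pg SR)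
    (hv : 0 < v) (hu : 0 < u) :
    (3663 - kR_R.c) / 1000 + kR_R.g1 / 1000 * x + kR_R.g2 / 1000 * v + kR_R.g3 / 1000 * y +
      kR_R.g4 / 1000 * u + kR_R.l1 / 1000 * (AA v x (-u) y).re + kR_R.l2 / 1000 * (AA v x (-u) y).im +
      kR_R.m1 / 1000 * (AA (-u) y v x).re - kR_R.m2 / 1000 * (AA (-u) y v x).im < XI v x (-u) y := by
  refine X_of2 pR pR iR iR ?_ hz hw hv hu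
  intro e he f hf
  simp only [SR, List.mem_cons, List.not_mem_nil, or_false] at he hf
  rcases he with rfl | rfl | rfl | rfl | rfl | rfl <;> rcases hf with rfl | rfl | rfl | rfl | rfl | rfl
  exacts [⟨_, cR_R_0_0⟩, ⟨_, cR_R_0_1⟩, ⟨_, cR_R_0_2⟩, ⟨_, cR_R_0_3⟩, ⟨_, cR_R_0_4⟩, ⟨_, cR_R_0_5⟩,
    ⟨_, cR_R_1_0⟩, ⟨_, cR_R_1_1⟩, ⟨_, cR_R_1_2⟩, ⟨_, cR_R_1_3⟩, ⟨_, cR_R_1_4⟩, ⟨_, cR_R_1_5⟩,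
    ⟨_, cR_R_2_0⟩, ⟨_, cR_R_2_1⟩, ⟨_, cR_R_2_2⟩, ⟨_, cR_R_2_3⟩, ⟨_, cR_R_2_4⟩, ⟨_, cR_R_2_5⟩,
    ⟨_, cR_R_3_0⟩, ⟨_, cR_R_3_1⟩, ⟨_, cR_R_3_2⟩, ⟨_, cR_R_3_3⟩, ⟨_, cR_R_3_4⟩, ⟨_, cR_R_3_5⟩,
    ⟨_, cR_R_4_0⟩, ⟨_, cR_R_4_1⟩, ⟨_, cR_R_4_2⟩, ⟨_, cR_R_4_3⟩, ⟨_, cR_R_4_4⟩, ⟨_, cR_R_4_5⟩,
    ⟨_, cR_R_5_0⟩, ⟨_, cR_R_5_1⟩, ⟨_, cR_R_5_2⟩, ⟨_, cR_R_5_3⟩, ⟨_, cR_R_5_4⟩, ⟨_, cR_R_5_5⟩]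

end Pool.Agent.TR8.CI
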