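import Pool.Agent.Lib_helper56.TR8.Xo
import Pool.Agent.Lib_helper56.TR8.XC.C54
import Pool.Agent.Lib_helper56.TR8.XC.C55
import Pool.Agent.Lib_helper56.TR8.XC.C56
import Pool.Agent.Lib_helper56.TR8.XC.C57
import Pool.Agent.Lib_helper56.TR8.XC.C58

/-!
# The inequalities of pairs of polygons, 7
-/

set_option autoImplicit false

open Complex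

namespace Pool.Agent.TR8.CI

open Pool.Agent.TR5 (AA XI)

theorem xA_A {x v y u : ℝ} (hz : (⟨x, v⟩ : ℂ) ∈ Pg SA) (hw : (⟨y, u⟩ : ℂ) ∈ Pg SA)
    (hv : 0 < v) (hu : 0 < u) :
    (3663 - kA_A.c) / 1000 + kA_A.g1 / 1000 * x + kA_A.g2 / 1000 * v + kA_A.g3 / 1000 * y +
      kA_A.g4 / 1000 * u + kA_A.l1 / 1000 * (AA v x (-u) y).re + kA_A.l2 / 1000 * (AA v x (-u) y).im +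
      kA_A.m1 / 1000 * (AA (-u) y v x).re - kA_A.m2 / 1000 * (AA (-u) y v x).im < XI v x (-u) y := by
  refine X_of2 pA pA iA iA ?_ hz hw hv hu
  intro e he f hf
  simp only [SA, List.mem_cons, List.not_mem_nil, or_false] at he hf
  rcases he with rfl | rfl | rfl | rfl | rfl | rfl | rfl | rfl <;> rcases hf with rfl | rfl | rfl | rfl | rfl | rfl | rfl | rfl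
  exacts [⟨_, cA_A_0_0⟩, ⟨_, cA_A_0_1⟩, ⟨_, cA_A_0_2⟩, ⟨_, cA_A_0_3⟩, ⟨_, cA_A_0_4⟩, ⟨_, cA_A_0_5⟩, ⟨_, cA_A_0_6⟩, ⟨_, cA_A_0_7⟩,
    ⟨_, cA_A_1_0⟩, ⟨_, cA_A_1_1⟩, ⟨_, cA_A_1_2⟩, ⟨_, cA_A_1_3⟩, ⟨_, cA_A_1_4⟩, ⟨_, cA_A_1_5⟩, ⟨_, cA_A_1_6⟩, ⟨_, cA_A_1_7⟩,
    ⟨_, cA_A_2_0⟩, ⟨_, cA_A_2_1⟩, ⟨_, cA_A_2_2⟩, ⟨_, cA_A_2_3⟩, ⟨_, cA_A_2_4⟩, ⟨_, cA_A_2_5⟩, ⟨_, cA_A_2_6⟩, ⟨_, cA_A_2_7⟩,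
    ⟨_, cA_A_3_0⟩, ⟨_, cA_A_3_1⟩, ⟨_, cA_A_3_2⟩, ⟨_, cA_A_3_3⟩, ⟨_, cA_A_3_4⟩, ⟨_, cA_A_3_5⟩, ⟨_, cA_A_3_6⟩, ⟨_, cA_A_3_7⟩,
    ⟨_, cA_A_4_0⟩, ⟨_, cA_A_4_1⟩, ⟨_, cA_A_4_2⟩, ⟨_, cA_A_4_3⟩, ⟨_, cA_A_4_4⟩, ⟨_, cA_A_4_5⟩, ⟨_, cA_A_4_6⟩, ⟨_, cA_A_4_7⟩,
    ⟨_, cA_A_5_0⟩, ⟨_, cA_A_5_1⟩, ⟨_, cA_A_5_2⟩, ⟨_, cA_A_5_3⟩, ⟨_, cA_A_5_4⟩, ⟨_, cA_A_5_5⟩, ⟨_, cA_A_5_6⟩, ⟨_, cA_A_5_7⟩,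
    ⟨_, cA_A_6_0⟩, ⟨_, cA_A_6_1⟩, ⟨_, cA_A_6_2⟩, ⟨_, cA_A_6_3⟩, ⟨_, cA_A_6_4⟩, ⟨_, cA_A_6_5⟩, ⟨_, cA_A_6_6⟩, ⟨_, cA_A_6_7⟩,
    ⟨_, cA_A_7_0⟩, ⟨_, cA_A_7_1⟩, ⟨_, cA_A_7_2⟩, ⟨_, cA_A_7_3⟩, ⟨_, cA_A_7_4⟩, ⟨_, cA_A_7_5⟩, ⟨_, cA_A_7_6⟩, ⟨_, cA_A_7_7⟩]

end Pool.Agent.TR8.CI
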